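import Pool.Agent.H20.S2.Main2
import Pool.Agent.H39.OP.Final

/-!
# Job S2-18 : exactness of the Koszul complex of `O(d)` for `p ≤ 2 d`

`exact_K2`: as `exact_K` in `H39/OP/Final.lean` with `claim_all2` (`s = w = a`) instead of
`claim_refined`.
`koszul_exact_two`: as `koszul_exact_three_halves` (copy), `i ≤ p ≤ 2 d ≤ m`, so `i ≤ m` and
`i + 2 d ≤ 2 m`.
-/

open MvPolynomial Function

namespace Pool.Agent.H20.S2

open Pool.Agent.H39.OP Pool.Agent.H27.OP

variable {r N e : ℕ} (B : Bs (Fin r) ℂ N (e + 2))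

/-- `H_a(K) = 0` for `K ≥ 2 d - 1`, `K ≥ a`, `a ≤ 2 (K - d)` -/
theorem exact_K2 {a K : ℕ} (haK : a ≤ K) (h2 : 2 * (e + 2) ≤ K + 1)
    (h3 : a + 2 * (e + 2) ≤ 2 * K)
    {κ : Finset (Fin N) → MvPolynomial (Fin r) ℂ} (hκ : κ ∈ ZK B a K) :
    κ ∈ LinearMap.range (SK B).del := by
  refine Submodule.span_le.mpr ?_ (ZK_span B a K haK κ hκ)
  rintro _ ⟨l, y, g, h4, h5, h6, _, h7, rfl⟩
  exact claim_all2 (SK B) (del_vac B) haK h2 h3 a le_rfl l y g h4 h5 h6 h7

/-- **Main theorem.** -/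
theorem koszul_exact_two (n d p : ℕ) (hd : 1 ≤ d) (hp : p ≤ 2 * d)
    (N : ℕ) (φ : Fin N → MvPolynomial (Fin (n + 1)) ℂ)
    (hφ : ∀ i, φ i ∈ homogeneousSubmodule (Fin (n + 1)) ℂ d)
    (hli : LinearIndependent ℂ φ)
    (hsp : Submodule.span ℂ (Set.range φ) = homogeneousSubmodule (Fin (n + 1)) ℂ d)
    (i : ℕ) (hi : i ≤ p) (m : ℕ) (hm : 2 * d ≤ m)
    (f : Finset (Fin N) → MvPolynomial (Fin (n + 1)) ℂ)
    (hf : ∀ I, f I ∈ homogeneousSubmodule (Fin (n + 1)) ℂ m)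
    (hf0 : ∀ I : Finset (Fin N), I.card ≠ i → f I = 0)
    (hz : ∀ J : Finset (Fin N), J.card + 1 = i →
      ∑ b ∈ Jᶜ, (-1 : MvPolynomial (Fin (n + 1)) ℂ) ^ (J.filter (fun c => c < b)).card
        * φ b * f (insert b J) = 0) :
    ∃ g : Finset (Fin N) → MvPolynomial (Fin (n + 1)) ℂ,
      (∀ I, g I ∈ homogeneousSubmodule (Fin (n + 1)) ℂ (m - d)) ∧
      (∀ I : Finset (Fin N), I.card ≠ i + 1 → g I = 0) ∧
      ∀ I : Finset (Fin N), I.card = i →
        f I = ∑ b ∈ Iᶜ, (-1 : MvPolynomial (Fin (n + 1)) ℂ) ^ (I.filter (fun c => c < b)).card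
          * φ b * g (insert b I) := by
  rcases Nat.lt_or_ge d 2 with hd2 | hd2
  · -- `d = 1`
    have hd1 : d = 1 := by omega
    subst hd1
    exact koszul_exact_three_halves n 1 2 hd (by norm_num) N φ hφ hli hsp i (by omega) m hm f
      hf hf0 hz
  · obtain ⟨e, rfl⟩ : ∃ e, d = e + 2 := ⟨d - 2, by omega⟩
    obtain ⟨B, rfl⟩ := exists_Bs φ hφ hli hsp
    have hdel : ∀ (h : Finset (Fin N) → MvPolynomial (Fin (n + 1)) ℂ) (I : Finset (Fin N)),
        (SK B).del h I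
          = ∑ b ∈ Iᶜ, (-1 : MvPolynomial (Fin (n + 1)) ℂ) ^ (I.filter (fun c => c < b)).card
            * B.φ b * h (insert b I) := by
      intro h I
      have h1 : Iᶜ = Finset.univ.filter (fun b => ¬ b ∈ I) := by
        ext b; simp
      rw [SK_del, h1, Finset.sum_filter]
      refine Finset.sum_congr rfl fun b _ => ?_
      rw [aJ_apply]
      by_cases hb : b ∈ I
      · rw [if_pos hb, if_neg (not_not.mpr hb), mul_zero]
      · rw [if_neg hb, if_pos hb, sgn, smul_eq_C_mul, map_pow, map_neg, C_1]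
        ring
    have hfG : f ∈ GK (Fin (n + 1)) ℂ N i m := fun I =>
      ⟨(mem_homogeneousSubmodule _ _).mp (hf I), fun hI => hf0 I hI⟩
    have hfz : (SK B).del f = 0 := by
      funext J
      rw [hdel]
      by_cases hJ : J.card + 1 = i
      · exact hz J hJ
      · refine Finset.sum_eq_zero fun b hb => ?_
        rw [hf0 (insert b J) (by
          rw [Finset.card_insert_of_notMem (Finset.mem_compl.mp hb)]; exact hJ), mul_zero]
    have hfZ : f ∈ ZK B i m := Submodule.mem_inf.mpr ⟨hfG, LinearMap.mem_ker.mpr hfz⟩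
    obtain ⟨ω0, hω0⟩ := exact_K2 B (a := i) (K := m) (by omega) (by omega) (by omega) hfZ
    have h1 : (SK B).del ω0 ∈ (AK B).G i (m - (e + 2) + (e + 2)) := by
      rw [hω0, Nat.sub_add_cancel (by omega)]
      exact hfG
    obtain ⟨ω, hω, hωd⟩ := (AK B).lift h1
    refine ⟨ω, fun I => (mem_homogeneousSubmodule _ _).mpr (hω I).1, fun I hI => (hω I).2 hI, ?_⟩
    intro I _
    rw [← hdel, hωd, hω0]

end Pool.Agent.H20.S2
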