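import Pool.Agent.H39.OP.CpId

/-!
# Job S2-12 : algebraic identities for rows of length two

`Cp`, `Ep`, `c1` from `H39/OP/C1.lean`.  `Cp S y [z, x] {i} = c1 S (y i) x z` (`Cp_single`).

(X1) for `i ≠ j`: `Cp S y [v0, v1, v2] {i, j}
  = c1 (y j) v2 v1 * Ee (y i * v0) + c1 (y j) v0 v2 * Ee (y i * v1) + c1 (y j) v1 v0 * Ee (y i * v2)`
  (unfold `Cp_cons`, `Ep_cons` completely; `Fk.EeEe`: `Ee p * Ee q = - (Ee q * Ee p)`; `Fk.mEe`.)
(X2) `m v0 * c1 b v2 v1 + m v1 * c1 b v0 v2 + m v2 * c1 b v1 v0 = 0` (expand `c1`, `m` commutes).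
(a) `Cp_own2`: by (X1) for the slot `i`, with `y_i = b * _`: every term is `c1 (y j) p q * Ee (b * w * v)`,
  and `b * v * w = b * w * v`; all terms cancel (`abel` after rewriting).
(b) `Cp_exch2`: `∑_{i ∈ R} Cp T (R.erase i) * Cp [v0, v1, v2] {i, k}`, `k ∉ R`, `|T| = |R|`.  Insert (X1)
  (with slots `i`, `k`), move `Ee (y i * v)` to the left of `c1` (sign `-1`: `c1 * Ee p = - Ee p * c1`),
  use `Cp_cons`: `∑_{i ∈ R} Cp T (R.erase i) * Ee (y i * v) = Cp (v :: T) R - (-1)^{|T|} m v * Ep T R`;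
  the `Ep` terms add up to zero by (X2).
(c) `Cp_lin3`: linearity of `Cp S y [v0, v1, v2] R` in `v0`, `v1`, `v2` (unfold the recursion,
  `mul_add`, `map_add`, `map_smul`, …; no condition on `R` needed).
(d) `Cp_tt`: let `R = {i, j}`, `i ≠ j`, `k ∉ R`.  With the expansion of
  `Cp S y [u, v0, v1, v2] {i, j, k}` along the element paired with the slot `k`:
  `Cp [u,v0,v1,v2] {i,j,k} = ± Cp [v0,v1,v2] {i,j} * Ee (y k * u) ∓ Cp [u,v1,v2] {i,j} * Ee (y k * v0) ± …`
  (unfold everything, or prove the expansion for a slot by induction on the list as (X1)), and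
  `m u * Cp [v0,v1,v2] R - m v0 * Cp [u,v1,v2] R + m v1 * Cp [u,v0,v2] R - m v2 * Cp [u,v0,v1] R = 0`.
  With `c1 (y k) x s = m x * Ee (y k * s) - m s * Ee (y k * x)` one gets
  `Cp [v0,v1,v2] R * c1 (y k) u s - Cp [u,v1,v2] R * c1 (y k) v0 s - Cp [v0,u,v2] R * c1 (y k) v1 s
    - Cp [v0,v1,u] R * c1 (y k) v2 s = - m s * Cp [u,v0,v1,v2] (insert k R)`
  (alternation: `Cp [v0,u,v2] R = - Cp [u,v0,v2] R`, `Cp [v0,v1,u] R = Cp [u,v0,v1] R`).
  All identities of this file (with these signs) were checked by computer.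
-/

open MvPolynomial Function

namespace Pool.Agent.H20.S2

open Pool.Agent.H39.OP Pool.Agent.H27.OP

variable {σ k : Type*} [Fintype σ] [Field k] {O : Type*} [Ring O] [Algebra k O] {d : ℕ}
variable {I : Type*} [DecidableEq I] (S : Fk σ k O d)

private theorem Alg_m_Ep (a : MvPolynomial σ k) (y : I → MvPolynomial σ k)
    (T : List (MvPolynomial σ k)) (R : Finset I) :
    S.m a * Ep S y T R = Ep S y T R * S.m a := by
  induction T generalizing R with
  | nil =>
    rw [Ep_nil]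
    split_ifs <;> simp
  | cons u T ih =>
    rw [Ep_cons, Finset.mul_sum, Finset.sum_mul]
    refine Finset.sum_congr rfl fun i _ => ?_
    rw [← mul_assoc, ih, mul_assoc, S.mEe, mul_assoc]

private theorem Alg_c1_swap (b x z : MvPolynomial σ k) : c1 S b x z = - c1 S b z x := by
  unfold c1
  abel

private theorem Alg_c1_Ee (b x z p : MvPolynomial σ k) :
    c1 S b x z * S.Ee p = - (S.Ee p * c1 S b x z) := by
  unfold c1
  rw [sub_mul, mul_sub, mul_assoc, S.EeEe, mul_assoc, S.EeEe (b * x), ← mul_assoc (S.Ee p),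
    ← mul_assoc (S.Ee p), ← S.mEe, ← S.mEe, mul_neg, mul_neg, mul_assoc, mul_assoc]
  abel

private theorem Alg_Ep1 (y : I → MvPolynomial σ k) (i : I) (x : MvPolynomial σ k) :
    Ep S y [x] {i} = S.Ee (y i * x) := by
  have h0 : ({i} : Finset I).erase i = ∅ := by simp
  rw [Ep_cons, Finset.sum_singleton, h0, Ep_nil, if_pos rfl, one_mul]

private theorem Alg_er1 {i j : I} (hij : i ≠ j) : ({i, j} : Finset I).erase i = {j} := by
  ext a
  simp only [Finset.mem_erase, Finset.mem_insert, Finset.mem_singleton]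
  constructor
  · rintro ⟨h1, h2 | h2⟩
    · exact absurd h2 h1
    · exact h2
  · rintro rfl
    exact ⟨Ne.symm hij, Or.inr rfl⟩

private theorem Alg_er2 {i j : I} (hij : i ≠ j) : ({i, j} : Finset I).erase j = {i} := by
  rw [Finset.pair_comm]
  exact Alg_er1 (Ne.symm hij)

private theorem Alg_Ep2 (y : I → MvPolynomial σ k) {i j : I} (hij : i ≠ j)
    (u v : MvPolynomial σ k) :
    Ep S y [u, v] {i, j} = S.Ee (y j * v) * S.Ee (y i * u) + S.Ee (y i * v) * S.Ee (y j * u) := by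
  rw [Ep_cons, Finset.sum_pair hij, Alg_er1 hij, Alg_er2 hij, Alg_Ep1, Alg_Ep1]

private theorem Alg_Cp2 (y : I → MvPolynomial σ k) {i j : I} (hij : i ≠ j)
    (v0 v1 v2 : MvPolynomial σ k) :
    Cp S y [v0, v1, v2] {i, j} =
      S.m v0 * (S.Ee (y j * v2) * S.Ee (y i * v1) + S.Ee (y i * v2) * S.Ee (y j * v1))
      + (c1 S (y j) v2 v1 * S.Ee (y i * v0) + c1 S (y i) v2 v1 * S.Ee (y j * v0)) := by
  rw [Cp_cons, Finset.sum_pair hij, Alg_er1 hij, Alg_er2 hij, Cp_single, Cp_single,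
    Alg_Ep2 S y hij]
  simp

theorem Cp_X1 (y : I → MvPolynomial σ k) {i j : I} (hij : i ≠ j) (v0 v1 v2 : MvPolynomial σ k) :
    Cp S y [v0, v1, v2] {i, j}
      = c1 S (y j) v2 v1 * S.Ee (y i * v0) + c1 S (y j) v0 v2 * S.Ee (y i * v1)
        + c1 S (y j) v1 v0 * S.Ee (y i * v2) := by
  rw [Alg_Cp2 S y hij]
  unfold c1
  simp only [sub_mul, mul_add, mul_assoc]
  rw [S.EeEe (y i * v2) (y j * v1), S.EeEe (y i * v1) (y j * v0), S.EeEe (y i * v2) (y j * v0)]
  simp only [mul_neg]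
  abel

theorem c1_X2 (b v0 v1 v2 : MvPolynomial σ k) :
    S.m v0 * c1 S b v2 v1 + S.m v1 * c1 S b v0 v2 + S.m v2 * c1 S b v1 v0 = 0 := by
  unfold c1
  simp only [mul_sub, ← mul_assoc]
  rw [S.mm v1 v0, S.mm v2 v0, S.mm v2 v1]
  abel

theorem Cp_own2 (y : I → MvPolynomial σ k) {i j : I} (hij : i ≠ j)
    (b w v0 v1 v2 : MvPolynomial σ k) :
    Cp S (update y i (b * w)) [v0, v1, v2] {i, j}
      = Cp S (update y i (b * v0)) [w, v1, v2] {i, j}
        + Cp S (update y i (b * v1)) [v0, w, v2] {i, j}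
        + Cp S (update y i (b * v2)) [v0, v1, w] {i, j} := by
  rw [Cp_X1 S _ hij, Cp_X1 S _ hij, Cp_X1 S _ hij, Cp_X1 S _ hij]
  simp only [update_self, update_of_ne (Ne.symm hij)]
  rw [Alg_c1_swap S (y j) v2 w, Alg_c1_swap S (y j) v1 w, Alg_c1_swap S (y j) v0 w,
    show b * w * v0 = b * v0 * w by ring, show b * w * v1 = b * v1 * w by ring,
    show b * w * v2 = b * v2 * w by ring, show b * v1 * v0 = b * v0 * v1 by ring,
    show b * v2 * v0 = b * v0 * v2 by ring, show b * v2 * v1 = b * v1 * v2 by ring]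
  simp only [neg_mul]
  abel

theorem Cp_exch2 (y : I → MvPolynomial σ k) (T : List (MvPolynomial σ k)) (R : Finset I)
    {n : I} (hn : n ∉ R) (v0 v1 v2 : MvPolynomial σ k) :
    ∑ i ∈ R, Cp S y T (R.erase i) * Cp S y [v0, v1, v2] {i, n}
      = - (Cp S y (v0 :: T) R * c1 S (y n) v2 v1 + Cp S y (v1 :: T) R * c1 S (y n) v0 v2
        + Cp S y (v2 :: T) R * c1 S (y n) v1 v0) := by
  have h1 : ∀ i ∈ R, Cp S y T (R.erase i) * Cp S y [v0, v1, v2] {i, n}
      = - (Cp S y T (R.erase i) * S.Ee (y i * v0) * c1 S (y n) v2 v1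
        + Cp S y T (R.erase i) * S.Ee (y i * v1) * c1 S (y n) v0 v2
        + Cp S y T (R.erase i) * S.Ee (y i * v2) * c1 S (y n) v1 v0) := by
    intro i hi
    have hin : i ≠ n := fun h => hn (h ▸ hi)
    rw [Cp_X1 S y hin, Alg_c1_Ee, Alg_c1_Ee, Alg_c1_Ee, mul_add, mul_add, mul_neg, mul_neg,
      mul_neg, mul_assoc, mul_assoc, mul_assoc]
    abel
  have h2 : ∀ v, ∑ i ∈ R, Cp S y T (R.erase i) * S.Ee (y i * v)
      = Cp S y (v :: T) R - (-1) ^ T.length * (Ep S y T R * S.m v) := by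
    intro v
    rw [Cp_cons, Alg_m_Ep]
    abel
  rw [Finset.sum_congr rfl h1, Finset.sum_neg_distrib, Finset.sum_add_distrib,
    Finset.sum_add_distrib, ← Finset.sum_mul, ← Finset.sum_mul, ← Finset.sum_mul, h2, h2, h2]
  have h3 := c1_X2 S (y n) v0 v1 v2
  have h4 : (-1) ^ T.length * (Ep S y T R * (S.m v0 * c1 S (y n) v2 v1
      + S.m v1 * c1 S (y n) v0 v2 + S.m v2 * c1 S (y n) v1 v0)) = 0 := by
    rw [h3, mul_zero, mul_zero]
  have h5 : ∀ a b c e : O, (a - e * (Ep S y T R * b)) * c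
      = a * c - e * (Ep S y T R * (b * c)) := by
    intro a b c e
    rw [sub_mul, mul_assoc, mul_assoc]
  rw [h5, h5, h5]
  rw [mul_add, mul_add, mul_add, mul_add] at h4
  congr 1
  rw [← sub_eq_zero]
  have h6 : ∀ a b c p q r : O, p + q + r = 0 →
      (a - p) + (b - q) + (c - r) - (a + b + c) = 0 := by
    intro a b c p q r h
    have : (a - p) + (b - q) + (c - r) - (a + b + c) = - (p + q + r) := by abel
    rw [this, h, neg_zero]
  exact h6 _ _ _ _ _ _ h4

private theorem Alg_Ep_add (y : I → MvPolynomial σ k) (T1 T2 : List (MvPolynomial σ k))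
    (u u' : MvPolynomial σ k) (R : Finset I) :
    Ep S y (T1 ++ (u + u') :: T2) R = Ep S y (T1 ++ u :: T2) R + Ep S y (T1 ++ u' :: T2) R := by
  induction T1 generalizing R with
  | nil =>
    simp only [List.nil_append, Ep_cons, mul_add, map_add, Finset.sum_add_distrib]
  | cons w T1 ih =>
    simp only [List.cons_append, Ep_cons, ih, add_mul, Finset.sum_add_distrib]

private theorem Alg_Ep_smul (y : I → MvPolynomial σ k) (T1 T2 : List (MvPolynomial σ k))
    (τ : k) (u : MvPolynomial σ k) (R : Finset I) :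
    Ep S y (T1 ++ (τ • u) :: T2) R = τ • Ep S y (T1 ++ u :: T2) R := by
  induction T1 generalizing R with
  | nil =>
    simp only [List.nil_append, Ep_cons, mul_smul_comm, map_smul, Finset.smul_sum]
  | cons w T1 ih =>
    simp only [List.cons_append, Ep_cons, ih, smul_mul_assoc, Finset.smul_sum]

private theorem Alg_Cp_add (y : I → MvPolynomial σ k) (T1 T2 : List (MvPolynomial σ k))
    (u u' : MvPolynomial σ k) (R : Finset I) :
    Cp S y (T1 ++ (u + u') :: T2) R = Cp S y (T1 ++ u :: T2) R + Cp S y (T1 ++ u' :: T2) R := by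
  induction T1 generalizing R with
  | nil =>
    simp only [List.nil_append, Cp_cons, mul_add, add_mul, map_add, Finset.sum_add_distrib]
    abel
  | cons w T1 ih =>
    simp only [List.cons_append, Cp_cons, ih, Alg_Ep_add, add_mul, mul_add,
      Finset.sum_add_distrib, List.length_append, List.length_cons]
    abel

private theorem Alg_Cp_smul (y : I → MvPolynomial σ k) (T1 T2 : List (MvPolynomial σ k))
    (τ : k) (u : MvPolynomial σ k) (R : Finset I) :
    Cp S y (T1 ++ (τ • u) :: T2) R = τ • Cp S y (T1 ++ u :: T2) R := by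
  induction T1 generalizing R with
  | nil =>
    simp only [List.nil_append, Cp_cons, mul_smul_comm, smul_mul_assoc, map_smul,
      Finset.smul_sum, smul_add]
  | cons w T1 ih =>
    simp only [List.cons_append, Cp_cons, ih, Alg_Ep_smul, smul_mul_assoc, mul_smul_comm,
      Finset.smul_sum, smul_add, List.length_append, List.length_cons]

theorem Cp_add3 (y : I → MvPolynomial σ k) (R : Finset I) (v : Fin 3 → MvPolynomial σ k)
    (c : Fin 3) (u u' : MvPolynomial σ k) :
    Cp S y [update v c (u + u') 0, update v c (u + u') 1, update v c (u + u') 2] R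
      = Cp S y [update v c u 0, update v c u 1, update v c u 2] R
        + Cp S y [update v c u' 0, update v c u' 1, update v c u' 2] R := by
  fin_cases c
  · simpa [update] using Alg_Cp_add S y [] [v 1, v 2] u u' R
  · simpa [update] using Alg_Cp_add S y [v 0] [v 2] u u' R
  · simpa [update] using Alg_Cp_add S y [v 0, v 1] [] u u' R

theorem Cp_smul3 (y : I → MvPolynomial σ k) (R : Finset I) (v : Fin 3 → MvPolynomial σ k)
    (c : Fin 3) (τ : k) (u : MvPolynomial σ k) :
    Cp S y [update v c (τ • u) 0, update v c (τ • u) 1, update v c (τ • u) 2] R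
      = τ • Cp S y [update v c u 0, update v c u 1, update v c u 2] R := by
  fin_cases c
  · simpa [update] using Alg_Cp_smul S y [] [v 1, v 2] τ u R
  · simpa [update] using Alg_Cp_smul S y [v 0] [v 2] τ u R
  · simpa [update] using Alg_Cp_smul S y [v 0, v 1] [] τ u R

private theorem Alg_er3a {i j n : I} (hij : i ≠ j) (hni : n ≠ i) :
    ({i, j, n} : Finset I).erase i = {j, n} := by
  refine Finset.erase_insert ?_
  simp only [Finset.mem_insert, Finset.mem_singleton, not_or]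
  exact ⟨hij, Ne.symm hni⟩

private theorem Alg_er3b {i j n : I} (hij : i ≠ j) (hnj : n ≠ j) :
    ({i, j, n} : Finset I).erase j = {i, n} := by
  rw [Finset.insert_comm]
  refine Finset.erase_insert ?_
  simp only [Finset.mem_insert, Finset.mem_singleton, not_or]
  exact ⟨Ne.symm hij, Ne.symm hnj⟩

private theorem Alg_er3c {i j n : I} (hni : n ≠ i) (hnj : n ≠ j) :
    ({i, j, n} : Finset I).erase n = {i, j} := by
  rw [show ({i, j, n} : Finset I) = {n, i, j} by
    ext a
    simp only [Finset.mem_insert, Finset.mem_singleton]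
    tauto]
  refine Finset.erase_insert ?_
  simp only [Finset.mem_insert, Finset.mem_singleton, not_or]
  exact ⟨hni, hnj⟩

private theorem Alg_sum3 {i j n : I} (hij : i ≠ j) (hni : n ≠ i) (hnj : n ≠ j) (f : I → O) :
    ∑ x ∈ ({i, j, n} : Finset I), f x = f i + (f j + f n) := by
  rw [Finset.sum_insert, Finset.sum_pair (Ne.symm hnj)]
  simp only [Finset.mem_insert, Finset.mem_singleton, not_or]
  exact ⟨hij, Ne.symm hni⟩

theorem Cp_tt (y : I → MvPolynomial σ k) {i j n : I} (hij : i ≠ j) (hni : n ≠ i) (hnj : n ≠ j)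
    (u s v0 v1 v2 : MvPolynomial σ k) :
    Cp S y [v0, v1, v2] {i, j} * c1 S (y n) u s
      - Cp S y [u, v1, v2] {i, j} * c1 S (y n) v0 s
      - Cp S y [v0, u, v2] {i, j} * c1 S (y n) v1 s
      - Cp S y [v0, v1, u] {i, j} * c1 S (y n) v2 s
      = - (S.m s * Cp S y [u, v0, v1, v2] {i, j, n}) := by
  have hin : i ≠ n := Ne.symm hni
  have hjn : j ≠ n := Ne.symm hnj
  rw [Cp_cons S y u [v0, v1, v2], Alg_sum3 hij hni hnj, Alg_er3a hij hni, Alg_er3b hij hnj, Alg_er3c hni hnj,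
    Ep_cons S y v0 [v1, v2], Alg_sum3 hij hni hnj, Alg_er3a hij hni, Alg_er3b hij hnj,
    Alg_er3c hni hnj, Alg_Ep2 S y hjn, Alg_Ep2 S y hin, Alg_Ep2 S y hij,
    Alg_Cp2 S y hij, Alg_Cp2 S y hij, Alg_Cp2 S y hij, Alg_Cp2 S y hij, Alg_Cp2 S y hjn,
    Alg_Cp2 S y hin]
  have e1 : ∀ a b, S.Ee (y n * a) * S.Ee (y j * b) = - (S.Ee (y j * b) * S.Ee (y n * a)) :=
    fun a b => S.EeEe _ _
  have e2 : ∀ a b, S.Ee (y n * a) * S.Ee (y i * b) = - (S.Ee (y i * b) * S.Ee (y n * a)) :=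
    fun a b => S.EeEe _ _
  have e3 : ∀ a b, S.Ee (y j * a) * S.Ee (y i * b) = - (S.Ee (y i * b) * S.Ee (y j * a)) :=
    fun a b => S.EeEe _ _
  have f1 : ∀ a b X, S.Ee (y n * a) * (S.Ee (y j * b) * X)
      = - (S.Ee (y j * b) * (S.Ee (y n * a) * X)) := by
    intro a b X
    rw [← mul_assoc, e1, neg_mul, mul_assoc]
  have f2 : ∀ a b X, S.Ee (y n * a) * (S.Ee (y i * b) * X)
      = - (S.Ee (y i * b) * (S.Ee (y n * a) * X)) := by
    intro a b X
    rw [← mul_assoc, e2, neg_mul, mul_assoc]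
  have f3 : ∀ a b X, S.Ee (y j * a) * (S.Ee (y i * b) * X)
      = - (S.Ee (y i * b) * (S.Ee (y j * a) * X)) := by
    intro a b X
    rw [← mul_assoc, e3, neg_mul, mul_assoc]
  have g1 : ∀ a e, S.Ee e * S.m a = S.m a * S.Ee e := fun a e => (S.mEe a e).symm
  have g2 : ∀ a e X, S.Ee e * (S.m a * X) = S.m a * (S.Ee e * X) := by
    intro a e X
    rw [← mul_assoc, g1, mul_assoc]
  have k1 : ∀ a b X, S.m a * (S.m b * X) = S.m b * (S.m a * X) := by
    intro a b X
    rw [← mul_assoc, S.mm, mul_assoc]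
  unfold c1
  simp only [List.length_cons, List.length_nil, zero_add, Nat.reduceAdd,
    show ((-1 : O)) ^ 3 = -1 by norm_num [pow_succ], neg_one_mul]
  simp only [sub_mul, mul_sub, add_mul, mul_add, mul_assoc, g2, e1, e2, e3, f3,
    neg_mul, mul_neg, neg_neg, k1 u s, k1 v0 s, k1 v1 s, k1 v2 s, k1 v0 u, k1 v1 u, k1 v2 u,
    k1 v1 v0, k1 v2 v0, k1 v2 v1]
  abel

end Pool.Agent.H20.S2
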