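import Pool.Agent.H20.S2.FT

/-!
# Job S2-15 : the letters of the bivectors are good with the trivectors

PROOF of `FT_omX`.  Let `q` be the row with `q.1 = R = {i, j}` and `q'` the row with `q'.1 = {n}`
(`row n = {n}`, `n ∈ slots l`).  `l` is a permutation of `q :: q' :: rest` (`Pr_move` twice, the sign `ε`
does not depend on `T, X, Z`).  With `b k = a k` and `v : Fin 3 → Sd r 1`, `x : Sd r 1`
`FT … (update T R v) a (update X n x) Z
 = Φ ((ε * (Cp S b [v 0, v 1, v 2] R * c1 S (b n) x (Z n) * Pr S b rest')) (κ a))`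
where `rest' = (rest.map (thT T)).map (rw' X Z)` does not depend on `v` and `x` (the rows of `rest` are
different from `R` and do not contain `n`; compare `FLin_own`, `FLin_outer` in `H39/OP/FLin.lean`).
So the difference of the two sides of the claim is `Φ` of `ε *` the left side of `Cp_tt` (with
`u = w'`, `s = Z n`) `* Pr S b rest'`, applied to `κ a = S.m (g a) κ₀`; by `Cp_tt` this is
`- ε * S.m (Z n) * Cp S b [w', v 0, v 1, v 2] {i, j, n} * Pr S b rest'`, i.e. up to sign
`Pr S b (({i, j, n}, [w', v 0, v 1, v 2]) :: rest') (S.m (Z n * g a) κ₀)`, a configuration with `s` rows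
(instead of `s + 1`), the same weight `2 + 1 = 3`, and `Z n * g a` of degree
`K - (s + 1) + 1 = K - s`: in `range S.del` by `Claim S κ₀ w K s` (as in `FGar_claim`).
-/

open MvPolynomial Function

namespace Pool.Agent.H20.S2

open Pool.Agent.H39.OP Pool.Agent.H27.OP

variable {r e : ℕ} {E : Type*} [AddCommGroup E] [Module ℂ E]
  (S : Fk (Fin r) ℂ (Module.End ℂ E) (e + 2)) (Φ : E →ₗ[ℂ] ℂ)

private theorem FO_thT_upd (T : Finset ℕ → Fin 3 → Sd r 1) {R : Finset ℕ} (v : Fin 3 → Sd r 1)
    (p : Finset ℕ × List (MvPolynomial (Fin r) ℂ)) (h : p.1 ≠ R) :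
    thT (update T R v) p = thT T p := by
  unfold thT
  rw [update_of_ne h]

private theorem FO_rw_upd (X Z : ℕ → Sd r 1) {n : ℕ} (x : Sd r 1)
    (p : Finset ℕ × List (MvPolynomial (Fin r) ℂ)) (h : n ∉ p.1) :
    rw' (update X n x) Z p = rw' X Z p := by
  unfold rw'
  have h1 : ∑ j ∈ p.1, update X n x j = ∑ j ∈ p.1, X j :=
    Finset.sum_congr rfl fun j hj => update_of_ne (fun h' : j = n => h (h' ▸ hj)) _ _
  rw [h1]

private theorem FO_row2 (T : Finset ℕ → Fin 3 → Sd r 1) (X Z : ℕ → Sd r 1) {R : Finset ℕ}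
    (v : Fin 3 → Sd r 1) (q : Finset ℕ × List (MvPolynomial (Fin r) ℂ)) (hq : q.1 = R)
    (hR2 : R.card = 2) :
    rw' X Z (thT (update T R v) q) = (R, [((v 0 : Sd r 1) : MvPolynomial (Fin r) ℂ),
      ((v 1 : Sd r 1) : MvPolynomial (Fin r) ℂ), ((v 2 : Sd r 1) : MvPolynomial (Fin r) ℂ)]) := by
  subst hq
  unfold thT
  rw [if_pos hR2, update_self]
  unfold rw'
  rw [if_neg]
  show ¬ q.1.card = 1
  omega

private theorem FO_row1 (T : Finset ℕ → Fin 3 → Sd r 1) (X Z : ℕ → Sd r 1) {n : ℕ}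
    (x : Sd r 1) (q : Finset ℕ × List (MvPolynomial (Fin r) ℂ)) (hq : q.1 = {n}) :
    rw' (update X n x) Z (thT T q)
      = (({n} : Finset ℕ), [(Z n : MvPolynomial (Fin r) ℂ), (x : MvPolynomial (Fin r) ℂ)]) := by
  have h1 : thT T q = q := by
    unfold thT
    rw [if_neg]
    rw [hq, Finset.card_singleton]
    norm_num
  rw [h1]
  unfold rw'
  rw [hq, if_pos (Finset.card_singleton n), Finset.sum_singleton, Finset.sum_singleton,
    update_self]

private theorem FO_cfg_perm {l l' : List (Finset ℕ × List (MvPolynomial (Fin r) ℂ))}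
    (h : Cfg l) (hp : l.Perm l') : Cfg l' :=
  ⟨fun q hq => h.ne q (hp.mem_iff.2 hq), fun q hq => h.len q (hp.mem_iff.2 hq),
    fun q hq => h.hom q (hp.mem_iff.2 hq), hp.pairwise h.disj (fun h => h.symm)⟩

private theorem FO_hom {j : ℕ} (u : Sd r j) : (u : MvPolynomial (Fin r) ℂ).IsHomogeneous j :=
  (mem_homogeneousSubmodule _ _).mp u.2

private theorem FO_phi (Φ : E →ₗ[ℂ] ℂ) (P0 P1 P2 P3 : Module.End ℂ E) (z : E)
    (h : Φ ((P0 - P1 - P2 - P3) z) = 0) : Φ (P0 z) = Φ (P1 z) + Φ (P2 z) + Φ (P3 z) := by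
  simp only [LinearMap.sub_apply, map_sub] at h
  linear_combination h

private theorem FO_alg (m n : ℕ) (C0 C1 C2 C3 k0 k1 k2 k3 A D : Module.End ℂ E)
    (h : C0 * k0 - C1 * k1 - C2 * k2 - C3 * k3 = - D) :
    (-1) ^ m * (C0 * ((-1) ^ n * (k0 * A))) - (-1) ^ m * (C1 * ((-1) ^ n * (k1 * A)))
      - (-1) ^ m * (C2 * ((-1) ^ n * (k2 * A))) - (-1) ^ m * (C3 * ((-1) ^ n * (k3 * A)))
      = (-1) ^ m * ((-1) ^ n * ((-1) ^ 1 * (D * A))) := by
  have h1 : C0 * (k0 * A) - C1 * (k1 * A) - C2 * (k2 * A) - C3 * (k3 * A) = - (D * A) := by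
    rw [← neg_mul, ← h]
    simp only [sub_mul, mul_assoc]
  rw [pow_one]
  rcases neg_one_pow_eq_or (Module.End ℂ E) m with h2 | h2 <;>
    rcases neg_one_pow_eq_or (Module.End ℂ E) n with h3 | h3 <;>
    rw [h2, h3] <;> simp only [one_mul, neg_one_mul, mul_neg, neg_neg] <;>
    (try rw [h1]) <;>
    (rw [← neg_eq_iff_eq_neg] at h1; rw [← h1]; abel)

private theorem FO_mem (n : ℕ) (A : Module.End ℂ E) {x : E}
    (h : A x ∈ LinearMap.range S.del) :
    ((-1) ^ n * A : Module.End ℂ E) x ∈ LinearMap.range S.del := by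
  rcases neg_one_pow_eq_or (Module.End ℂ E) n with h1 | h1
  · rw [h1, one_mul]
    exact h
  · rw [h1, neg_one_mul, LinearMap.neg_apply]
    exact (LinearMap.range S.del).neg_mem h

theorem FT_omX (hΦ : ∀ x, Φ (S.del x) = 0) {κ₀ : E} {w K s : ℕ}
    (hC : Claim S κ₀ w K s) (hK : s + 1 ≤ K)
    {l : List (Finset ℕ × List (MvPolynomial (Fin r) ℂ))} (hlen : l.length = s + 1)
    (hcfg : Cfg l) (hwt : wt l = w)
    {row : ℕ → Finset ℕ} (hrow : ∀ q ∈ l, ∀ i ∈ q.1, row i = q.1)
    (κ : (ℕ → Sd r (e + 1)) → E) (g : (ℕ → Sd r (e + 1)) → MvPolynomial (Fin r) ℂ)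
    (hκ : ∀ a, κ a = S.m (g a) κ₀) (hg : ∀ a, (g a).IsHomogeneous (K - (s + 1)))
    {R : Finset ℕ} (hR : R ∈ l.map Prod.fst) (hR2 : R.card = 2)
    {n : ℕ} (hn : n ∈ slots l) (hn1 : row n = {n})
    (T : Finset ℕ → Fin 3 → Sd r 1) (a : ℕ → Sd r (e + 1)) (X Z : ℕ → Sd r 1)
    (v : Fin 3 → Sd r 1) (w' : Sd r 1) :
    FT S Φ l κ (update T R v) a (update X n w') Z
      = ∑ c, FT S Φ l κ (update T R (update v c w')) a (update X n (v c)) Z := by
  obtain ⟨q, hq, hqR⟩ := List.mem_map.1 hR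
  obtain ⟨q', hq', hnq'⟩ := mem_slots.1 hn
  have hq'n : q'.1 = {n} := by rw [← hrow q' hq' n hnq', hn1]
  have hne : q' ≠ q := by
    rintro rfl
    rw [hq'n] at hqR
    rw [← hqR, Finset.card_singleton] at hR2
    omega
  obtain ⟨l₁, l₂, rfl⟩ := List.append_of_mem hq
  have hq'2 : q' ∈ l₁ ++ l₂ := by
    rcases List.mem_append.1 hq' with h | h
    · exact List.mem_append_left _ h
    · rcases List.mem_cons.1 h with h | h
      · exact absurd h hne
      · exact List.mem_append_right _ h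
  obtain ⟨l₃, l₄, h34⟩ := List.append_of_mem hq'2
  have hperm : (l₁ ++ q :: l₂).Perm (q :: q' :: (l₃ ++ l₄)) := by
    refine List.perm_middle.trans (List.Perm.cons _ ?_)
    rw [h34]
    exact List.perm_middle
  have hcfg1 : Cfg (q :: q' :: (l₃ ++ l₄)) := FO_cfg_perm hcfg hperm
  have hd1 := List.pairwise_cons.1 hcfg1.disj
  have hd2 := List.pairwise_cons.1 hd1.2
  have hnR : n ∉ R := by
    have h := hd1.1 q' List.mem_cons_self
    rw [hqR, hq'n] at h
    exact Finset.disjoint_singleton_right.1 h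
  have hrR : ∀ p ∈ l₃ ++ l₄, Disjoint R p.1 := by
    intro p hp
    rw [← hqR]
    exact hd1.1 p (List.mem_cons_of_mem _ hp)
  have hrn : ∀ p ∈ l₃ ++ l₄, n ∉ p.1 := by
    intro p hp
    have h := hd2.1 p hp
    rw [hq'n] at h
    exact Finset.disjoint_singleton_left.1 h
  have hrne : ∀ p ∈ l₃ ++ l₄, p.1 ≠ R := by
    intro p hp h
    have h1 := hrR p hp
    rw [h] at h1
    have h2 : R = ∅ := by simpa using h1
    rw [h2] at hR2
    simp at hR2
  set b : ℕ → MvPolynomial (Fin r) ℂ := fun i => (a i : MvPolynomial (Fin r) ℂ) with hb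
  set rest := ((l₃ ++ l₄).map (thT T)).map (rw' X Z) with hrest
  have hrestc : ∀ (v : Fin 3 → Sd r 1) (x : Sd r 1),
      ((l₃ ++ l₄).map (thT (update T R v))).map (rw' (update X n x) Z) = rest := by
    intro v x
    rw [hrest, List.map_map, List.map_map]
    refine List.map_congr_left fun p hp => ?_
    rw [Function.comp_apply, Function.comp_apply, FO_thT_upd T v p (hrne p hp),
      FO_rw_upd X Z x _ (by rw [thT_fst]; exact hrn p hp)]
  have hPr : ∀ (v : Fin 3 → Sd r 1) (x : Sd r 1),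
      Pr S b (((l₁ ++ q :: l₂).map (thT (update T R v))).map (rw' (update X n x) Z))
        = (-1) ^ (R.card * wt l₁) * (Cp S b [((v 0 : Sd r 1) : MvPolynomial (Fin r) ℂ),
            ((v 1 : Sd r 1) : MvPolynomial (Fin r) ℂ),
            ((v 2 : Sd r 1) : MvPolynomial (Fin r) ℂ)] R
          * ((-1) ^ (({n} : Finset ℕ).card * wt l₃) * (c1 S (b n) (x : MvPolynomial (Fin r) ℂ)
            (Z n : MvPolynomial (Fin r) ℂ) * Pr S b rest))) := by
    intro v x
    rw [List.map_append, List.map_cons, List.map_append, List.map_cons, Pr_move,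
      FO_row2 T (update X n x) Z v q hqR hR2, FGar_wt_map, wt_thT, ← List.map_append,
      ← List.map_append, h34, List.map_append, List.map_cons, List.map_append, List.map_cons,
      Pr_move, FO_row1 (update T R v) X Z x q' hq'n, FGar_wt_map, wt_thT, ← List.map_append,
      ← List.map_append, hrestc v x]
    simp only [Cp_single]
  have hFT : ∀ (v : Fin 3 → Sd r 1) (x : Sd r 1),
      FT S Φ (l₁ ++ q :: l₂) κ (update T R v) a (update X n x) Z
        = Φ (((-1) ^ (R.card * wt l₁) * (Cp S b [((v 0 : Sd r 1) : MvPolynomial (Fin r) ℂ),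
            ((v 1 : Sd r 1) : MvPolynomial (Fin r) ℂ),
            ((v 2 : Sd r 1) : MvPolynomial (Fin r) ℂ)] R
          * ((-1) ^ (({n} : Finset ℕ).card * wt l₃) * (c1 S (b n) (x : MvPolynomial (Fin r) ℂ)
            (Z n : MvPolynomial (Fin r) ℂ) * Pr S b rest)))) (κ a)) := by
    intro v x
    unfold FT FF
    rw [← hPr v x]
  obtain ⟨i, j, hij, hRij⟩ := Finset.card_eq_two.1 hR2
  have hni : n ≠ i := by
    rintro rfl
    exact hnR (by rw [hRij]; simp)
  have hnj : n ≠ j := by
    rintro rfl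
    exact hnR (by rw [hRij]; simp)
  have htt := Cp_tt S b hij hni hnj (w' : MvPolynomial (Fin r) ℂ) (Z n : MvPolynomial (Fin r) ℂ)
    (v 0 : MvPolynomial (Fin r) ℂ) (v 1 : MvPolynomial (Fin r) ℂ) (v 2 : MvPolynomial (Fin r) ℂ)
  rw [← hRij] at htt
  rw [Fin.sum_univ_three, hFT, hFT, hFT, hFT]
  have u01 : update v 0 w' 0 = w' := update_self _ _ _
  have u02 : update v 0 w' 1 = v 1 := update_of_ne (by decide) _ _
  have u03 : update v 0 w' 2 = v 2 := update_of_ne (by decide) _ _
  have u11 : update v 1 w' 0 = v 0 := update_of_ne (by decide) _ _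
  have u12 : update v 1 w' 1 = w' := update_self _ _ _
  have u13 : update v 1 w' 2 = v 2 := update_of_ne (by decide) _ _
  have u21 : update v 2 w' 0 = v 0 := update_of_ne (by decide) _ _
  have u22 : update v 2 w' 1 = v 1 := update_of_ne (by decide) _ _
  have u23 : update v 2 w' 2 = w' := update_self _ _ _
  rw [u01, u02, u03, u11, u12, u13, u21, u22, u23]
  refine FO_phi Φ _ _ _ _ _ ?_
  rw [FO_alg _ _ _ _ _ _ _ _ _ _ _ _ htt]
  have hmem : (S.m (Z n : MvPolynomial (Fin r) ℂ) * Cp S b [(w' : MvPolynomial (Fin r) ℂ),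
      (v 0 : MvPolynomial (Fin r) ℂ), (v 1 : MvPolynomial (Fin r) ℂ),
      (v 2 : MvPolynomial (Fin r) ℂ)] {i, j, n} * Pr S b rest) (κ a) ∈ LinearMap.range S.del := by
    rw [hκ a]
    have hkey : S.m (Z n : MvPolynomial (Fin r) ℂ) * Cp S b [(w' : MvPolynomial (Fin r) ℂ),
        (v 0 : MvPolynomial (Fin r) ℂ), (v 1 : MvPolynomial (Fin r) ℂ),
        (v 2 : MvPolynomial (Fin r) ℂ)] {i, j, n} * Pr S b rest * S.m (g a)
        = Pr S b ((({i, j, n} : Finset ℕ), [(w' : MvPolynomial (Fin r) ℂ),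
          (v 0 : MvPolynomial (Fin r) ℂ), (v 1 : MvPolynomial (Fin r) ℂ),
          (v 2 : MvPolynomial (Fin r) ℂ)]) :: rest)
          * S.m ((Z n : MvPolynomial (Fin r) ℂ) * g a) := by
      rw [Pr_cons, map_mul, m_Cp, mul_assoc _ (S.m (Z n : MvPolynomial (Fin r) ℂ)) (Pr S _ _),
        m_Pr]
      simp only [mul_assoc]
    have h1 := congrArg (fun A : Module.End ℂ E => A κ₀) hkey
    simp only [Module.End.mul_apply] at h1
    simp only [Module.End.mul_apply]
    rw [h1]
    have hcfg2 : Cfg (((q :: q' :: (l₃ ++ l₄)).map (thT T)).map (rw' X Z)) :=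
      FGar_cfg_map (Cfg_thT hcfg1 T) X Z
    rw [List.map_cons, List.map_cons, List.map_cons, List.map_cons, ← hrest] at hcfg2
    have hd3 := List.pairwise_cons.1 hcfg2.disj
    have hd4 := List.pairwise_cons.1 hd3.2
    refine hC _ a _ ?_ ?_ ?_ ?_
    · have h2 := hperm.length_eq
      rw [hlen] at h2
      rw [hrest]
      simp only [List.length_cons, List.length_map] at h2 ⊢
      omega
    · refine ⟨?_, ?_, ?_, ?_⟩
      · intro p hp
        rcases List.mem_cons.1 hp with rfl | hp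
        · exact Finset.insert_nonempty _ _
        · exact hcfg2.ne p (List.mem_cons_of_mem _ (List.mem_cons_of_mem _ hp))
      · intro p hp
        rcases List.mem_cons.1 hp with rfl | hp
        · have h3 : ({i, j, n} : Finset ℕ).card = 3 :=
            Finset.card_eq_three.2 ⟨i, j, n, hij, hni.symm, hnj.symm, rfl⟩
          simp only [List.length_cons, List.length_nil]
          rw [h3]
        · exact hcfg2.len p (List.mem_cons_of_mem _ (List.mem_cons_of_mem _ hp))
      · intro p hp x hx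
        rcases List.mem_cons.1 hp with rfl | hp
        · simp only [List.mem_cons, List.not_mem_nil, or_false] at hx
          rcases hx with rfl | rfl | rfl | rfl
          · exact FO_hom _
          · exact FO_hom _
          · exact FO_hom _
          · exact FO_hom _
        · exact hcfg2.hom p (List.mem_cons_of_mem _ (List.mem_cons_of_mem _ hp)) x hx
      · refine List.pairwise_cons.2 ⟨?_, hd4.2⟩
        intro p hp
        have h3 := hd3.1 p (List.mem_cons_of_mem _ hp)
        have h4 := hd4.1 p hp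
        rw [rw'_fst, thT_fst, hqR, hRij] at h3
        rw [rw'_fst, thT_fst, hq'n] at h4
        rw [Finset.disjoint_left] at h3 h4 ⊢
        intro x hx
        simp only [Finset.mem_insert, Finset.mem_singleton] at hx
        rcases hx with rfl | rfl | rfl
        · exact h3 (by simp)
        · exact h3 (by simp)
        · exact h4 (by simp)
    · have h3 : ({i, j, n} : Finset ℕ).card = 3 :=
        Finset.card_eq_three.2 ⟨i, j, n, hij, hni.symm, hnj.symm, rfl⟩
      have h5 : wt (l₁ ++ l₂) = wt (l₃ ++ q' :: l₄) := by rw [h34]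
      rw [wt_append, wt_append, wt_cons, hq'n, Finset.card_singleton] at h5
      rw [wt_append, wt_cons, hqR, hR2] at hwt
      rw [wt_cons, hrest, FGar_wt_map, wt_thT, wt_append]
      simp only
      rw [h3]
      omega
    · have h := (FO_hom (Z n)).mul (hg a)
      have h2 : 1 + (K - (s + 1)) = K - s := by omega
      rwa [h2] at h
  obtain ⟨x1, hx1⟩ := FO_mem S (R.card * wt l₁) _ (FO_mem S (({n} : Finset ℕ).card * wt l₃) _
    (FO_mem S 1 _ hmem))
  rw [← hx1, hΦ]

end Pool.Agent.H20.S2
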