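import Pool.Agent.H20.S2.HLT

/-!
# Job S2-11 : the hitting lemma with native trivectors

`HLN`: `F T a X Z` with trivectors `T j : Fin 3 → U`, `j ∈ Th`; for all values of `T` the hypotheses
`HLH` hold; the slots of `N` are good with all trivectors; the letters of the bivectors are good
with all trivectors; a row is contained in `N` or disjoint from `N`.

PROOF of `HLB`.  Induction on `n = |Th|`.
`n = 0`: the first alternative is impossible (`card_image_le`), so `HLT` for `F T`.
`n + 1`: let `j ∈ Th` and `F₃ v = F (update T j v)`, `v : Fin 3 → U`.
CLAIM: every `y ∈ Act` is `GoodV P (fun v => F (update T j v)) y` (for every `T`).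
* `y ∈ N`: `goodN`.  `y` single in `Act`: `good_singleV` (`t ∈ N` is good).
* otherwise (`y ∉ N`, `y ≠ t`, not single): `DfV P (fun v => F (update T j v)) y b v' a X Z = 0` by the
  induction hypothesis applied to
  `F' T a X Z = DfV P (fun v => F (update T j v)) y b v' a X Z` with `Act.erase y`, `Th.erase j`
  (`HLN_DfV`); `image row` is unchanged, `(Act.erase y) \ N = (Act \ N).erase y` has the same
  `image row` (the other slot of the row of `y` is not in `N` either), single slots remain single;
  both alternatives of the numerical hypothesis are inherited.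
Then `F T a X Z = 0`: fix `l ∈ Om`, `X`, `Z`, `T`; apply `RL_slots_xz` with `C = Fin 3` to
`G x z v a = F (update T j v) a (update X l x) (update Z l z)`: `hx`, `hz` from `mulX`, `alt`; `hv` from
`mulT`; `ha` from `mulA`; `hgood` is the claim; `hgx` is `omX`, `hgz` follows from `omX` and `alt`;
`hbase`: `P2_apply` for `HLH` of `F (update T j v)` (`sub3_pr`, `sub3_X`).
Evaluate at `v = T j`, `x = X l`, `z = Z l`.

PROOF of `HLN_DfV`: `HLH_DfV` for the HLH part (`t` is good by `goodN` and `tN`);
`mulT`: for `j' ≠ j`, the updates at `j` and `j'` commute (`update_comm`), sum of `MulAt`s;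
`goodN` for `j' ≠ j`, `i ∈ N`, `i ∈ Act.erase y`: `update`s at slots `i ≠ y` commute, linear combination
of `goodN` for `F`; `omX`: linear combination of `omX` for `F`.
-/

open MvPolynomial Function

namespace Pool.Agent.H20.S2

open Pool.Agent.H39.OP Pool.Agent.H27.OP

/-- hypotheses of the hitting lemma with trivectors -/
structure HLN {U A A' : Type*} [AddCommGroup U] [Module ℂ U] [AddCommGroup A] [Module ℂ A]
    [AddCommGroup A'] [Module ℂ A'] {D : ℕ} (P : PD U A A' D)
    {I Ω ρ Θ : Type*} [DecidableEq I] [DecidableEq Ω] [DecidableEq ρ] [DecidableEq Θ]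
    (row : I → ρ) (t : I) (Act : Finset I) (Om : Finset Ω) (Th : Finset Θ) (N : Finset I)
    (F : (Θ → Fin 3 → U) → (I → A) → (Ω → U) → (Ω → U) → ℂ) : Prop where
  hl : ∀ T, HLH P row t Act Om (F T)
  mulT : ∀ j ∈ Th, ∀ T a X Z,
    MulAt (Finset.univ : Finset (Fin 3)) (fun v => F (update T j v) a X Z)
  tN : t ∈ N
  hN : ∀ i ∈ Act, ∀ i' ∈ Act, row i = row i' → i ∈ N → i' ∈ N
  goodN : ∀ j ∈ Th, ∀ T, ∀ i ∈ Act, i ∈ N → GoodV P (fun v => F (update T j v)) i
  omX : ∀ j ∈ Th, ∀ l ∈ Om, ∀ T a X Z (v : Fin 3 → U) (w : U),
    F (update T j v) a (update X l w) Z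
      = ∑ c, F (update T j (update v c w)) a (update X l (v c)) Z

variable {U A A' : Type*} [AddCommGroup U] [Module ℂ U] [AddCommGroup A] [Module ℂ A]
    [AddCommGroup A'] [Module ℂ A'] {D : ℕ} {P : PD U A A' D}
    {I Ω ρ Θ : Type*} [DecidableEq I] [DecidableEq Ω] [DecidableEq ρ] [DecidableEq Θ]

theorem HLN_DfV {row : I → ρ} {t : I} {Act : Finset I} {Om : Finset Ω} {Th : Finset Θ}
    {N : Finset I} {F : (Θ → Fin 3 → U) → (I → A) → (Ω → U) → (Ω → U) → ℂ}
    (h : HLN P row t Act Om Th N F) {j : Θ} (hj : j ∈ Th) {y : I} (hy : y ∈ Act) (hyN : y ∉ N)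
    (b : A') (v' : Option (Fin 3) → U) :
    HLN P row t (Act.erase y) Om (Th.erase j) N
      (fun T => DfV P (fun v => F (update T j v)) y b v') := by
  have hyt : y ≠ t := by
    rintro rfl
    exact hyN h.tN
  have hadd : ∀ j' ∈ Th.erase j, ∀ (T : Θ → Fin 3 → U) (a : I → A) (X Z : Ω → U) (w : Fin 3 → U),
      MulAt (Finset.univ : Finset (Fin 3)) (fun v => F (update (update T j' v) j w) a X Z) := by
    intro j' hj' T a X Z w
    have hne : j' ≠ j := Finset.ne_of_mem_erase hj'
    have h1 := h.mulT j' (Finset.mem_of_mem_erase hj') (update T j w) a X Z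
    have h2 : (fun v => F (update (update T j' v) j w) a X Z) =
        (fun v => F (update (update T j w) j' v) a X Z) := by
      funext v
      rw [update_comm hne]
    rw [h2]
    exact h1
  refine ⟨?_, ?_, h.tN, ?_, ?_, ?_⟩
  · intro T
    exact HLH_DfV (fun v => h.hl (update T j v)) (h.goodN j hj T t (h.hl T).tAct h.tN) hy hyt b v'
  · intro j' hj' T a X Z
    constructor
    · intro m hm q u v
      simp only [DfV]
      have h1 := (hadd j' hj' T (update a y (P.mu b (v' none))) X Z
        (fun c => v' (some c))).add m hm q u v
      have h2 : ∀ c : Fin 3, _ := fun c => (hadd j' hj' T (update a y (P.mu b (v' (some c)))) X Z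
        (update (fun c => v' (some c)) c (v' none))).add m hm q u v
      rw [h1, Finset.sum_congr rfl fun c _ => h2 c, Finset.sum_add_distrib]
      ring
    · intro m hm q c u
      simp only [DfV]
      have h1 := (hadd j' hj' T (update a y (P.mu b (v' none))) X Z
        (fun c => v' (some c))).smul m hm q c u
      have h2 : ∀ c' : Fin 3, _ := fun c' =>
        (hadd j' hj' T (update a y (P.mu b (v' (some c')))) X Z
        (update (fun c => v' (some c)) c' (v' none))).smul m hm q c u
      rw [h1, Finset.sum_congr rfl fun c' _ => h2 c', ← Finset.mul_sum]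
      ring
  · intro i hi i' hi' hr hiN
    exact h.hN i (Finset.mem_of_mem_erase hi) i' (Finset.mem_of_mem_erase hi') hr hiN
  · intro j' hj' T i hi hiN v a X Z a' w
    have hne : j' ≠ j := Finset.ne_of_mem_erase hj'
    have hiy : i ≠ y := Finset.ne_of_mem_erase hi
    have hg : ∀ (u₀ : Fin 3 → U) (p : A),
        F (update (update T j' v) j u₀) (update (update a i (P.mu a' w)) y p) X Z =
          ∑ c, F (update (update T j' (update v c w)) j u₀)
            (update (update a i (P.mu a' (v c))) y p) X Z := by
      intro u₀ p
      have h1 := h.goodN j' (Finset.mem_of_mem_erase hj') (update T j u₀) i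
        (Finset.mem_of_mem_erase hi) hiN v (update a y p) X Z a' w
      rw [update_comm hne, update_comm hiy]
      refine h1.trans (Finset.sum_congr rfl fun c _ => ?_)
      rw [update_comm hne, update_comm hiy]
    simp only [DfV]
    rw [hg, Finset.sum_congr rfl fun c _ => hg _ _, Finset.sum_comm, ← Finset.sum_sub_distrib]
  · intro j' hj' l hl T a X Z v w
    have hne : j' ≠ j := Finset.ne_of_mem_erase hj'
    have hg : ∀ (u₀ : Fin 3 → U) (p : A),
        F (update (update T j' v) j u₀) (update a y p) (update X l w) Z =
          ∑ c, F (update (update T j' (update v c w)) j u₀) (update a y p)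
            (update X l (v c)) Z := by
      intro u₀ p
      have h1 := h.omX j' (Finset.mem_of_mem_erase hj') l hl (update T j u₀) (update a y p) X Z v w
      rw [update_comm hne]
      refine h1.trans (Finset.sum_congr rfl fun c _ => ?_)
      rw [update_comm hne]
    simp only [DfV]
    rw [hg, Finset.sum_congr rfl fun c _ => hg _ _, Finset.sum_comm, ← Finset.sum_sub_distrib]

theorem HLB {r e : ℕ} {row : I → ρ} {t : I} {Om : Finset Ω} {N : Finset I} :
    ∀ (n : ℕ) (Act : Finset I) (Th : Finset Θ)
    (F : (Θ → Fin 3 → Sd r 1) → (I → Sd r (e + 1)) → (Ω → Sd r 1) → (Ω → Sd r 1) → ℂ),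
    Th.card = n → HLN (polyPD r e) row t Act Om Th N F → Om.Nonempty →
    e + 3 ≤ (Act.image row).card →
    3 ≤ (Act.filter (fun i => ∀ j ∈ Act, row j = row i → j = i)).card →
    ((Act \ N).card + 1 ≤ ((Act \ N).image row).card + n ∨
      Act.card + 1 ≤ 2 * Om.card + (Act.image row).card + n) →
    ∀ T a X Z, F T a X Z = 0 := by
  intro n
  induction n with
  | zero =>
    intro Act Th F _ h _ hrows hs hnum T a X Z
    rcases hnum with h1 | h1
    · have h2 : ((Act \ N).image row).card ≤ (Act \ N).card := Finset.card_image_le
      omega
    · exact HLT _ Act Om (F T) rfl (h.hl T) hrows hs (by omega) a X Z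
  | succ n ih =>
    intro Act Th F hTh h hOm hrows hs hnum T a X Z
    obtain ⟨j, hj⟩ : Th.Nonempty := by
      rw [← Finset.card_pos]
      omega
    have claim : ∀ (T : Θ → Fin 3 → Sd r 1), ∀ y ∈ Act,
        GoodV (polyPD r e) (fun v => F (update T j v)) y := by
      intro T y hy
      by_cases hyN : y ∈ N
      · exact h.goodN j hj T y hy hyN
      have hyt : y ≠ t := by
        rintro rfl
        exact hyN h.tN
      by_cases hrow : ∀ i ∈ Act, row i = row y → i = y
      · exact good_singleV (fun v => h.hl (update T j v))
          (h.goodN j hj T t (h.hl T).tAct h.tN) hy hyt hrow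
      · push Not at hrow
        obtain ⟨i, hi, hir, hiy⟩ := hrow
        apply DfV_eq_zero
        intro b v' a X Z
        have himg : (Act.erase y).image row = Act.image row := by
          ext q
          simp only [Finset.mem_image, Finset.mem_erase]
          constructor
          · rintro ⟨k, ⟨_, hk⟩, rfl⟩
            exact ⟨k, hk, rfl⟩
          · rintro ⟨k, hk, rfl⟩
            by_cases hky : k = y
            · subst hky
              exact ⟨i, ⟨hiy, hi⟩, hir⟩
            · exact ⟨k, ⟨hky, hk⟩, rfl⟩
        have hiN : i ∉ N := fun hiN => hyN (h.hN i hi y hy hir hiN)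
        have hsd : (Act.erase y) \ N = (Act \ N).erase y := by
          ext k
          simp only [Finset.mem_sdiff, Finset.mem_erase]
          tauto
        have himg2 : ((Act \ N).erase y).image row = (Act \ N).image row := by
          ext q
          simp only [Finset.mem_image, Finset.mem_erase, Finset.mem_sdiff]
          constructor
          · rintro ⟨k, ⟨_, hk⟩, rfl⟩
            exact ⟨k, hk, rfl⟩
          · rintro ⟨k, hk, rfl⟩
            by_cases hky : k = y
            · subst hky
              exact ⟨i, ⟨hiy, hi, hiN⟩, hir⟩
            · exact ⟨k, ⟨hky, hk⟩, rfl⟩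
        have hyAN : y ∈ Act \ N := Finset.mem_sdiff.2 ⟨hy, hyN⟩
        have hc1 := Finset.card_erase_of_mem hyAN
        have hc2 := Finset.card_erase_of_mem hy
        have hp1 : 0 < (Act \ N).card := Finset.card_pos.2 ⟨y, hyAN⟩
        have hp2 : 0 < Act.card := Finset.card_pos.2 ⟨y, hy⟩
        refine ih (Act.erase y) (Th.erase j)
          (fun T => DfV (polyPD r e) (fun v => F (update T j v)) y b v')
          (by rw [Finset.card_erase_of_mem hj, hTh]; rfl) (HLN_DfV h hj hy hyN b v') hOm
          (by rw [himg]; exact hrows) ?_ ?_ T a X Z
        · refine hs.trans (Finset.card_le_card ?_)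
          intro k hk
          rw [Finset.mem_filter] at hk ⊢
          have hky : k ≠ y := by
            rintro rfl
            exact hiy (hk.2 i hi hir)
          exact ⟨Finset.mem_erase.2 ⟨hky, hk.1⟩,
            fun m hm hmr => hk.2 m (Finset.mem_of_mem_erase hm) hmr⟩
        · rw [hsd, himg2, himg, hc1, hc2]
          rcases hnum with h1 | h1
          · left
            omega
          · right
            omega
    obtain ⟨l, hl⟩ := hOm
    have halt : ∀ (T : Θ → Fin 3 → Sd r 1) (a : I → Sd r (e + 1)) (x z : Sd r 1),
        F T a (update X l x) (update Z l z) = - F T a (update X l z) (update Z l x) := by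
      intro T a x z
      have h1 := (h.hl T).alt l hl a (update X l z) (update Z l x)
      rw [update_idem, update_idem, update_self, update_self] at h1
      exact h1
    have key := RL_slots_xz (C := Fin 3) Act
      (fun x z v a => F (update T j v) a (update X l x) (update Z l z))
      (by
        intro z v a
        exact ⟨fun x x' => ((h.hl (update T j v)).mulX a (update Z l z)).add l hl X x x',
          fun c x => ((h.hl (update T j v)).mulX a (update Z l z)).smul l hl X c x⟩)
      (by
        intro x v a
        constructor
        · intro z z'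
          show F (update T j v) a (update X l x) (update Z l (z + z')) =
            F (update T j v) a (update X l x) (update Z l z) +
              F (update T j v) a (update X l x) (update Z l z')
          rw [halt _ a x (z + z'), halt _ a x z, halt _ a x z',
            ((h.hl (update T j v)).mulX a (update Z l x)).add l hl X z z']
          ring
        · intro c z
          show F (update T j v) a (update X l x) (update Z l (c • z)) =
            c * F (update T j v) a (update X l x) (update Z l z)
          rw [halt _ a x (c • z), halt _ a x z,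
            ((h.hl (update T j v)).mulX a (update Z l x)).smul l hl X c z]
          ring)
      (by
        intro x z a
        exact h.mulT j hj T a _ _)
      (by
        intro x z v
        exact (h.hl (update T j v)).mulA _ _)
      (by
        intro i hi x z v a a' w
        have h1 := claim T i hi v a (update X l x) (update Z l z) a' w
        rw [polyPD_mu] at h1
        exact h1)
      (by
        intro z v a w
        exact h.omX j hj l hl T a X (update Z l z) v w)
      (by
        intro x v a w
        show F (update T j v) a (update X l x) (update Z l w) =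
          ∑ c, F (update T j (update v c w)) a (update X l x) (update Z l (v c))
        rw [halt _ a x w, h.omX j hj l hl T a X (update Z l x) v w, ← Finset.sum_neg_distrib]
        refine Finset.sum_congr rfl fun c _ => ?_
        rw [halt _ a x (v c)])
      (by
        intro x z v a hx hz ha
        obtain ⟨c, rfl⟩ := hx
        obtain ⟨c', rfl⟩ := hz
        refine P2_apply (h.hl (update T j v)) hl hrows hs v a _ _ ?_ ?_ ?_
        · intro i hi
          obtain ⟨k, hk⟩ := ha i hi
          exact sub3_pr v k (a i) hk
        · rw [update_self]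
          exact sub3_X v c
        · rw [update_self]
          exact sub3_X v c')
    have h1 := key (X l) (Z l) (T j) a
    simp only [update_eq_self] at h1
    exact h1

end Pool.Agent.H20.S2
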