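import Pool.Agent.H20.S2.Alg
import Pool.Agent.H20.S2.HLB
import Pool.Agent.H39.OP.Main

/-!
# Job S2-13 : the functions with trivectors of the rows of length two

`thT T q` replaces the linear forms of a row `q` of length two by `T q.1 0, T q.1 1, T q.1 2`
(`T : Finset ℕ → Fin 3 → Sd r 1`).  `FT Φ l κ T a X Z = FF Φ (l.map (thT T)) κ a X Z`.

* `Cfg_thT`, `wt_thT`, `sing_thT`, `slots_thT`: easy inductions / list maps (first components are
  unchanged).
* `FT_mulT`: `R ∈ l.map fst`, `R.card = 2`: split `l = l₁ ++ q :: l₂` with `q.1 = R`; the rows of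
  `l₁`, `l₂` are different from `R` (pairwise disjoint and nonempty), so
  `(update T R v) q'.1 = T q'.1` for them; the middle factor is
  `Cp S y [v 0, v 1, v 2] R` (`rw'` does nothing on rows of length `2`); `Cp_add3`, `Cp_smul3`.
* `FT_own`: a slot `i ∈ R`, `R.card = 2`, is good with `T R`: write `R = {i, j}`; middle factor and
  `Cp_own2` (`κ` does not depend on slot `i`: `hκ`).
* `FT_split` (used for both): for a row `q` of `l` and every slot function, the value is
  `Φ (A (Cp S y _ q.1 (B (κ a))))`, with `A`, `B` products of the other rows.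
-/

open MvPolynomial Function

namespace Pool.Agent.H20.S2

open Pool.Agent.H39.OP Pool.Agent.H27.OP

variable {r e : ℕ} {E : Type*} [AddCommGroup E] [Module ℂ E]
  (S : Fk (Fin r) ℂ (Module.End ℂ E) (e + 2)) (Φ : E →ₗ[ℂ] ℂ)

/-- replace the linear forms of a row of length two -/
noncomputable def thT (T : Finset ℕ → Fin 3 → Sd r 1)
    (q : Finset ℕ × List (MvPolynomial (Fin r) ℂ)) :
    Finset ℕ × List (MvPolynomial (Fin r) ℂ) :=
  if q.1.card = 2 then
    (q.1, [((T q.1 0 : Sd r 1) : MvPolynomial (Fin r) ℂ),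
      ((T q.1 1 : Sd r 1) : MvPolynomial (Fin r) ℂ),
      ((T q.1 2 : Sd r 1) : MvPolynomial (Fin r) ℂ)])
  else q

lemma thT_fst (T : Finset ℕ → Fin 3 → Sd r 1)
    (q : Finset ℕ × List (MvPolynomial (Fin r) ℂ)) : (thT T q).1 = q.1 := by
  unfold thT; split_ifs <;> rfl

/-- the functions of slots, bivectors and trivectors -/
noncomputable def FT (l : List (Finset ℕ × List (MvPolynomial (Fin r) ℂ)))
    (κ : (ℕ → Sd r (e + 1)) → E) (T : Finset ℕ → Fin 3 → Sd r 1) :
    (ℕ → Sd r (e + 1)) → (ℕ → Sd r 1) → (ℕ → Sd r 1) → ℂ :=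
  FF S Φ (l.map (thT T)) κ

theorem Cfg_thT {l : List (Finset ℕ × List (MvPolynomial (Fin r) ℂ))} (h : Cfg l)
    (T : Finset ℕ → Fin 3 → Sd r 1) : Cfg (l.map (thT T)) where
  ne q hq := by
    obtain ⟨q', hq', rfl⟩ := List.mem_map.mp hq
    rw [thT_fst]; exact h.ne q' hq'
  len q hq := by
    obtain ⟨q', hq', rfl⟩ := List.mem_map.mp hq
    rw [thT_fst]
    unfold thT
    split_ifs with hc
    · rw [hc]; rfl
    · exact h.len q' hq'
  hom q hq u hu := by
    obtain ⟨q', hq', rfl⟩ := List.mem_map.mp hq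
    unfold thT at hu
    split_ifs at hu with hc
    · simp only [List.mem_cons, List.not_mem_nil, or_false] at hu
      rcases hu with rfl | rfl | rfl <;> exact (mem_homogeneousSubmodule _ _).mp (T q'.1 _).2
    · exact h.hom q' hq' u hu
  disj := by
    rw [List.pairwise_map]
    refine h.disj.imp ?_
    intro q q' hqq
    rw [thT_fst, thT_fst]; exact hqq

theorem wt_thT (l : List (Finset ℕ × List (MvPolynomial (Fin r) ℂ)))
    (T : Finset ℕ → Fin 3 → Sd r 1) : wt (l.map (thT T)) = wt l := by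
  induction l with
  | nil => rfl
  | cons q l ih => rw [List.map_cons, wt_cons, wt_cons, ih, thT_fst]

theorem sing_thT (l : List (Finset ℕ × List (MvPolynomial (Fin r) ℂ)))
    (T : Finset ℕ → Fin 3 → Sd r 1) : sing (l.map (thT T)) = sing l := by
  induction l with
  | nil => rfl
  | cons q l ih => rw [List.map_cons, sing_cons, sing_cons, ih, thT_fst]

theorem slots_thT (l : List (Finset ℕ × List (MvPolynomial (Fin r) ℂ)))
    (T : Finset ℕ → Fin 3 → Sd r 1) : slots (l.map (thT T)) = slots l := by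
  induction l with
  | nil => rfl
  | cons q l ih => rw [List.map_cons, slots, slots, ih, thT_fst]

private theorem FT_coe {r e : ℕ} (a : ℕ → Sd r (e + 1)) (i : ℕ) (u : Sd r (e + 1)) :
    (fun j => ((update a i u j : Sd r (e + 1)) : MvPolynomial (Fin r) ℂ))
      = update (fun j => (a j : MvPolynomial (Fin r) ℂ)) i (u : MvPolynomial (Fin r) ℂ) := by
  funext j
  by_cases h : j = i
  · subst h; rw [update_self, update_self]
  · rw [update_of_ne h, update_of_ne h]

private theorem FT_outer (l : List (Finset ℕ × List (MvPolynomial (Fin r) ℂ))) {R : Finset ℕ}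
    {i : ℕ} (hl : ∀ q ∈ l, q.1 ≠ R ∧ i ∉ q.1) (T : Finset ℕ → Fin 3 → Sd r 1)
    (a : ℕ → Sd r (e + 1)) (X Z : ℕ → Sd r 1) (v : Fin 3 → Sd r 1) (u : Sd r (e + 1)) :
    Pr S (fun j => ((update a i u j : Sd r (e + 1)) : MvPolynomial (Fin r) ℂ))
        ((l.map (thT (update T R v))).map (rw' X Z))
      = Pr S (fun j => (a j : MvPolynomial (Fin r) ℂ)) ((l.map (thT T)).map (rw' X Z)) := by
  have h1 : l.map (thT (update T R v)) = l.map (thT T) := by
    refine List.map_congr_left fun q hq => ?_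
    unfold thT
    rw [update_of_ne (hl q hq).1]
  rw [h1]
  refine Pr_congr S _ _ _ fun q hq j hj => ?_
  obtain ⟨q', hq', rfl⟩ := List.mem_map.mp hq
  obtain ⟨q'', hq'', rfl⟩ := List.mem_map.mp hq'
  rw [rw'_fst, thT_fst] at hj
  have hji : j ≠ i := fun h => (hl q'' hq'').2 (h ▸ hj)
  show ((update a i u j : Sd r (e + 1)) : MvPolynomial (Fin r) ℂ) = _
  rw [update_of_ne hji]

private theorem FT_gen {l : List (Finset ℕ × List (MvPolynomial (Fin r) ℂ))} (h : Cfg l)
    {R : Finset ℕ} (hR : R ∈ l.map Prod.fst) (hR2 : R.card = 2)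
    (T : Finset ℕ → Fin 3 → Sd r 1) (a : ℕ → Sd r (e + 1)) (X Z : ℕ → Sd r 1)
    {i : ℕ} (hi : i ∈ R) :
    ∃ (A B : Module.End ℂ E), ∀ (v : Fin 3 → Sd r 1) (u : Sd r (e + 1)),
      Pr S (fun j => ((update a i u j : Sd r (e + 1)) : MvPolynomial (Fin r) ℂ))
        ((l.map (thT (update T R v))).map (rw' X Z))
      = A * (Cp S (update (fun j => (a j : MvPolynomial (Fin r) ℂ)) i
          (u : MvPolynomial (Fin r) ℂ)) [((v 0 : Sd r 1) : MvPolynomial (Fin r) ℂ),
          ((v 1 : Sd r 1) : MvPolynomial (Fin r) ℂ),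
          ((v 2 : Sd r 1) : MvPolynomial (Fin r) ℂ)] R * B) := by
  obtain ⟨q, hq, hqR⟩ := List.mem_map.mp hR
  obtain ⟨l₁, l₂, rfl⟩ := List.append_of_mem hq
  have hd := h.disj
  rw [List.pairwise_append, List.pairwise_cons] at hd
  have key : ∀ q' : Finset ℕ × List (MvPolynomial (Fin r) ℂ), Disjoint q'.1 q.1 →
      q'.1 ≠ R ∧ i ∉ q'.1 := by
    intro q' hq'
    refine ⟨?_, fun h' => Finset.disjoint_left.mp hq' h' (by rw [hqR]; exact hi)⟩
    intro h'
    exact Finset.disjoint_left.mp hq' (by rw [h']; exact hi) (by rw [hqR]; exact hi)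
  have h1 : ∀ q' ∈ l₁, q'.1 ≠ R ∧ i ∉ q'.1 := fun q' hq' =>
    key q' (hd.2.2 q' hq' q List.mem_cons_self)
  have h2 : ∀ q' ∈ l₂, q'.1 ≠ R ∧ i ∉ q'.1 := fun q' hq' =>
    key q' (hd.2.1.1 q' hq').symm
  refine ⟨Pr S (fun j => (a j : MvPolynomial (Fin r) ℂ)) ((l₁.map (thT T)).map (rw' X Z)),
    Pr S (fun j => (a j : MvPolynomial (Fin r) ℂ)) ((l₂.map (thT T)).map (rw' X Z)),
    fun v u => ?_⟩
  have hr : rw' X Z (thT (update T R v) q) = (R, [((v 0 : Sd r 1) : MvPolynomial (Fin r) ℂ),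
      ((v 1 : Sd r 1) : MvPolynomial (Fin r) ℂ), ((v 2 : Sd r 1) : MvPolynomial (Fin r) ℂ)]) := by
    unfold thT
    rw [hqR, if_pos hR2, update_self]
    unfold rw'
    rw [if_neg]
    show ¬ R.card = 1
    omega
  rw [List.map_append, List.map_cons, List.map_append, List.map_cons, Pr_append, Pr_cons,
    FT_outer S l₁ h1 T a X Z v u, FT_outer S l₂ h2 T a X Z v u, hr, FT_coe]

private theorem FT_phi_add (Φ : E →ₗ[ℂ] ℂ)
    (A B c c' : Module.End ℂ E) (v : E) :
    Φ ((A * ((c + c') * B)) v) = Φ ((A * (c * B)) v) + Φ ((A * (c' * B)) v) := by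
  simp only [Module.End.mul_apply, LinearMap.add_apply, map_add]

private theorem FT_phi_smul (Φ : E →ₗ[ℂ] ℂ)
    (A B c : Module.End ℂ E) (t : ℂ) (v : E) :
    Φ ((A * ((t • c) * B)) v) = t * Φ ((A * (c * B)) v) := by
  simp only [Module.End.mul_apply, LinearMap.smul_apply, map_smul, smul_eq_mul]

private theorem FT_upd (v : Fin 3 → Sd r 1) (c : Fin 3) (u : Sd r 1) (k : Fin 3) :
    ((update v c u k : Sd r 1) : MvPolynomial (Fin r) ℂ)
      = update (fun k => ((v k : Sd r 1) : MvPolynomial (Fin r) ℂ)) c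
        (u : MvPolynomial (Fin r) ℂ) k := by
  by_cases h : k = c
  · subst h; rw [update_self, update_self]
  · rw [update_of_ne h, update_of_ne h]

theorem FT_mulT {l : List (Finset ℕ × List (MvPolynomial (Fin r) ℂ))} (h : Cfg l)
    (κ : (ℕ → Sd r (e + 1)) → E) {R : Finset ℕ} (hR : R ∈ l.map Prod.fst) (hR2 : R.card = 2)
    (T : Finset ℕ → Fin 3 → Sd r 1) (a : ℕ → Sd r (e + 1)) (X Z : ℕ → Sd r 1) :
    MulAt (Finset.univ : Finset (Fin 3)) (fun v => FT S Φ l κ (update T R v) a X Z) := by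
  obtain ⟨i, hi⟩ := Finset.card_pos.mp (show 0 < R.card by omega)
  obtain ⟨A, B, hAB⟩ := FT_gen S h hR hR2 T a X Z hi
  have hA : ∀ v : Fin 3 → Sd r 1,
      Pr S (fun j => (a j : MvPolynomial (Fin r) ℂ)) ((l.map (thT (update T R v))).map (rw' X Z))
      = A * (Cp S (fun j => (a j : MvPolynomial (Fin r) ℂ))
          [((v 0 : Sd r 1) : MvPolynomial (Fin r) ℂ), ((v 1 : Sd r 1) : MvPolynomial (Fin r) ℂ),
          ((v 2 : Sd r 1) : MvPolynomial (Fin r) ℂ)] R * B) := by
    intro v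
    have h1 := hAB v (a i)
    rw [update_eq_self] at h1
    have h2 : update (fun j => (a j : MvPolynomial (Fin r) ℂ)) i (a i : MvPolynomial (Fin r) ℂ)
        = (fun j => (a j : MvPolynomial (Fin r) ℂ)) := update_eq_self i _
    rw [h2] at h1
    exact h1
  refine ⟨fun c _ v u u' => ?_, fun c _ v t u => ?_⟩
  · unfold FT FF
    rw [hA, hA, hA, ← FT_phi_add]
    congr 4
    simp only [FT_upd, Submodule.coe_add]
    exact Cp_add3 S _ R _ c _ _
  · unfold FT FF
    rw [hA, hA, ← FT_phi_smul]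
    congr 4
    simp only [FT_upd, Submodule.coe_smul]
    exact Cp_smul3 S _ R _ c _ _

theorem FT_own {l : List (Finset ℕ × List (MvPolynomial (Fin r) ℂ))} (h : Cfg l)
    (κ : (ℕ → Sd r (e + 1)) → E) (hκ : ∀ i ∈ slots l, ∀ a u, κ (update a i u) = κ a)
    {R : Finset ℕ} (hR : R ∈ l.map Prod.fst) (hR2 : R.card = 2)
    (T : Finset ℕ → Fin 3 → Sd r 1) {i : ℕ} (hi : i ∈ R) :
    GoodV (polyPD r e) (fun v => FT S Φ l κ (update T R v)) i := by
  intro v a X Z b w
  obtain ⟨A, B, hAB⟩ := FT_gen S h hR hR2 T a X Z hi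
  have hil : i ∈ slots l := by
    obtain ⟨q, hq, hqR⟩ := List.mem_map.mp hR
    exact mem_slots.mpr ⟨q, hq, by rw [hqR]; exact hi⟩
  obtain ⟨j, hij, hRij⟩ : ∃ j, i ≠ j ∧ R = {i, j} := by
    obtain ⟨x, y, hxy, hR'⟩ := Finset.card_eq_two.mp hR2
    rw [hR', Finset.mem_insert, Finset.mem_singleton] at hi
    rcases hi with rfl | rfl
    · exact ⟨y, hxy, hR'⟩
    · exact ⟨x, hxy.symm, by rw [hR', Finset.pair_comm]⟩
  beta_reduce
  unfold FT FF
  rw [hAB, hκ i hil, Fin.sum_univ_three, hAB, hAB, hAB, hκ i hil, hκ i hil, hκ i hil,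
    ← FT_phi_add, ← FT_phi_add, polyPD_mu, hRij]
  simp only [FT_upd, muP_coe]
  rw [Cp_own2 S _ hij]
  simp [update]

end Pool.Agent.H20.S2
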