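import Pool.Agent.H20.S2.FT

/-!
# Job S2-14 : exchange between two rows of length two, modulo configurations with more single rows

`ClaimS S κ₀ w K s m`: the claim for configurations with `s` rows, at least `m` of them of length
one.

PROOF of `FT_gar2`.  Let `q, q'` be the rows with `q.1 = R`, `q'.1 = R'`, `R' = {i, n}`, `n ≠ i`;
`l` is a permutation of `q :: q' :: rest` (move both rows to the front: `Pr_move` twice; the sign
`ε` depends only on cardinalities, so it is the same for all slot functions).  For every slot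
function `b` (polynomials) the product is
`ε • (Cp S b T_R R * Cp S b [v0, v1, v2] R' * Pr S b rest')` where `T_R = [T R 0, T R 1, T R 2]`,
`[v0, v1, v2] = [T R' 0, T R' 1, T R' 2]` (`thT`, then `rw'` does nothing on these two rows) and
`rest' = (rest.map (thT T)).map (rw' X Z)`.
For `y ∈ R` and the slot function `b ∘ swap i y` (`i ∉ R`, `y ∉ R'`; the rows of `rest` contain
neither): `Cp S (b ∘ swap i y) T_R R = Cp S b T_R ((insert i R).erase y)`,
`Cp S (b ∘ swap i y) _ R' = Cp S b _ {y, n}` (`Cp_perm`, as in `FF_gar`), `Pr_congr` for `rest'`.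
The sum of the term itself (`y = i`) and of these terms is
`∑_{y ∈ insert i R} Cp S b T_R ((insert i R).erase y) * Cp S b [v0, v1, v2] {y, n}`
which by `Cp_exch2` (`n ∉ insert i R`) is minus the sum of three products
`Cp S b (v0 :: T_R) (insert i R) * c1 S (b n) v2 v1` etc.  `c1 S (b n) v2 v1 = Cp S b [v1, v2] {n}`
(`Cp_single`).  So it is `∓` the sum of three values
`Pr S b ((insert i R, v0 :: T_R) :: ({n}, [v1, v2]) :: rest') (S.m (g a) κ₀)`, which lie in
`range S.del` by `ClaimS ... (m + 1)`: the configuration has `s` rows, is `Cfg`, has the same weight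
(`3 + 1 = 2 + 2`) and one more single row.  `Φ` kills `range S.del`.
(`κ (a ∘ swap i y) = κ a` by `hκ`, `hgs`.)
-/

open MvPolynomial Function

namespace Pool.Agent.H20.S2

open Pool.Agent.H39.OP Pool.Agent.H27.OP

variable {r e : ℕ} {E : Type*} [AddCommGroup E] [Module ℂ E]
  (S : Fk (Fin r) ℂ (Module.End ℂ E) (e + 2)) (Φ : E →ₗ[ℂ] ℂ)

/-- both replacements of the linear forms of a row -/
noncomputable def xf (T : Finset ℕ → Fin 3 → Sd r 1) (X Z : ℕ → Sd r 1)
    (q : Finset ℕ × List (MvPolynomial (Fin r) ℂ)) :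
    Finset ℕ × List (MvPolynomial (Fin r) ℂ) :=
  rw' X Z (thT T q)

lemma xf_fst (T : Finset ℕ → Fin 3 → Sd r 1) (X Z : ℕ → Sd r 1)
    (q : Finset ℕ × List (MvPolynomial (Fin r) ℂ)) : (xf T X Z q).1 = q.1 := by
  rw [xf, rw'_fst, thT_fst]

lemma xf_two (T : Finset ℕ → Fin 3 → Sd r 1) (X Z : ℕ → Sd r 1)
    {q : Finset ℕ × List (MvPolynomial (Fin r) ℂ)} (hq : q.1.card = 2) :
    (xf T X Z q).2 = [((T q.1 0 : Sd r 1) : MvPolynomial (Fin r) ℂ),
      ((T q.1 1 : Sd r 1) : MvPolynomial (Fin r) ℂ),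
      ((T q.1 2 : Sd r 1) : MvPolynomial (Fin r) ℂ)] := by
  simp [xf, thT, rw', hq]

lemma xf_map (T : Finset ℕ → Fin 3 → Sd r 1) (X Z : ℕ → Sd r 1)
    (l : List (Finset ℕ × List (MvPolynomial (Fin r) ℂ))) :
    (l.map (thT T)).map (rw' X Z) = l.map (xf T X Z) := by
  rw [List.map_map]
  rfl

lemma xf_cfg {l : List (Finset ℕ × List (MvPolynomial (Fin r) ℂ))} (h : Cfg l)
    (T : Finset ℕ → Fin 3 → Sd r 1) (X Z : ℕ → Sd r 1) : Cfg (l.map (xf T X Z)) := by
  rw [← xf_map]
  exact FGar_cfg_map (Cfg_thT h T) X Z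

lemma xf_wt (T : Finset ℕ → Fin 3 → Sd r 1) (X Z : ℕ → Sd r 1)
    (l : List (Finset ℕ × List (MvPolynomial (Fin r) ℂ))) : wt (l.map (xf T X Z)) = wt l := by
  induction l with
  | nil => rfl
  | cons q l ih => rw [List.map_cons, wt_cons, wt_cons, ih, xf_fst]

lemma xf_sing (T : Finset ℕ → Fin 3 → Sd r 1) (X Z : ℕ → Sd r 1)
    (l : List (Finset ℕ × List (MvPolynomial (Fin r) ℂ))) : sing (l.map (xf T X Z)) = sing l := by
  induction l with
  | nil => rfl
  | cons q l ih => rw [List.map_cons, sing_cons, sing_cons, ih, xf_fst]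

lemma xf_cfg_perm {l l' : List (Finset ℕ × List (MvPolynomial (Fin r) ℂ))} (hp : l.Perm l')
    (h : Cfg l) : Cfg l' := by
  refine ⟨?_, ?_, ?_, ?_⟩
  · intro p hp'
    exact h.ne p (hp.mem_iff.2 hp')
  · intro p hp'
    exact h.len p (hp.mem_iff.2 hp')
  · intro p hp'
    exact h.hom p (hp.mem_iff.2 hp')
  · exact hp.pairwise h.disj (fun h => h.symm)

lemma xf_prod (b : ℕ → MvPolynomial (Fin r) ℂ) (T : Finset ℕ → Fin 3 → Sd r 1)
    (X Z : ℕ → Sd r 1) {l₁ l₂ m₁ m₂ : List (Finset ℕ × List (MvPolynomial (Fin r) ℂ))}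
    {q q' : Finset ℕ × List (MvPolynomial (Fin r) ℂ)} (hm : l₁ ++ l₂ = m₁ ++ q' :: m₂) :
    Pr S b ((l₁ ++ q :: l₂).map (xf T X Z))
      = (-1) ^ (q.1.card * wt l₁) * ((-1) ^ (q'.1.card * wt m₁) *
        (Cp S b (xf T X Z q).2 q.1 * Cp S b (xf T X Z q').2 q'.1
          * Pr S b ((m₁ ++ m₂).map (xf T X Z)))) := by
  rw [List.map_append, List.map_cons, Pr_move, xf_fst, xf_wt, ← List.map_append, hm,
    List.map_append, List.map_cons, Pr_move, xf_fst, xf_wt, ← List.map_append]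
  rcases neg_one_pow_eq_or (Module.End ℂ E) (q'.1.card * wt m₁) with h | h
  · rw [h, one_mul, one_mul, ← mul_assoc (Cp S b (xf T X Z q).2 q.1)]
  · rw [h, neg_one_mul, neg_one_mul, mul_neg, ← mul_assoc (Cp S b (xf T X Z q).2 q.1)]

/-- the claim for configurations with `s` rows, at least `m` of them of length one -/
def ClaimS (κ₀ : E) (w K s m : ℕ) : Prop :=
  ∀ (l : List (Finset ℕ × List (MvPolynomial (Fin r) ℂ))) (y : ℕ → Sd r (e + 1))
    (g : MvPolynomial (Fin r) ℂ), l.length = s → Cfg l → wt l = w → m ≤ sing l →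
    g.IsHomogeneous (K - s) →
    Pr S (fun i => (y i : MvPolynomial (Fin r) ℂ)) l (S.m g κ₀) ∈ LinearMap.range S.del

lemma xf_claim {κ₀ : E} {w K s m : ℕ} (hC : ClaimS S κ₀ w K s (m + 1))
    {q q' : Finset ℕ × List (MvPolynomial (Fin r) ℂ)}
    {rest : List (Finset ℕ × List (MvPolynomial (Fin r) ℂ))}
    (hlen : (q :: q' :: rest).length = s) (hcfg : Cfg (q :: q' :: rest))
    (hwt : wt (q :: q' :: rest) = w) (hm : m ≤ sing (q :: q' :: rest))
    (hq : q.1.card = 2) (hq' : q'.1.card = 2) {i n : ℕ} (hi : i ∈ q'.1) (hn : n ∈ q'.1)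
    (hne : n ≠ i)
    (T : Finset ℕ → Fin 3 → Sd r 1) (a : ℕ → Sd r (e + 1)) (X Z : ℕ → Sd r 1) (u v t : Sd r 1)
    {g : MvPolynomial (Fin r) ℂ} (hg : g.IsHomogeneous (K - s)) :
    (Cp S (fun i => (a i : MvPolynomial (Fin r) ℂ)) ((u : MvPolynomial (Fin r) ℂ)
          :: (xf T X Z q).2) (insert i q.1)
      * c1 S (a n : MvPolynomial (Fin r) ℂ) (t : MvPolynomial (Fin r) ℂ)
          (v : MvPolynomial (Fin r) ℂ)
      * Pr S (fun i => (a i : MvPolynomial (Fin r) ℂ)) (rest.map (xf T X Z)))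
        (S.m g κ₀) ∈ LinearMap.range S.del := by
  have hd := List.pairwise_cons.1 hcfg.disj
  have hd' := List.pairwise_cons.1 hd.2
  have hqq' : Disjoint q.1 q'.1 := hd.1 q' (by simp)
  have hiq : i ∉ q.1 := fun h => Finset.disjoint_left.1 hqq' h hi
  have hnq : n ∉ q.1 := fun h => Finset.disjoint_left.1 hqq' h hn
  have hcfgF := xf_cfg hcfg T X Z
  rw [List.map_cons, List.map_cons] at hcfgF
  have hkey : Cp S (fun i => (a i : MvPolynomial (Fin r) ℂ)) ((u : MvPolynomial (Fin r) ℂ)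
          :: (xf T X Z q).2) (insert i q.1)
      * c1 S (a n : MvPolynomial (Fin r) ℂ) (t : MvPolynomial (Fin r) ℂ)
          (v : MvPolynomial (Fin r) ℂ)
      * Pr S (fun i => (a i : MvPolynomial (Fin r) ℂ)) (rest.map (xf T X Z))
      = Pr S (fun i => (a i : MvPolynomial (Fin r) ℂ))
        ((insert i q.1, (u : MvPolynomial (Fin r) ℂ) :: (xf T X Z q).2)
          :: (({n} : Finset ℕ), [(v : MvPolynomial (Fin r) ℂ), (t : MvPolynomial (Fin r) ℂ)])
          :: rest.map (xf T X Z)) := by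
    rw [Pr_cons, Pr_cons, Cp_single, mul_assoc]
  rw [hkey]
  refine hC _ a _ ?_ ?_ ?_ ?_ hg
  · simp only [List.length_cons, List.length_map] at hlen ⊢
    omega
  · refine ⟨?_, ?_, ?_, ?_⟩
    · intro p hp
      rcases List.mem_cons.1 hp with rfl | hp
      · exact Finset.insert_nonempty _ _
      · rcases List.mem_cons.1 hp with rfl | hp
        · exact Finset.singleton_nonempty n
        · exact hcfgF.ne p (List.mem_cons_of_mem _ (List.mem_cons_of_mem _ hp))
    · intro p hp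
      rcases List.mem_cons.1 hp with rfl | hp
      · rw [xf_two T X Z hq, Finset.card_insert_of_notMem hiq, hq]
        rfl
      · rcases List.mem_cons.1 hp with rfl | hp
        · rw [Finset.card_singleton]
          rfl
        · exact hcfgF.len p (List.mem_cons_of_mem _ (List.mem_cons_of_mem _ hp))
    · intro p hp x hx
      rcases List.mem_cons.1 hp with rfl | hp
      · rcases List.mem_cons.1 hx with rfl | hx
        · exact FGar_coe_hom _
        · exact hcfgF.hom (xf T X Z q) (by simp) x hx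
      · rcases List.mem_cons.1 hp with rfl | hp
        · simp only [List.mem_cons, List.not_mem_nil, or_false] at hx
          rcases hx with rfl | rfl
          · exact FGar_coe_hom _
          · exact FGar_coe_hom _
        · exact hcfgF.hom p (List.mem_cons_of_mem _ (List.mem_cons_of_mem _ hp)) x hx
    · have hdF := List.pairwise_cons.1 hcfgF.disj
      have hdF' := List.pairwise_cons.1 hdF.2
      refine List.pairwise_cons.2 ⟨?_, List.pairwise_cons.2 ⟨?_, hdF'.2⟩⟩
      · intro p hp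
        rcases List.mem_cons.1 hp with rfl | hp
        · refine Finset.disjoint_singleton_right.2 ?_
          rw [Finset.mem_insert, not_or]
          exact ⟨hne, hnq⟩
        · have h1 := hdF.1 p (List.mem_cons_of_mem _ hp)
          have h2 := hdF'.1 p hp
          rw [xf_fst] at h1 h2
          exact Finset.disjoint_insert_left.2 ⟨fun h => Finset.disjoint_left.1 h2 hi h, h1⟩
      · intro p hp
        have h2 := hdF'.1 p hp
        rw [xf_fst] at h2
        exact Finset.disjoint_singleton_left.2 (fun h => Finset.disjoint_left.1 h2 hn h)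
  · rw [wt_cons, wt_cons] at hwt
    rw [wt_cons, wt_cons, xf_wt]
    simp only
    rw [Finset.card_insert_of_notMem hiq, Finset.card_singleton, ← hwt]
    omega
  · rw [sing_cons, sing_cons] at hm
    rw [sing_cons, sing_cons, xf_sing]
    simp only
    rw [Finset.card_insert_of_notMem hiq, Finset.card_singleton, if_pos rfl]
    rw [if_neg (by omega), if_neg (by omega)] at hm
    omega

theorem FT_gar2 (hΦ : ∀ x, Φ (S.del x) = 0) {κ₀ : E} {w K s m : ℕ}
    (hC : ClaimS S κ₀ w K s (m + 1))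
    {l : List (Finset ℕ × List (MvPolynomial (Fin r) ℂ))} (hlen : l.length = s)
    (hcfg : Cfg l) (hwt : wt l = w) (hm : m ≤ sing l)
    (κ : (ℕ → Sd r (e + 1)) → E) (g : (ℕ → Sd r (e + 1)) → MvPolynomial (Fin r) ℂ)
    (hκ : ∀ a, κ a = S.m (g a) κ₀) (hg : ∀ a, (g a).IsHomogeneous (K - s))
    (hgs : ∀ i ∈ slots l, ∀ j ∈ slots l, ∀ a, g (a ∘ Equiv.swap i j) = g a)
    {R R' : Finset ℕ} (hR : R ∈ l.map Prod.fst) (hR' : R' ∈ l.map Prod.fst) (hR2 : R.card = 2)
    (hR2' : R'.card = 2) (hne : R ≠ R') {i : ℕ} (hi : i ∈ R')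
    (T : Finset ℕ → Fin 3 → Sd r 1) (a : ℕ → Sd r (e + 1)) (X Z : ℕ → Sd r 1) :
    FT S Φ l κ T a X Z + ∑ y ∈ R, FT S Φ l κ T (a ∘ Equiv.swap i y) X Z = 0 := by
  obtain ⟨q, hq, rfl⟩ := List.mem_map.1 hR
  obtain ⟨q', hq', rfl⟩ := List.mem_map.1 hR'
  obtain ⟨l₁, l₂, rfl⟩ := List.append_of_mem hq
  have hqq : q' ≠ q := fun h => hne (by rw [h])
  have hq'' : q' ∈ l₁ ++ l₂ := by
    rcases List.mem_append.1 hq' with h | h
    · exact List.mem_append_left _ h
    · rcases List.mem_cons.1 h with h | h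
      · exact absurd h hqq
      · exact List.mem_append_right _ h
  obtain ⟨m₁, m₂, hmm⟩ := List.append_of_mem hq''
  have hperm : (l₁ ++ q :: l₂).Perm (q :: q' :: (m₁ ++ m₂)) := by
    refine List.perm_middle.trans ?_
    rw [hmm]
    exact List.Perm.cons q List.perm_middle
  have hcfg' : Cfg (q :: q' :: (m₁ ++ m₂)) := xf_cfg_perm hperm hcfg
  have hlen' : (q :: q' :: (m₁ ++ m₂)).length = s := by rw [← hperm.length_eq, hlen]
  have hwt' : wt (q :: q' :: (m₁ ++ m₂)) = w := by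
    rw [← hwt]
    exact ((hperm.map _).sum_eq).symm
  have hm' : m ≤ sing (q :: q' :: (m₁ ++ m₂)) := by
    refine le_trans hm (le_of_eq ?_)
    exact (hperm.map _).sum_eq
  have hd := List.pairwise_cons.1 hcfg'.disj
  have hd' := List.pairwise_cons.1 hd.2
  have hdq : Disjoint q.1 q'.1 := hd.1 q' (by simp)
  have hiq : i ∉ q.1 := fun h => Finset.disjoint_left.1 hdq h hi
  obtain ⟨n, hn⟩ : ∃ n, q'.1.erase i = {n} := by
    rw [← Finset.card_eq_one, Finset.card_erase_of_mem hi, hR2']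
  have hnmem : n ∈ q'.1.erase i := by rw [hn]; exact Finset.mem_singleton_self n
  have hne' : n ≠ i := (Finset.mem_erase.1 hnmem).1
  have hnq' : n ∈ q'.1 := (Finset.mem_erase.1 hnmem).2
  have hq'e : q'.1 = {i, n} := by
    rw [← Finset.insert_erase hi, hn]
  have hnq : n ∉ q.1 := fun h => Finset.disjoint_left.1 hdq h hnq'
  have hni : n ∉ insert i q.1 := by
    rw [Finset.mem_insert, not_or]
    exact ⟨hne', hnq⟩
  -- abbreviations
  set y₀ : ℕ → MvPolynomial (Fin r) ℂ := fun i => (a i : MvPolynomial (Fin r) ℂ) with hy₀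
  set TR := (xf T X Z q).2 with hTR
  set rest := (m₁ ++ m₂).map (xf T X Z) with hrest
  set v0 : MvPolynomial (Fin r) ℂ := ((T q'.1 0 : Sd r 1) : MvPolynomial (Fin r) ℂ) with hv0
  set v1 : MvPolynomial (Fin r) ℂ := ((T q'.1 1 : Sd r 1) : MvPolynomial (Fin r) ℂ) with hv1
  set v2 : MvPolynomial (Fin r) ℂ := ((T q'.1 2 : Sd r 1) : MvPolynomial (Fin r) ℂ) with hv2
  have hTR' : (xf T X Z q').2 = [v0, v1, v2] := xf_two T X Z hR2'
  set ε₁ : Module.End ℂ E := (-1) ^ (q.1.card * wt l₁) with hε₁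
  set ε₂ : Module.End ℂ E := (-1) ^ (q'.1.card * wt m₁) with hε₂
  have hF : FT S Φ (l₁ ++ q :: l₂) κ T a X Z
      = Φ ((ε₁ * (ε₂ * (Cp S y₀ TR ((insert i q.1).erase i) * Cp S y₀ [v0, v1, v2] {i, n}
        * Pr S y₀ rest))) (S.m (g a) κ₀)) := by
    unfold FT FF
    rw [xf_map, xf_prod S _ T X Z hmm, hTR', hκ, Finset.erase_insert hiq]
    rw [show Cp S (fun i => (a i : MvPolynomial (Fin r) ℂ)) [v0, v1, v2] q'.1
      = Cp S y₀ [v0, v1, v2] {i, n} by rw [hq'e]]
  have hF' : ∀ y ∈ q.1, FT S Φ (l₁ ++ q :: l₂) κ T (a ∘ Equiv.swap i y) X Z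
      = Φ ((ε₁ * (ε₂ * (Cp S y₀ TR ((insert i q.1).erase y) * Cp S y₀ [v0, v1, v2] {y, n}
        * Pr S y₀ rest))) (S.m (g a) κ₀)) := by
    intro y hy
    have hyi : y ≠ i := fun h => hiq (h ▸ hy)
    have hyn : y ≠ n := fun h => hnq (h ▸ hy)
    have hfun : (fun j => ((a ∘ Equiv.swap i y) j : MvPolynomial (Fin r) ℂ))
        = y₀ ∘ (Equiv.swap i y) := rfl
    have hg' : g (a ∘ Equiv.swap i y) = g a := by
      refine hgs i ?_ y ?_ a
      · rw [mem_slots]
        exact ⟨q', hq', hi⟩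
      · rw [mem_slots]
        exact ⟨q, hq, hy⟩
    have hpr : Pr S (y₀ ∘ (Equiv.swap i y)) rest = Pr S y₀ rest := by
      refine Pr_congr S _ _ _ ?_
      intro p hp j hj
      rw [hrest] at hp
      obtain ⟨p', hp', rfl⟩ := List.mem_map.1 hp
      rw [xf_fst] at hj
      have h1 : j ≠ i := fun h =>
        Finset.disjoint_left.1 (hd'.1 p' hp') hi (h ▸ hj)
      have h2 : j ≠ y := fun h =>
        Finset.disjoint_left.1 (hd.1 p' (List.mem_cons_of_mem _ hp')) hy (h ▸ hj)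
      rw [Function.comp_apply, Equiv.swap_apply_of_ne_of_ne h1 h2]
    have hmap : q.1.map (Equiv.swap i y).toEmbedding = (insert i q.1).erase y := by
      ext j
      rw [Finset.mem_map_equiv, Equiv.symm_swap, Finset.mem_erase, Finset.mem_insert]
      rcases eq_or_ne j i with h1 | h1
      · subst h1
        rw [Equiv.swap_apply_left]
        exact ⟨fun _ => ⟨hyi.symm, Or.inl rfl⟩, fun _ => hy⟩
      · rcases eq_or_ne j y with h2 | h2
        · subst h2
          rw [Equiv.swap_apply_right]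
          exact ⟨fun h => absurd h hiq, fun h => absurd rfl h.1⟩
        · rw [Equiv.swap_apply_of_ne_of_ne h1 h2]
          exact ⟨fun h => ⟨h2, Or.inr h⟩, fun h => h.2.resolve_left h1⟩
    have hmap' : q'.1.map (Equiv.swap i y).toEmbedding = {y, n} := by
      rw [hq'e, Finset.map_insert, Finset.map_singleton]
      simp only [Equiv.coe_toEmbedding]
      rw [Equiv.swap_apply_left, Equiv.swap_apply_of_ne_of_ne hne' hyn.symm]
    unfold FT FF
    rw [hfun, xf_map, xf_prod S _ T X Z hmm, hTR', hκ, hg', hpr, Cp_perm, Cp_perm, hmap, hmap']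
  rw [hF, Finset.sum_congr rfl hF', ← map_sum, ← map_add]
  have hsum : (ε₁ * (ε₂ * (Cp S y₀ TR ((insert i q.1).erase i) * Cp S y₀ [v0, v1, v2] {i, n}
        * Pr S y₀ rest))) (S.m (g a) κ₀)
      + ∑ y ∈ q.1, (ε₁ * (ε₂ * (Cp S y₀ TR ((insert i q.1).erase y)
        * Cp S y₀ [v0, v1, v2] {y, n} * Pr S y₀ rest))) (S.m (g a) κ₀)
      = - ((ε₁ * (ε₂ * (Cp S y₀ (v0 :: TR) (insert i q.1) * c1 S (y₀ n) v2 v1
              * Pr S y₀ rest))) (S.m (g a) κ₀)
          + (ε₁ * (ε₂ * (Cp S y₀ (v1 :: TR) (insert i q.1) * c1 S (y₀ n) v0 v2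
              * Pr S y₀ rest))) (S.m (g a) κ₀)
          + (ε₁ * (ε₂ * (Cp S y₀ (v2 :: TR) (insert i q.1) * c1 S (y₀ n) v1 v0
              * Pr S y₀ rest))) (S.m (g a) κ₀)) := by
    rw [← LinearMap.sum_apply, ← LinearMap.add_apply, ← LinearMap.add_apply,
      ← LinearMap.add_apply, ← LinearMap.neg_apply]
    congr 1
    rw [← mul_add, ← mul_add, ← mul_add, ← mul_add, ← add_mul, ← add_mul, ← mul_neg, ← mul_neg,
      ← neg_mul, ← Cp_exch2 S y₀ TR (insert i q.1) hni v0 v1 v2, Finset.sum_insert hiq, add_mul,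
      Finset.sum_mul, mul_add, mul_add, Finset.mul_sum, Finset.mul_sum]
  rw [hsum, map_neg, map_add, map_add]
  have hz : ∀ u v t : Sd r 1, Φ ((ε₁ * (ε₂ * (Cp S y₀ ((u : MvPolynomial (Fin r) ℂ) :: TR)
      (insert i q.1) * c1 S (y₀ n) (t : MvPolynomial (Fin r) ℂ) (v : MvPolynomial (Fin r) ℂ)
      * Pr S y₀ rest))) (S.m (g a) κ₀)) = 0 := by
    intro u v t
    have hr1 := xf_claim S hC hlen' hcfg' hwt' hm' hR2 hR2' hi hnq' hne' T a X Z u v t (hg a)
    obtain ⟨x1, hx1⟩ := FGar_mem_neg_one_pow S (q.1.card * wt l₁) _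
      (FGar_mem_neg_one_pow S (q'.1.card * wt m₁) _ hr1)
    rw [← hΦ x1, hx1]
  rw [hz (T q'.1 0) (T q'.1 1) (T q'.1 2), hz (T q'.1 1) (T q'.1 2) (T q'.1 0),
    hz (T q'.1 2) (T q'.1 0) (T q'.1 1)]
  simp

end Pool.Agent.H20.S2
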