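import Pool.Agent.H39.OP.HLGood

/-!
# Job S2-03 : families with a vector argument, defects

`F : (C → U) → (I → A) → (Ω → U) → (Ω → U) → ℂ`.  `GoodV P F i`: the slot `i` is good with the
vector argument, in the form
`F v (a[i ↦ a' w]) = ∑_c F (v[c ↦ w]) (a[i ↦ a' (v c)])`.
`DfV P F y a'` is the defect of the slot `y`; its vector argument has index set `Option C`
(`none` is the new letter `w`, `some c` the old ones).

(a) `DfV_lin`: multilinear in the vector.  For `c = none`: `F` does not see it in the first term
except through `mu a' (v none)`, additivity in slot `y`; in the sum through `update _ c (v none)`.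
For `some c₀`: first term: `hv`; sum over `c`: `c = c₀`: `update (v ∘ some) c₀ (v none)` does not
depend on `v (some c₀)`, linear through the slot; `c ≠ c₀`: `hv`.
(b) `DfV_good`: if `i ≠ y` is good for `F` then it is good for `DfV P F y a'`.  Put
`f u w v = F v (a[y ↦ mu a' w][i ↦ mu c' u])`.  Goodness of `i`:
`f u w v = ∑_c f (v c) w (v[c ↦ u])`  (g).   With `Ψ u w v = f u w v - ∑_c f u (v c) (v[c ↦ w])` we want
`Ψ u w v = Ψ w u v + ∑_c Ψ (v c) w (v[c ↦ u])`, i.e.
`f u w v - ∑_c f u (v c) (v[c ↦ w]) = f w u v - ∑_c f w (v c) (v[c ↦ u]) + ∑_c f (v c) w (v[c ↦ u])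
  - ∑_c ∑_c' f (v c) (v[c ↦ u] c') (v[c ↦ u][c' ↦ w])`.
The third term on the right is `f u w v` by (g).  In the double sum the terms `c' = c` are
`f (v c) u (v[c ↦ w])`, with sum `f w u v` by (g); so what remains is
`∑_c' f u (v c') (v[c' ↦ w]) = ∑_c' f w (v c') (v[c' ↦ u]) + ∑_{c ≠ c'} f (v c) (v c') (v[c ↦ u][c' ↦ w])`,
which is (g) for `f u (v c') (v[c' ↦ w])`, summed over `c'` (its term `c = c'` is
`f w (v c') (v[c' ↦ u])`, its terms `c ≠ c'` are `f (v c) (v c') (v[c' ↦ w][c ↦ u])`).
(c) `good_singleV`: `HLH` for all `F v`, `t` good, `y ≠ t` an active slot which is a row on its own: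
`y` is good (`gar` for `y` reads `F v a X Z = - F v (a ∘ swap t y) X Z`, as in `good_single`).
(d) `HLH_DfV`: as `HLH_psi` in `HLGood.lean`: if `HLH` holds for all `F v`, `y ∈ Act`, `y ≠ t`, and
`t` is good, then `HLH` holds for all `DfV P F y a' v` with `Act.erase y` and the same `Om`.
(In `gar` for a row containing `y` the missing term is the defect of `t` at
`update a y (a t)`, which is `0` as `t` is good.)
-/

open Function

namespace Pool.Agent.H20.S2

open Pool.Agent.H39.OP

variable {U A A' : Type*} [AddCommGroup U] [Module ℂ U] [AddCommGroup A] [Module ℂ A]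
    [AddCommGroup A'] [Module ℂ A'] {D : ℕ} {P : PD U A A' D}
    {I Ω ρ C : Type*} [DecidableEq I] [DecidableEq Ω] [DecidableEq ρ] [Fintype C] [DecidableEq C]

/-- the slot `i` is good with the vector argument -/
def GoodV (P : PD U A A' D) (F : (C → U) → (I → A) → (Ω → U) → (Ω → U) → ℂ) (i : I) : Prop :=
  ∀ (v : C → U) (a : I → A) (X Z : Ω → U) (a' : A') (w : U),
    F v (update a i (P.mu a' w)) X Z
      = ∑ c, F (update v c w) (update a i (P.mu a' (v c))) X Z

/-- the defect of the slot `y` -/
def DfV (P : PD U A A' D) (F : (C → U) → (I → A) → (Ω → U) → (Ω → U) → ℂ) (y : I) (a' : A') :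
    (Option C → U) → (I → A) → (Ω → U) → (Ω → U) → ℂ := fun v a X Z =>
  F (fun c => v (some c)) (update a y (P.mu a' (v none))) X Z
    - ∑ c, F (update (fun c => v (some c)) c (v none)) (update a y (P.mu a' (v (some c)))) X Z

theorem DfV_eq_zero {F : (C → U) → (I → A) → (Ω → U) → (Ω → U) → ℂ} {y : I}
    (h : ∀ a' v a X Z, DfV P F y a' v a X Z = 0) : GoodV P F y := by
  intro v a X Z a' w
  have h1 := h a' (fun o => o.elim w v) a X Z
  simp only [DfV, Option.elim] at h1
  exact sub_eq_zero.mp h1

theorem DfV_upd_none {F : (C → U) → (I → A) → (Ω → U) → (Ω → U) → ℂ} {y : I} (a' : A')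
    (q : Option C → U) (u : U) (a : I → A) (X Z : Ω → U) :
    DfV P F y a' (update q none u) a X Z
      = F (fun c => q (some c)) (update a y (P.mu a' u)) X Z
        - ∑ c, F (update (fun c => q (some c)) c u) (update a y (P.mu a' (q (some c)))) X Z := by
  have h1 : ∀ c : C, update q none u (some c) = q (some c) := fun c =>
    update_of_ne (Option.some_ne_none c) _ _
  simp only [DfV, h1, update_self]

theorem DfV_upd_some {F : (C → U) → (I → A) → (Ω → U) → (Ω → U) → ℂ} {y : I} (a' : A')
    (q : Option C → U) (c₀ : C) (u : U) (a : I → A) (X Z : Ω → U) :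
    DfV P F y a' (update q (some c₀) u) a X Z
      = F (update (fun c => q (some c)) c₀ u) (update a y (P.mu a' (q none))) X Z
        - ∑ c, F (update (update (fun c => q (some c)) c₀ u) c (q none))
            (update a y (P.mu a' (update (fun c => q (some c)) c₀ u c))) X Z := by
  have h1 : ∀ c : C, update q (some c₀) u (some c) = update (fun c => q (some c)) c₀ u c := by
    intro c
    by_cases hc : c = c₀
    · subst hc
      simp only [update_self]
    · rw [update_of_ne hc, update_of_ne (fun h => hc (Option.some_injective C h))]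
  have h2 : update q (some c₀) u none = q none :=
    update_of_ne (Option.some_ne_none c₀).symm _ _
  simp only [DfV, h1, h2]

theorem DfV_lin {F : (C → U) → (I → A) → (Ω → U) → (Ω → U) → ℂ} {y : I} {Act : Finset I}
    (hv : ∀ a X Z, MulAt (Finset.univ : Finset C) (fun v => F v a X Z))
    (ha : ∀ v X Z, MulAt Act (fun a => F v a X Z)) (hy : y ∈ Act) (a' : A') (a : I → A)
    (X Z : Ω → U) :
    MulAt (Finset.univ : Finset (Option C)) (fun v => DfV P F y a' v a X Z) := by
  constructor
  · intro m _ q u v
    cases m with
    | none =>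
      simp only [DfV_upd_none]
      have h1 := (ha (fun c => q (some c)) X Z).add y hy a (P.mu a' u) (P.mu a' v)
      have h2 : ∀ c ∈ (Finset.univ : Finset C),
          F (update (fun c => q (some c)) c (u + v)) (update a y (P.mu a' (q (some c)))) X Z
            = F (update (fun c => q (some c)) c u) (update a y (P.mu a' (q (some c)))) X Z
              + F (update (fun c => q (some c)) c v) (update a y (P.mu a' (q (some c)))) X Z :=
        fun c hc => (hv (update a y (P.mu a' (q (some c)))) X Z).add c hc _ u v
      rw [Finset.sum_congr rfl h2, Finset.sum_add_distrib, map_add]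
      linear_combination h1
    | some c₀ =>
      simp only [DfV_upd_some]
      have h1 := (hv (update a y (P.mu a' (q none))) X Z).add c₀ (Finset.mem_univ c₀)
        (fun c => q (some c)) u v
      have h2 : ∀ c ∈ (Finset.univ : Finset C),
          F (update (update (fun c => q (some c)) c₀ (u + v)) c (q none))
            (update a y (P.mu a' (update (fun c => q (some c)) c₀ (u + v) c))) X Z
            = F (update (update (fun c => q (some c)) c₀ u) c (q none))
                (update a y (P.mu a' (update (fun c => q (some c)) c₀ u c))) X Z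
              + F (update (update (fun c => q (some c)) c₀ v) c (q none))
                (update a y (P.mu a' (update (fun c => q (some c)) c₀ v c))) X Z := by
        intro c _
        by_cases hc : c = c₀
        · subst hc
          simp only [update_idem, update_self, map_add]
          exact (ha _ X Z).add y hy a _ _
        · simp only [update_of_ne hc]
          rw [update_comm (Ne.symm hc), update_comm (Ne.symm hc), update_comm (Ne.symm hc)]
          exact (hv _ X Z).add c₀ (Finset.mem_univ c₀) _ u v
      rw [Finset.sum_congr rfl h2, Finset.sum_add_distrib]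
      linear_combination h1
  · intro m _ q k u
    cases m with
    | none =>
      simp only [DfV_upd_none]
      have h1 := (ha (fun c => q (some c)) X Z).smul y hy a k (P.mu a' u)
      have h2 : ∀ c ∈ (Finset.univ : Finset C),
          F (update (fun c => q (some c)) c (k • u)) (update a y (P.mu a' (q (some c)))) X Z
            = k * F (update (fun c => q (some c)) c u) (update a y (P.mu a' (q (some c)))) X Z :=
        fun c hc => (hv (update a y (P.mu a' (q (some c)))) X Z).smul c hc _ k u
      rw [Finset.sum_congr rfl h2, ← Finset.mul_sum, map_smul]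
      linear_combination h1
    | some c₀ =>
      simp only [DfV_upd_some]
      have h1 := (hv (update a y (P.mu a' (q none))) X Z).smul c₀ (Finset.mem_univ c₀)
        (fun c => q (some c)) k u
      have h2 : ∀ c ∈ (Finset.univ : Finset C),
          F (update (update (fun c => q (some c)) c₀ (k • u)) c (q none))
            (update a y (P.mu a' (update (fun c => q (some c)) c₀ (k • u) c))) X Z
            = k * F (update (update (fun c => q (some c)) c₀ u) c (q none))
                (update a y (P.mu a' (update (fun c => q (some c)) c₀ u c))) X Z := by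
        intro c _
        by_cases hc : c = c₀
        · subst hc
          simp only [update_idem, update_self, map_smul]
          exact (ha _ X Z).smul y hy a _ _
        · simp only [update_of_ne hc]
          rw [update_comm (Ne.symm hc), update_comm (Ne.symm hc)]
          exact (hv _ X Z).smul c₀ (Finset.mem_univ c₀) _ k u
      rw [Finset.sum_congr rfl h2, ← Finset.mul_sum]
      linear_combination h1

theorem DfV_good {F : (C → U) → (I → A) → (Ω → U) → (Ω → U) → ℂ} {y i : I} (hiy : i ≠ y)
    (h : GoodV P F i) (a' : A') : GoodV P (DfV P F y a') i := by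
  intro v a X Z c' u
  rw [Fintype.sum_option]
  simp only [DfV_upd_none, DfV_upd_some]
  simp only [DfV]
  obtain ⟨w, hw⟩ : ∃ w : U, w = v none := ⟨_, rfl⟩
  obtain ⟨v', hv'⟩ : ∃ v' : C → U, v' = fun c => v (some c) := ⟨_, rfl⟩
  have hvc : ∀ c, v (some c) = v' c := fun c => by rw [hv']
  simp only [← hw, hvc]
  obtain ⟨f, hf⟩ : ∃ f : U → U → (C → U) → ℂ,
      f = fun u w v => F v (update (update a i (P.mu c' u)) y (P.mu a' w)) X Z := ⟨_, rfl⟩
  have hfa : ∀ u w v, F v (update (update a i (P.mu c' u)) y (P.mu a' w)) X Z = f u w v :=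
    fun u w v => by rw [hf]
  have g : ∀ u w v, f u w v = ∑ c, f (v c) w (update v c u) := by
    intro u w v
    simp only [← hfa]
    simp only [update_comm hiy]
    exact h v (update a y (P.mu a' w)) X Z c' u
  simp only [hfa]
  rw [Finset.sum_sub_distrib]
  have e1 : ∑ c, ∑ c₁, f (v' c) (update v' c u c₁) (update (update v' c u) c₁ w)
      = (∑ c, f (v' c) u (update v' c w))
        + ∑ c, ∑ c₁, (if c = c₁ then 0 else f (v' c) (v' c₁) (update (update v' c u) c₁ w)) := by
    rw [← Finset.sum_add_distrib]
    refine Finset.sum_congr rfl fun c _ => ?_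
    have e3 : ∀ c₁ ∈ (Finset.univ : Finset C),
        f (v' c) (update v' c u c₁) (update (update v' c u) c₁ w)
        = (if c = c₁ then f (v' c) u (update v' c w) else 0)
          + (if c = c₁ then 0 else f (v' c) (v' c₁) (update (update v' c u) c₁ w)) := by
      intro c₁ _
      by_cases hc : c = c₁
      · subst hc
        simp only [update_self, update_idem, if_true, add_zero]
      · rw [if_neg hc, if_neg hc, zero_add, update_of_ne (Ne.symm hc)]
    rw [Finset.sum_congr rfl e3, Finset.sum_add_distrib, Finset.sum_ite_eq,
      if_pos (Finset.mem_univ c)]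
  have e2 : ∑ c, f u (v' c) (update v' c w)
      = (∑ c, f w (v' c) (update v' c u))
        + ∑ c, ∑ c₁, (if c = c₁ then 0 else f (v' c) (v' c₁) (update (update v' c u) c₁ w)) := by
    rw [Finset.sum_comm, ← Finset.sum_add_distrib]
    refine Finset.sum_congr rfl fun c₁ _ => ?_
    rw [g u (v' c₁) (update v' c₁ w)]
    have e3 : ∀ c ∈ (Finset.univ : Finset C),
        f (update v' c₁ w c) (v' c₁) (update (update v' c₁ w) c u)
        = (if c = c₁ then f w (v' c₁) (update v' c₁ u) else 0)
          + (if c = c₁ then 0 else f (v' c) (v' c₁) (update (update v' c u) c₁ w)) := by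
      intro c _
      by_cases hc : c = c₁
      · subst hc
        simp only [update_self, update_idem, if_true, add_zero]
      · rw [if_neg hc, if_neg hc, zero_add, update_of_ne hc, update_comm (Ne.symm hc)]
    rw [Finset.sum_congr rfl e3, Finset.sum_add_distrib, Finset.sum_ite_eq',
      if_pos (Finset.mem_univ c₁)]
  rw [e1, e2, ← g w u v', ← g u w v']
  ring

theorem good_singleV {row : I → ρ} {t : I} {Act : Finset I} {Om : Finset Ω}
    {F : (C → U) → (I → A) → (Ω → U) → (Ω → U) → ℂ} (h : ∀ v, HLH P row t Act Om (F v))
    (ht : GoodV P F t) {y : I} (hy : y ∈ Act)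
    (hyt : y ≠ t) (hrow : ∀ i ∈ Act, row i = row y → i = y) : GoodV P F y := by
  intro v a X Z a' w
  have hfil : Act.filter (fun y' => row y' = row y) = {y} := by
    ext i
    simp only [Finset.mem_filter, Finset.mem_singleton]
    constructor
    · rintro ⟨h1, h2⟩
      exact hrow i h1 h2
    · rintro rfl
      exact ⟨hy, rfl⟩
  have hswap : ∀ (v : C → U) (a : I → A) (X Z : Ω → U),
      F v a X Z = - F v (a ∘ Equiv.swap t y) X Z := by
    intro v a X Z
    have hrt : row y ≠ row t := fun h1 => hyt ((h v).trow y hy h1)
    have h1 := (h v).gar y hy hrt a X Z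
    rw [hfil, Finset.sum_singleton] at h1
    exact eq_neg_of_add_eq_zero_left h1
  have h2 : ∀ c ∈ (Finset.univ : Finset C),
      F (update v c w) (update a y (P.mu a' (v c))) X Z
        = - F (update v c w) (update (a ∘ Equiv.swap t y) t (P.mu a' (v c))) X Z := by
    intro c _
    rw [hswap, HLGood_swap a hyt]
  rw [Finset.sum_congr rfl h2, hswap, HLGood_swap a hyt, Finset.sum_neg_distrib,
    ht v (a ∘ Equiv.swap t y) X Z a' w]

/-- signs of the terms of `DfV` -/
def sgV : Option C → ℂ := fun o => o.elim 1 (fun _ => -1)

/-- vectors of the terms of `DfV` -/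
def vvV (v : Option C → U) : Option C → (C → U) := fun o =>
  o.elim (fun c => v (some c)) (fun c => update (fun c => v (some c)) c (v none))

theorem DfV_eq {F : (C → U) → (I → A) → (Ω → U) → (Ω → U) → ℂ} {y : I} (a' : A')
    (v : Option C → U) (a : I → A) (X Z : Ω → U) :
    DfV P F y a' v a X Z
      = ∑ o, sgV o * F (vvV v o) (update a y (P.mu a' (v o))) X Z := by
  rw [Fintype.sum_option]
  simp only [sgV, vvV, Option.elim, one_mul, neg_mul, Finset.sum_neg_distrib, DfV]
  ring

theorem HLH_DfV {row : I → ρ} {t : I} {Act : Finset I} {Om : Finset Ω}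
    {F : (C → U) → (I → A) → (Ω → U) → (Ω → U) → ℂ} (h : ∀ v, HLH P row t Act Om (F v))
    (ht : GoodV P F t) {y : I} (hy : y ∈ Act) (hyt : y ≠ t) (a' : A') (v : Option C → U) :
    HLH P row t (Act.erase y) Om (DfV P F y a' v) := by
  have hD : ∀ a X Z, DfV P F y a' v a X Z
      = ∑ o, sgV o * F (vvV v o) (update a y (P.mu a' (v o))) X Z := DfV_eq a' v
  refine ⟨Finset.mem_erase.2 ⟨hyt.symm, (h (fun c => v (some c))).tAct⟩, ?_, ?_, ?_, ?_, ?_, ?_, ?_⟩
  · intro i hi hr
    exact (h (fun c => v (some c))).trow i (Finset.mem_of_mem_erase hi) hr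
  · intro X Z
    constructor
    · intro m hm q u w
      have hne : m ≠ y := Finset.ne_of_mem_erase hm
      have hmA := Finset.mem_of_mem_erase hm
      simp only [hD, update_comm hne]
      rw [← Finset.sum_add_distrib]
      refine Finset.sum_congr rfl fun o _ => ?_
      have h1 := ((h (vvV v o)).mulA X Z).add m hmA (update q y (P.mu a' (v o))) u w
      rw [h1]
      ring
    · intro m hm q c u
      have hne : m ≠ y := Finset.ne_of_mem_erase hm
      have hmA := Finset.mem_of_mem_erase hm
      simp only [hD, update_comm hne]
      rw [Finset.mul_sum]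
      refine Finset.sum_congr rfl fun o _ => ?_
      have h1 := ((h (vvV v o)).mulA X Z).smul m hmA (update q y (P.mu a' (v o))) c u
      rw [h1]
      ring
  · intro a Z
    constructor
    · intro m hm q u w
      simp only [hD]
      rw [← Finset.sum_add_distrib]
      refine Finset.sum_congr rfl fun o _ => ?_
      have h1 := ((h (vvV v o)).mulX (update a y (P.mu a' (v o))) Z).add m hm q u w
      rw [h1]
      ring
    · intro m hm q c u
      simp only [hD]
      rw [Finset.mul_sum]
      refine Finset.sum_congr rfl fun o _ => ?_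
      have h1 := ((h (vvV v o)).mulX (update a y (P.mu a' (v o))) Z).smul m hm q c u
      rw [h1]
      ring
  · intro l hl a X Z
    simp only [hD]
    rw [← Finset.sum_neg_distrib]
    refine Finset.sum_congr rfl fun o _ => ?_
    rw [(h (vvV v o)).alt l hl]
    ring
  · intro i hi j hj hr a X Z
    have hiy : y ≠ i := (Finset.ne_of_mem_erase hi).symm
    have hjy : y ≠ j := (Finset.ne_of_mem_erase hj).symm
    have hiA := Finset.mem_of_mem_erase hi
    have hjA := Finset.mem_of_mem_erase hj
    simp only [hD]
    refine Finset.sum_congr rfl fun o _ => ?_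
    rw [HLGood_swap3 a hiy hjy, (h (vvV v o)).sym i hiA j hjA hr]
  · intro y₁ hy₁ hrt a X Z
    have hy₁A := Finset.mem_of_mem_erase hy₁
    have hterm : ∀ y' ∈ (Act.erase y).filter (fun y' => row y' = row y₁),
        DfV P F y a' v (a ∘ Equiv.swap t y') X Z =
        ∑ o, sgV o * F (vvV v o) ((update a y (P.mu a' (v o))) ∘ Equiv.swap t y') X Z := by
      intro y' hy'
      have hne : y ≠ y' := (Finset.ne_of_mem_erase (Finset.mem_of_mem_filter y' hy')).symm
      rw [hD]
      refine Finset.sum_congr rfl fun o _ => ?_
      rw [HLGood_swap3 a hyt hne]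
    rw [Finset.sum_congr rfl hterm, Finset.sum_comm, hD, ← Finset.sum_add_distrib]
    by_cases hr : row y = row y₁
    · have hfil : Act.filter (fun y' => row y' = row y₁) =
          insert y ((Act.erase y).filter (fun y' => row y' = row y₁)) := by
        ext i
        simp only [Finset.mem_filter, Finset.mem_insert, Finset.mem_erase]
        constructor
        · rintro ⟨h1, h2⟩
          by_cases hi : i = y
          · exact Or.inl hi
          · exact Or.inr ⟨⟨hi, h1⟩, h2⟩
        · rintro (rfl | ⟨⟨_, h1⟩, h2⟩)
          · exact ⟨hy, hr⟩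
          · exact ⟨h1, h2⟩
      have hnot : y ∉ (Act.erase y).filter (fun y' => row y' = row y₁) := by
        simp
      have hkey : ∀ o ∈ (Finset.univ : Finset (Option C)),
          sgV o * F (vvV v o) (update a y (P.mu a' (v o))) X Z
            + ∑ y' ∈ (Act.erase y).filter (fun y' => row y' = row y₁),
              sgV o * F (vvV v o) ((update a y (P.mu a' (v o))) ∘ Equiv.swap t y') X Z
            = - (sgV o * F (vvV v o) (update (update a y (a t)) t (P.mu a' (v o))) X Z) := by
        intro o _
        have g1 := (h (vvV v o)).gar y₁ hy₁A hrt (update a y (P.mu a' (v o))) X Z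
        rw [hfil, Finset.sum_insert hnot, HLGood_swap2 a hyt] at g1
        rw [← Finset.mul_sum]
        linear_combination sgV o * g1
      rw [Finset.sum_congr rfl hkey, Finset.sum_neg_distrib, neg_eq_zero]
      rw [Fintype.sum_option]
      simp only [sgV, vvV, Option.elim, one_mul, neg_mul]
      rw [Finset.sum_neg_distrib,
        ht (fun c => v (some c)) (update a y (a t)) X Z a' (v none)]
      ring
    · have hfil : Act.filter (fun y' => row y' = row y₁) =
          (Act.erase y).filter (fun y' => row y' = row y₁) := by
        ext i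
        simp only [Finset.mem_filter, Finset.mem_erase]
        constructor
        · rintro ⟨h1, h2⟩
          refine ⟨⟨?_, h1⟩, h2⟩
          rintro rfl
          exact hr h2
        · rintro ⟨⟨_, h1⟩, h2⟩
          exact ⟨h1, h2⟩
      refine Finset.sum_eq_zero fun o _ => ?_
      have g1 := (h (vvV v o)).gar y₁ hy₁A hrt (update a y (P.mu a' (v o))) X Z
      rw [hfil] at g1
      rw [← Finset.mul_sum]
      linear_combination sgV o * g1
  · intro l hl a X Z b' w' x' z'
    have e1 : ∀ (p r : A), update (update a t p) y r = update (update a y r) t p :=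
      fun p r => update_comm hyt.symm _ _ _
    simp only [hD, e1]
    rw [← Finset.sum_add_distrib, ← Finset.sum_add_distrib]
    refine Finset.sum_eq_zero fun o _ => ?_
    have j1 := (h (vvV v o)).jac l hl (update a y (P.mu a' (v o))) X Z b' w' x' z'
    linear_combination sgV o * j1

end Pool.Agent.H20.S2
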