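import Pool.Agent.H20.S2.RLC
import Pool.Agent.H39.OP.PolyPD
import Pool.Agent.H39.OP.PV

/-!
# Job S2-09 : the restriction lemma for slots which are forms

Slots `a i ∈ Sd r (e+1)` (`i ∈ Act`).  `RLC` is applied to words.

(a) `RL_slots_b`: additional argument `b ∈ Sd r e`.  Words `M = (I × Fin (e+1)) ⊕ Fin e`,
active positions `ActM`: all `inl (i, j)` with `i ∈ Act` and all `inr j`.
`F q v = G (∏_j q (inr j)) v (fun i => if i ∈ Act then polyPD_pr r e (fun j => q (inl (i, j))) else a₀ i)`
where the product of `e` linear forms is an element of `Sd r e`.  Updating `q` at `inl (i, j)`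
replaces the slot `i` by `muP a' u` (`polyPD_pr_upd`; `a'` does not depend on `u`), so additivity and
goodness at this position are `ha` and `hgood i`.  Updating `q` at `inr j` multiplies: the product is
`b'' * u` with `b''` the product of the other letters; additivity is `hb`, goodness is `hgoodb`
(stated for polynomials: `b u` is any element of `Sd r e` whose underlying polynomial is
`b'' * u`).  Base: `hbase`.
Reduction to words: `G b v a = 0` for all `b, a` once it holds for `b` and `a i` (`i ∈ Act`) products of
linear forms: every form is in the span of the products (`polyPD_span`, for `b` the same statement in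
degree `e`, provable from `polyPD_monomial`), by linearity (as `main` in `HL_base`).

(b) `RL_slots_xz`: instead of `b`, two letters `x, z ∈ Sd r 1`: words `M = (I × Fin (e+1)) ⊕ Fin 2`.
-/

open MvPolynomial Function

namespace Pool.Agent.H20.S2

open Pool.Agent.H39.OP Pool.Agent.H27.OP

variable {r e : ℕ} {I C : Type*} [DecidableEq I] [Fintype C] [DecidableEq C]

/-- the product of `e` linear forms as a form of degree `e` -/
noncomputable def letPr (r e : ℕ) (q : Fin e → Sd r 1) : Sd r e :=
  ⟨∏ j, (q j : MvPolynomial (Fin r) ℂ), by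
    rw [mem_homogeneousSubmodule]
    have h := IsHomogeneous.prod (Finset.univ : Finset (Fin e))
      (fun j => (q j : MvPolynomial (Fin r) ℂ)) (fun _ => 1)
      (fun j _ => (mem_homogeneousSubmodule _ _).mp (q j).2)
    simpa using h⟩

lemma letPr_coe (r e : ℕ) (q : Fin e → Sd r 1) :
    ((letPr r e q : Sd r e) : MvPolynomial (Fin r) ℂ) =
      ∏ j, (q j : MvPolynomial (Fin r) ℂ) := rfl

lemma letPr_upd (r e : ℕ) (q : Fin e → Sd r 1) (j : Fin e) :
    ∃ b'' : MvPolynomial (Fin r) ℂ, ∀ u : Sd r 1,
      (letPr r e (update q j u) : MvPolynomial (Fin r) ℂ) =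
        b'' * (u : MvPolynomial (Fin r) ℂ) := by
  refine ⟨∏ k ∈ Finset.univ.erase j, (q k : MvPolynomial (Fin r) ℂ), ?_⟩
  intro u
  rw [letPr_coe, ← Finset.prod_erase_mul _ _ (Finset.mem_univ j)]
  rw [update_self]
  congr 1
  apply Finset.prod_congr rfl
  intro k hk
  rw [update_of_ne (Finset.ne_of_mem_erase hk)]

lemma letPr_span (r e : ℕ) (a : Sd r e) :
    a ∈ Submodule.span ℂ (Set.range (letPr r e)) := by
  have key : (a : MvPolynomial (Fin r) ℂ) ∈
      Submodule.map (homogeneousSubmodule (Fin r) ℂ e).subtype
        (Submodule.span ℂ (Set.range (letPr r e))) := by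
    rw [(a : MvPolynomial (Fin r) ℂ).as_sum]
    apply Submodule.sum_mem
    intro μ hμ
    have hdeg : μ.degree = e := by
      have h := (mem_homogeneousSubmodule _ _).mp a.2
      by_contra hne
      exact (mem_support_iff.mp hμ) (h.coeff_eq_zero hne)
    obtain ⟨f, hf⟩ := polyPD_monomial r e μ hdeg
    have h1 : monomial μ (coeff μ (a : MvPolynomial (Fin r) ℂ)) =
        coeff μ (a : MvPolynomial (Fin r) ℂ) • monomial μ (1 : ℂ) := by
      rw [smul_monomial]
      simp
    rw [h1]
    apply Submodule.smul_mem
    refine ⟨letPr r e (fun j => ⟨X (f j), (mem_homogeneousSubmodule _ _).mpr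
      (isHomogeneous_X _ _)⟩), Submodule.subset_span ⟨_, rfl⟩, ?_⟩
    rw [← hf]
    rfl
  obtain ⟨s, hs, hsa⟩ := key
  have : s = a := Subtype.ext hsa
  rw [← this]
  exact hs

/-- the case where the slots are products of linear forms -/
private theorem let_core_prod {J : Type*} [Fintype J] [DecidableEq J] (Act : Finset I)
    (E : (J → Sd r 1) → (C → Sd r 1) → (I → Sd r (e + 1)) → ℂ)
    (hp : ∀ v a, MulAt (Finset.univ : Finset J) (fun p => E p v a))
    (hv : ∀ p a, MulAt (Finset.univ : Finset C) (fun v => E p v a))
    (ha : ∀ p v, MulAt Act (fun a => E p v a))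
    (hgood : ∀ i ∈ Act, ∀ p v a (a' : Sd r e) (w : Sd r 1),
      E p v (update a i (muP r e a' w))
        = ∑ c, E p (update v c w) (update a i (muP r e a' (v c))))
    (hgp : ∀ j p v a w, E (update p j w) v a = ∑ c, E (update p j (v c)) (update v c w) a)
    (hbase : ∀ p v a, (∀ j, ∃ c, p j = v c) →
      (∀ i ∈ Act, ∃ k : Fin (e + 1) → C, (a i : MvPolynomial (Fin r) ℂ)
        = ∏ j, (v (k j) : MvPolynomial (Fin r) ℂ)) → E p v a = 0)
    (p : J → Sd r 1) (v : C → Sd r 1) (a : I → Sd r (e + 1))
    (haa : ∀ i ∈ Act, a i ∈ Set.range (polyPD_pr r e)) : E p v a = 0 := by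
  classical
  have hq0 : ∀ i, ∃ q : Fin (e + 1) → Sd r 1, i ∈ Act → polyPD_pr r e q = a i := by
    intro i
    by_cases hi : i ∈ Act
    · obtain ⟨q, hq⟩ := haa i hi
      exact ⟨q, fun _ => hq⟩
    · exact ⟨fun _ => 0, fun h' => absurd h' hi⟩
  choose q0 hq0 using hq0
  let fam : ((I × Fin (e + 1)) ⊕ J → Sd r 1) → I → Sd r (e + 1) :=
    fun q i => if i ∈ Act then polyPD_pr r e (fun j => q (Sum.inl (i, j))) else a i
  let let' : ((I × Fin (e + 1)) ⊕ J → Sd r 1) → J → Sd r 1 := fun q j => q (Sum.inr j)
  have hfam : ∀ (q : (I × Fin (e + 1)) ⊕ J → Sd r 1) (i : I) (j : Fin (e + 1)) (u : Sd r 1),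
      i ∈ Act → fam (update q (Sum.inl (i, j)) u) =
        update (fam q) i (polyPD_pr r e (update (fun j => q (Sum.inl (i, j))) j u)) := by
    intro q i j u hi
    funext m
    by_cases hm : m = i
    · subst hm
      rw [update_self]
      simp only [fam]
      rw [if_pos hi]
      congr 1
      funext j'
      by_cases hj : j' = j
      · subst hj
        rw [update_self, update_self]
      · rw [update_of_ne hj, update_of_ne (fun h' => hj (Prod.ext_iff.1 (Sum.inl.inj h')).2)]
    · rw [update_of_ne hm]
      simp only [fam]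
      have : ∀ j', update q (Sum.inl (i, j)) u (Sum.inl (m, j')) = q (Sum.inl (m, j')) :=
        fun j' => update_of_ne (fun h' => hm (Prod.ext_iff.1 (Sum.inl.inj h')).1) _ _
      simp only [this]
  have hfamr : ∀ (q : (I × Fin (e + 1)) ⊕ J → Sd r 1) (j : J) (u : Sd r 1),
      fam (update q (Sum.inr j) u) = fam q := by
    intro q j u
    funext m
    simp only [fam]
    have : ∀ j', update q (Sum.inr j) u (Sum.inl (m, j')) = q (Sum.inl (m, j')) :=
      fun j' => update_of_ne (by simp) _ _
    simp only [this]
  have hlet : ∀ (q : (I × Fin (e + 1)) ⊕ J → Sd r 1) (m : I × Fin (e + 1)) (u : Sd r 1),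
      let' (update q (Sum.inl m) u) = let' q := by
    intro q m u
    funext j
    simp only [let']
    rw [update_of_ne (by simp)]
  have hletr : ∀ (q : (I × Fin (e + 1)) ⊕ J → Sd r 1) (j : J) (u : Sd r 1),
      let' (update q (Sum.inr j) u) = update (let' q) j u := by
    intro q j u
    funext j'
    simp only [let']
    by_cases hj : j' = j
    · subst hj
      rw [update_self, update_self]
    · rw [update_of_ne hj, update_of_ne (fun h' => hj (Sum.inr.inj h'))]
  have hR := RLC ((Act ×ˢ (Finset.univ : Finset (Fin (e + 1)))).disjSum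
      (Finset.univ : Finset J))
    (fun (q : (I × Fin (e + 1)) ⊕ J → Sd r 1) (v : C → Sd r 1) => E (let' q) v (fam q))
    (by
      intro v
      refine ⟨?_, ?_⟩
      · rintro (⟨i, j⟩ | j) hm q u u'
        · have hi : i ∈ Act := by
            have := Finset.inl_mem_disjSum.1 hm
            exact (Finset.mem_product.1 this).1
          obtain ⟨a', ha'⟩ := polyPD_pr_upd r e (fun j => q (Sum.inl (i, j))) j
          show E (let' (update q (Sum.inl (i, j)) (u + u'))) v
              (fam (update q (Sum.inl (i, j)) (u + u'))) =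
            E (let' (update q (Sum.inl (i, j)) u)) v (fam (update q (Sum.inl (i, j)) u)) +
            E (let' (update q (Sum.inl (i, j)) u')) v (fam (update q (Sum.inl (i, j)) u'))
          rw [hfam q i j _ hi, hfam q i j _ hi, hfam q i j _ hi, hlet, hlet, hlet, ha', ha', ha',
            map_add, (ha _ _).add i hi]
        · show E (let' (update q (Sum.inr j) (u + u'))) v
              (fam (update q (Sum.inr j) (u + u'))) =
            E (let' (update q (Sum.inr j) u)) v (fam (update q (Sum.inr j) u)) +
            E (let' (update q (Sum.inr j) u')) v (fam (update q (Sum.inr j) u'))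
          rw [hfamr, hfamr, hfamr, hletr, hletr, hletr, (hp _ _).add j (Finset.mem_univ _)]
      · rintro (⟨i, j⟩ | j) hm q c u
        · have hi : i ∈ Act := by
            have := Finset.inl_mem_disjSum.1 hm
            exact (Finset.mem_product.1 this).1
          obtain ⟨a', ha'⟩ := polyPD_pr_upd r e (fun j => q (Sum.inl (i, j))) j
          show E (let' (update q (Sum.inl (i, j)) (c • u))) v
              (fam (update q (Sum.inl (i, j)) (c • u))) =
            c * E (let' (update q (Sum.inl (i, j)) u)) v (fam (update q (Sum.inl (i, j)) u))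
          rw [hfam q i j _ hi, hfam q i j _ hi, hlet, hlet, ha', ha', map_smul,
            (ha _ _).smul i hi]
        · show E (let' (update q (Sum.inr j) (c • u))) v
              (fam (update q (Sum.inr j) (c • u))) =
            c * E (let' (update q (Sum.inr j) u)) v (fam (update q (Sum.inr j) u))
          rw [hfamr, hfamr, hletr, hletr, (hp _ _).smul j (Finset.mem_univ _)])
    (fun q => hv (let' q) (fam q))
    (by
      rintro (⟨i, j⟩ | j) hm q v w
      · have hi : i ∈ Act := by
          have := Finset.inl_mem_disjSum.1 hm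
          exact (Finset.mem_product.1 this).1
        obtain ⟨a', ha'⟩ := polyPD_pr_upd r e (fun j => q (Sum.inl (i, j))) j
        show E (let' (update q (Sum.inl (i, j)) w)) v (fam (update q (Sum.inl (i, j)) w)) =
          ∑ c, E (let' (update q (Sum.inl (i, j)) (v c))) (update v c w)
            (fam (update q (Sum.inl (i, j)) (v c)))
        rw [hfam q i j _ hi, hlet, ha', hgood i hi]
        refine Finset.sum_congr rfl fun c _ => ?_
        rw [hfam q i j _ hi, hlet, ha']
      · show E (let' (update q (Sum.inr j) w)) v (fam (update q (Sum.inr j) w)) =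
          ∑ c, E (let' (update q (Sum.inr j) (v c))) (update v c w)
            (fam (update q (Sum.inr j) (v c)))
        rw [hfamr, hletr, hgp]
        refine Finset.sum_congr rfl fun c _ => ?_
        rw [hfamr, hletr])
    (by
      intro q v hq
      refine hbase _ _ _ ?_ ?_
      · intro j
        exact hq (Sum.inr j) (Finset.inr_mem_disjSum.2 (Finset.mem_univ _))
      · intro i hi
        have h1 : ∀ j, ∃ c, q (Sum.inl (i, j)) = v c := fun j =>
          hq (Sum.inl (i, j)) (Finset.inl_mem_disjSum.2
            (Finset.mem_product.2 ⟨hi, Finset.mem_univ _⟩))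
        choose k hk using h1
        refine ⟨k, ?_⟩
        simp only [fam]
        rw [if_pos hi, polyPD_pr_coe]
        refine Finset.prod_congr rfl fun j _ => ?_
        rw [hk])
  have h1 := hR (Sum.elim (fun m => q0 m.1 m.2) p) v
  have h2 : fam (Sum.elim (fun m => q0 m.1 m.2) p) = a := by
    funext i
    by_cases hi : i ∈ Act
    · simp only [fam]
      rw [if_pos hi]
      exact hq0 i hi
    · simp only [fam]
      rw [if_neg hi]
  have h3 : let' (Sum.elim (fun m => q0 m.1 m.2) p) = p := rfl
  rw [h2, h3] at h1
  exact h1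

private theorem let_core {J : Type*} [Fintype J] [DecidableEq J] (Act : Finset I)
    (E : (J → Sd r 1) → (C → Sd r 1) → (I → Sd r (e + 1)) → ℂ)
    (hp : ∀ v a, MulAt (Finset.univ : Finset J) (fun p => E p v a))
    (hv : ∀ p a, MulAt (Finset.univ : Finset C) (fun v => E p v a))
    (ha : ∀ p v, MulAt Act (fun a => E p v a))
    (hgood : ∀ i ∈ Act, ∀ p v a (a' : Sd r e) (w : Sd r 1),
      E p v (update a i (muP r e a' w))
        = ∑ c, E p (update v c w) (update a i (muP r e a' (v c))))
    (hgp : ∀ j p v a w, E (update p j w) v a = ∑ c, E (update p j (v c)) (update v c w) a)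
    (hbase : ∀ p v a, (∀ j, ∃ c, p j = v c) →
      (∀ i ∈ Act, ∃ k : Fin (e + 1) → C, (a i : MvPolynomial (Fin r) ℂ)
        = ∏ j, (v (k j) : MvPolynomial (Fin r) ℂ)) → E p v a = 0) :
    ∀ p v a, E p v a = 0 := by
  intro p v a
  have main : ∀ T : Finset I, T ⊆ Act → ∀ a : I → Sd r (e + 1),
      (∀ i ∈ Act, i ∉ T → a i ∈ Set.range (polyPD_pr r e)) → E p v a = 0 := by
    intro T
    induction T using Finset.induction_on with
    | empty =>
      intro _ a haa
      exact let_core_prod Act E hp hv ha hgood hgp hbase p v a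
        (fun i hi => haa i hi (Finset.notMem_empty i))
    | insert i₀ T hi₀ ih =>
      intro hT a haa
      have hi₀A : i₀ ∈ Act := hT (Finset.mem_insert_self _ _)
      have hTA : T ⊆ Act := fun k hk => hT (Finset.mem_insert_of_mem hk)
      have key : ∀ u ∈ Submodule.span ℂ (Set.range (polyPD_pr r e)),
          E p v (update a i₀ u) = 0 := by
        intro u hu
        induction hu using Submodule.span_induction with
        | mem y hy =>
          refine ih hTA (update a i₀ y) fun i hi hiT => ?_
          by_cases hii : i = i₀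
          · subst hii
            rw [update_self]
            exact hy
          · rw [update_of_ne hii]
            refine haa i hi fun h5 => ?_
            rcases Finset.mem_insert.1 h5 with h6 | h6
            · exact hii h6
            · exact hiT h6
        | zero => exact PV_zero (ha p v) hi₀A a
        | add y y' _ _ h1 h2 => rw [(ha p v).add i₀ hi₀A, h1, h2, add_zero]
        | smul c y _ h1 => rw [(ha p v).smul i₀ hi₀A, h1, mul_zero]
      have h1 := key (a i₀) (polyPD_span r e (a i₀))
      rwa [update_eq_self] at h1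
  exact main Act (Finset.Subset.refl _) a (fun i hi hi' => absurd hi hi')

theorem RL_slots_b (Act : Finset I)
    (G : Sd r e → (C → Sd r 1) → (I → Sd r (e + 1)) → ℂ)
    (hb : ∀ v a, (∀ b b', G (b + b') v a = G b v a + G b' v a) ∧
      ∀ (c : ℂ) b, G (c • b) v a = c * G b v a)
    (hv : ∀ b a, MulAt (Finset.univ : Finset C) (fun v => G b v a))
    (ha : ∀ b v, MulAt Act (fun a => G b v a))
    (hgood : ∀ i ∈ Act, ∀ b v a (a' : Sd r e) (w : Sd r 1),
      G b v (update a i (muP r e a' w))
        = ∑ c, G b (update v c w) (update a i (muP r e a' (v c))))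
    (hgoodb : ∀ (b'' : MvPolynomial (Fin r) ℂ) (β : Sd r 1 → Sd r e),
      (∀ u : Sd r 1, (β u : MvPolynomial (Fin r) ℂ) = b'' * (u : MvPolynomial (Fin r) ℂ)) →
      ∀ v a w, G (β w) v a = ∑ c, G (β (v c)) (update v c w) a)
    (hbase : ∀ (b : Sd r e) v a, (∃ k : Fin e → C, (b : MvPolynomial (Fin r) ℂ)
        = ∏ j, (v (k j) : MvPolynomial (Fin r) ℂ)) →
      (∀ i ∈ Act, ∃ k : Fin (e + 1) → C, (a i : MvPolynomial (Fin r) ℂ)
        = ∏ j, (v (k j) : MvPolynomial (Fin r) ℂ)) → G b v a = 0) :
    ∀ b v a, G b v a = 0 := by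
  intro b v a
  have h0 := let_core Act (fun (p : Fin e → Sd r 1) v a => G (letPr r e p) v a)
    (by
      intro v a
      refine ⟨?_, ?_⟩
      · intro j _ p u u'
        obtain ⟨b'', hb''⟩ := letPr_upd r e p j
        have h1 : letPr r e (update p j (u + u')) =
            letPr r e (update p j u) + letPr r e (update p j u') := by
          apply Subtype.ext
          rw [Submodule.coe_add, hb'', hb'', hb'', Submodule.coe_add, mul_add]
        show G (letPr r e (update p j (u + u'))) v a =
          G (letPr r e (update p j u)) v a + G (letPr r e (update p j u')) v a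
        rw [h1, (hb v a).1]
      · intro j _ p c u
        obtain ⟨b'', hb''⟩ := letPr_upd r e p j
        have h1 : letPr r e (update p j (c • u)) = c • letPr r e (update p j u) := by
          apply Subtype.ext
          rw [Submodule.coe_smul, hb'', hb'', Submodule.coe_smul, mul_smul_comm]
        show G (letPr r e (update p j (c • u))) v a = c * G (letPr r e (update p j u)) v a
        rw [h1, (hb v a).2])
    (fun p a => hv (letPr r e p) a)
    (fun p v => ha (letPr r e p) v)
    (fun i hi p v a a' w => hgood i hi (letPr r e p) v a a' w)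
    (by
      intro j p v a w
      obtain ⟨b'', hb''⟩ := letPr_upd r e p j
      exact hgoodb b'' (fun u => letPr r e (update p j u)) hb'' v a w)
    (by
      intro p v a hpp haa
      refine hbase (letPr r e p) v a ?_ haa
      choose k hk using hpp
      refine ⟨k, ?_⟩
      rw [letPr_coe]
      exact Finset.prod_congr rfl fun j _ => by rw [hk])
  have key : ∀ u ∈ Submodule.span ℂ (Set.range (letPr r e)), G u v a = 0 := by
    intro u hu
    induction hu using Submodule.span_induction with
    | mem y hy =>
      obtain ⟨p, rfl⟩ := hy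
      exact h0 p v a
    | zero =>
      have h1 := (hb v a).2 0 0
      rwa [zero_smul, zero_mul] at h1
    | add y y' _ _ h1 h2 => rw [(hb v a).1, h1, h2, add_zero]
    | smul c y _ h1 => rw [(hb v a).2, h1, mul_zero]
  exact key b (letPr_span r e b)

theorem RL_slots_xz (Act : Finset I)
    (G : Sd r 1 → Sd r 1 → (C → Sd r 1) → (I → Sd r (e + 1)) → ℂ)
    (hx : ∀ z v a, (∀ x x', G (x + x') z v a = G x z v a + G x' z v a) ∧
      ∀ (c : ℂ) x, G (c • x) z v a = c * G x z v a)
    (hz : ∀ x v a, (∀ z z', G x (z + z') v a = G x z v a + G x z' v a) ∧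
      ∀ (c : ℂ) z, G x (c • z) v a = c * G x z v a)
    (hv : ∀ x z a, MulAt (Finset.univ : Finset C) (fun v => G x z v a))
    (ha : ∀ x z v, MulAt Act (fun a => G x z v a))
    (hgood : ∀ i ∈ Act, ∀ x z v a (a' : Sd r e) (w : Sd r 1),
      G x z v (update a i (muP r e a' w))
        = ∑ c, G x z (update v c w) (update a i (muP r e a' (v c))))
    (hgx : ∀ z v a w, G w z v a = ∑ c, G (v c) z (update v c w) a)
    (hgz : ∀ x v a w, G x w v a = ∑ c, G x (v c) (update v c w) a)
    (hbase : ∀ x z v a, (∃ c, x = v c) → (∃ c, z = v c) →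
      (∀ i ∈ Act, ∃ k : Fin (e + 1) → C, (a i : MvPolynomial (Fin r) ℂ)
        = ∏ j, (v (k j) : MvPolynomial (Fin r) ℂ)) → G x z v a = 0) :
    ∀ x z v a, G x z v a = 0 := by
  intro x z v a
  have e0 : ∀ (p : Fin 2 → Sd r 1) (u : Sd r 1),
      update p 0 u 0 = u ∧ update p 0 u 1 = p 1 ∧ update p 1 u 0 = p 0 ∧
        update p 1 u 1 = u := by
    intro p u
    refine ⟨update_self _ _ _, update_of_ne (by decide) _ _, update_of_ne (by decide) _ _,
      update_self _ _ _⟩
  have h0 := let_core Act (fun (p : Fin 2 → Sd r 1) v a => G (p 0) (p 1) v a)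
    (by
      intro v a
      refine ⟨?_, ?_⟩
      · intro j _ p u u'
        fin_cases j
        · show G (update p 0 (u + u') 0) (update p 0 (u + u') 1) v a =
            G (update p 0 u 0) (update p 0 u 1) v a +
            G (update p 0 u' 0) (update p 0 u' 1) v a
          rw [(e0 _ _).1, (e0 _ _).2.1, (e0 _ _).1, (e0 _ _).2.1, (e0 _ _).1, (e0 _ _).2.1,
            (hx _ _ _).1]
        · show G (update p 1 (u + u') 0) (update p 1 (u + u') 1) v a =
            G (update p 1 u 0) (update p 1 u 1) v a +
            G (update p 1 u' 0) (update p 1 u' 1) v a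
          rw [(e0 _ _).2.2.1, (e0 _ _).2.2.2, (e0 _ _).2.2.1, (e0 _ _).2.2.2, (e0 _ _).2.2.1,
            (e0 _ _).2.2.2, (hz _ _ _).1]
      · intro j _ p c u
        fin_cases j
        · show G (update p 0 (c • u) 0) (update p 0 (c • u) 1) v a =
            c * G (update p 0 u 0) (update p 0 u 1) v a
          rw [(e0 _ _).1, (e0 _ _).2.1, (e0 _ _).1, (e0 _ _).2.1, (hx _ _ _).2]
        · show G (update p 1 (c • u) 0) (update p 1 (c • u) 1) v a =
            c * G (update p 1 u 0) (update p 1 u 1) v a
          rw [(e0 _ _).2.2.1, (e0 _ _).2.2.2, (e0 _ _).2.2.1, (e0 _ _).2.2.2, (hz _ _ _).2])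
    (fun p a => hv (p 0) (p 1) a)
    (fun p v => ha (p 0) (p 1) v)
    (fun i hi p v a a' w => hgood i hi (p 0) (p 1) v a a' w)
    (by
      intro j p v a w
      fin_cases j
      · show G (update p 0 w 0) (update p 0 w 1) v a =
          ∑ c, G (update p 0 (v c) 0) (update p 0 (v c) 1) (update v c w) a
        rw [(e0 _ _).1, (e0 _ _).2.1, hgx]
        refine Finset.sum_congr rfl fun c _ => ?_
        rw [(e0 _ _).1, (e0 _ _).2.1]
      · show G (update p 1 w 0) (update p 1 w 1) v a =
          ∑ c, G (update p 1 (v c) 0) (update p 1 (v c) 1) (update v c w) a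
        rw [(e0 _ _).2.2.1, (e0 _ _).2.2.2, hgz]
        refine Finset.sum_congr rfl fun c _ => ?_
        rw [(e0 _ _).2.2.1, (e0 _ _).2.2.2])
    (by
      intro p v a hpp haa
      exact hbase (p 0) (p 1) v a (hpp 0) (hpp 1) haa)
  exact h0 ![x, z] v a

end Pool.Agent.H20.S2
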