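import Pool.Agent.H20.S2.P2

/-!
# Job S2-08 : substitution of three linear forms, application of the `P²`-lemma

`sub3 v j : Sd 3 j →ₗ Sd r j` substitutes the linear forms `v 0, v 1, v 2` for the variables
(`aeval`; `IsHomogeneous` of the image: a form of degree `j` is a combination of monomials of
degree `j`, whose images are products of `j` linear forms).  It is compatible with
multiplication (`sub3_mu`) and sends products of variables to products of the `v c` (`sub3_pr`).

`P2_apply`: fix `a₀, X₀, Z₀` as in the statement (`a₀ i = sub3 v _ (b i)` for `i ∈ Act`,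
`X₀ l = sub3 v 1 x'`, `Z₀ l = sub3 v 1 z'`).  The function
`F' a X Z = F (fun i => if i ∈ Act then sub3 v _ (a i) else a₀ i)
(update X₀ l (sub3 v 1 (X ()))) (update Z₀ l (sub3 v 1 (Z ())))`
satisfies `HLH (polyPD 3 e) row t Act univ` (all fields from `h`, with `HLBase_comp`-like lemmas for
the swaps and `polyPD_mu`, `sub3_mu` for `jac`), so it is `0` by `P2`; evaluate at `b, x', z'`.
-/

open MvPolynomial Function

namespace Pool.Agent.H20.S2

open Pool.Agent.H39.OP Pool.Agent.H27.OP

/-- substitution of linear forms for the three variables -/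
noncomputable def sub3 {r : ℕ} (v : Fin 3 → Sd r 1) (j : ℕ) : Sd 3 j →ₗ[ℂ] Sd r j :=
  LinearMap.codRestrict _
    ((aeval (fun i => (v i : MvPolynomial (Fin r) ℂ))).toLinearMap.comp (Submodule.subtype _))
    (by
      intro p
      rw [mem_homogeneousSubmodule]
      have h1 := IsHomogeneous.aeval ((mem_homogeneousSubmodule _ _).mp p.2)
        (fun i => (v i : MvPolynomial (Fin r) ℂ))
        (fun i => (mem_homogeneousSubmodule _ _).mp (v i).2)
      rw [one_mul] at h1
      exact h1)

theorem sub3_coe {r : ℕ} (v : Fin 3 → Sd r 1) (j : ℕ) (p : Sd 3 j) :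
    ((sub3 v j p : Sd r j) : MvPolynomial (Fin r) ℂ) =
      aeval (fun i => (v i : MvPolynomial (Fin r) ℂ)) (p : MvPolynomial (Fin 3) ℂ) := rfl

theorem sub3_mu {r e : ℕ} (v : Fin 3 → Sd r 1) (b : Sd 3 e) (u : Sd 3 1) :
    sub3 v (e + 1) (muP 3 e b u) = muP r e (sub3 v e b) (sub3 v 1 u) := by
  apply Subtype.ext
  rw [sub3_coe, muP_coe, muP_coe, map_mul, sub3_coe, sub3_coe]

theorem sub3_X {r : ℕ} (v : Fin 3 → Sd r 1) (c : Fin 3) :
    ∃ u : Sd 3 1, sub3 v 1 u = v c := by
  refine ⟨⟨X c, (mem_homogeneousSubmodule _ _).mpr (isHomogeneous_X _ _)⟩, ?_⟩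
  apply Subtype.ext
  rw [sub3_coe]
  exact aeval_X _ c

/-- products of the `v c` are in the image -/
theorem sub3_pr {r j : ℕ} (v : Fin 3 → Sd r 1) (k : Fin j → Fin 3) (a : Sd r j)
    (ha : (a : MvPolynomial (Fin r) ℂ) = ∏ i, (v (k i) : MvPolynomial (Fin r) ℂ)) :
    ∃ b : Sd 3 j, sub3 v j b = a := by
  refine ⟨⟨∏ i, X (k i), ?_⟩, ?_⟩
  · rw [mem_homogeneousSubmodule]
    have h := IsHomogeneous.prod (Finset.univ : Finset (Fin j))
      (fun i => (X (k i) : MvPolynomial (Fin 3) ℂ)) (fun _ => 1)
      (fun i _ => isHomogeneous_X _ _)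
    simpa using h
  · apply Subtype.ext
    rw [sub3_coe, ha]
    show aeval _ (∏ i, X (k i)) = _
    rw [map_prod]
    exact Finset.prod_congr rfl fun i _ => aeval_X _ _

/-- swapping two active slots commutes with substitution -/
theorem sub3_swap_mem {I : Type*} [DecidableEq I] {Act : Finset I} {i j : I} (hi : i ∈ Act)
    (hj : j ∈ Act) (m : I) : Equiv.swap i j m ∈ Act ↔ m ∈ Act := by
  by_cases h1 : m = i
  · subst h1
    rw [Equiv.swap_apply_left]
    exact ⟨fun _ => hi, fun _ => hj⟩
  · by_cases h2 : m = j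
    · subst h2
      rw [Equiv.swap_apply_right]
      exact ⟨fun _ => hj, fun _ => hi⟩
    · rw [Equiv.swap_apply_of_ne_of_ne h1 h2]

theorem sub3_comp {I A B : Type*} [DecidableEq I] {Act : Finset I} {i j : I} (hi : i ∈ Act)
    (hj : j ∈ Act) (g : B → A) (b : I → B) (a : I → A) :
    (fun m => if m ∈ Act then g ((b ∘ Equiv.swap i j) m) else a m) =
      (fun m => if m ∈ Act then g (b m) else a m) ∘ Equiv.swap i j := by
  funext m
  show (if m ∈ Act then g (b (Equiv.swap i j m)) else a m) =
    (if Equiv.swap i j m ∈ Act then g (b (Equiv.swap i j m)) else a (Equiv.swap i j m))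
  by_cases h : m ∈ Act
  · rw [if_pos h, if_pos ((sub3_swap_mem hi hj m).2 h)]
  · have h1 : m ≠ i := by rintro rfl; exact h hi
    have h2 : m ≠ j := by rintro rfl; exact h hj
    rw [if_neg h, if_neg (fun h3 => h ((sub3_swap_mem hi hj m).1 h3)),
      Equiv.swap_apply_of_ne_of_ne h1 h2]

theorem sub3_fam_upd {I A B : Type*} [DecidableEq I] {Act : Finset I} (g : B → A) (b : I → B)
    (a : I → A) {m : I} (hm : m ∈ Act) (u : B) :
    (fun i => if i ∈ Act then g (update b m u i) else a i) =
      update (fun i => if i ∈ Act then g (b i) else a i) m (g u) := by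
  funext i
  by_cases hi : i = m
  · subst hi
    rw [update_self, update_self, if_pos hm]
  · rw [update_of_ne hi, update_of_ne hi]

theorem P2_apply {r e : ℕ} {I Ω ρ : Type*} [DecidableEq I] [DecidableEq Ω] [DecidableEq ρ]
    {row : I → ρ} {t : I}
    {Act : Finset I} {Om : Finset Ω} {F : (I → Sd r (e + 1)) → (Ω → Sd r 1) → (Ω → Sd r 1) → ℂ}
    (h : HLH (polyPD r e) row t Act Om F) {l : Ω} (hl : l ∈ Om)
    (hrows : e + 3 ≤ (Act.image row).card)
    (hs : 3 ≤ (Act.filter (fun i => ∀ j ∈ Act, row j = row i → j = i)).card)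
    (v : Fin 3 → Sd r 1) (a : I → Sd r (e + 1)) (X Z : Ω → Sd r 1)
    (ha : ∀ i ∈ Act, ∃ b, sub3 v (e + 1) b = a i) (hX : ∃ x, sub3 v 1 x = X l)
    (hZ : ∃ z, sub3 v 1 z = Z l) : F a X Z = 0 := by
  have hb0 : ∀ i, ∃ b, i ∈ Act → sub3 v (e + 1) b = a i := by
    intro i
    by_cases hi : i ∈ Act
    · obtain ⟨b, hb⟩ := ha i hi
      exact ⟨b, fun _ => hb⟩
    · exact ⟨0, fun h' => absurd h' hi⟩
  choose b0 hb0 using hb0
  obtain ⟨x0, hx0⟩ := hX
  obtain ⟨z0, hz0⟩ := hZ
  have hH : HLH (polyPD 3 e) row t Act (Finset.univ : Finset Unit)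
      (fun (a' : I → Sd 3 (e + 1)) (X' Z' : Unit → Sd 3 1) =>
        F (fun i => if i ∈ Act then sub3 v (e + 1) (a' i) else a i)
          (update X l (sub3 v 1 (X' ()))) (update Z l (sub3 v 1 (Z' ())))) := by
    refine ⟨h.tAct, h.trow, ?_, ?_, ?_, ?_, ?_, ?_⟩
    · intro X' Z'
      constructor
      · intro m hm q u w
        show F (fun i => if i ∈ Act then sub3 v (e + 1) (update q m (u + w) i) else a i) _ _ = _
        rw [sub3_fam_upd _ q a hm, map_add, (h.mulA _ _).add m hm, sub3_fam_upd _ q a hm,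
          sub3_fam_upd _ q a hm]
      · intro m hm q c u
        show F (fun i => if i ∈ Act then sub3 v (e + 1) (update q m (c • u) i) else a i) _ _ = _
        rw [sub3_fam_upd _ q a hm, map_smul, (h.mulA _ _).smul m hm, sub3_fam_upd _ q a hm]
    · intro a' Z'
      constructor
      · intro m _ q u w
        cases m
        simp only [update_self, map_add]
        exact (h.mulX _ _).add l hl X _ _
      · intro m _ q c u
        cases m
        simp only [update_self, map_smul]
        exact (h.mulX _ _).smul l hl X _ _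
    · intro m _ a' X' Z'
      cases m
      simp only [update_self]
      have h1 := h.alt l hl (fun i => if i ∈ Act then sub3 v (e + 1) (a' i) else a i)
        (update X l (sub3 v 1 (X' ()))) (update Z l (sub3 v 1 (Z' ())))
      rw [update_idem, update_idem, update_self, update_self] at h1
      exact h1
    · intro i hi j hj hij a' X' Z'
      show F (fun m => if m ∈ Act then sub3 v (e + 1) ((a' ∘ Equiv.swap i j) m) else a m) _ _ = _
      rw [sub3_comp hi hj (sub3 v (e + 1)) a' a, h.sym i hi j hj hij]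
    · intro y hy hyt a' X' Z'
      have h1 := h.gar y hy hyt (fun i => if i ∈ Act then sub3 v (e + 1) (a' i) else a i)
        (update X l (sub3 v 1 (X' ()))) (update Z l (sub3 v 1 (Z' ())))
      rw [← h1]
      congr 1
      refine Finset.sum_congr rfl fun y' hy' => ?_
      show F (fun m => if m ∈ Act then sub3 v (e + 1) ((a' ∘ Equiv.swap t y') m) else a m) _ _ = _
      rw [sub3_comp h.tAct (Finset.mem_filter.1 hy').1 (sub3 v (e + 1)) a' a]
    · intro m _ a' X' Z' b w x z
      cases m
      have h1 := h.jac l hl (fun i => if i ∈ Act then sub3 v (e + 1) (a' i) else a i) X Z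
        (sub3 v e b) (sub3 v 1 w) (sub3 v 1 x) (sub3 v 1 z)
      rw [polyPD_mu] at h1 ⊢
      simp only [update_self]
      rw [sub3_fam_upd _ a' a h.tAct, sub3_fam_upd _ a' a h.tAct, sub3_fam_upd _ a' a h.tAct,
        sub3_mu, sub3_mu, sub3_mu]
      exact h1
  have h2 := P2 hH hrows hs b0 (fun _ => x0) (fun _ => z0)
  have h3 : (fun i => if i ∈ Act then sub3 v (e + 1) (b0 i) else a i) = a := by
    funext i
    by_cases hi : i ∈ Act
    · rw [if_pos hi]
      exact hb0 i hi
    · rw [if_neg hi]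
  rw [h3, hx0, hz0, update_eq_self, update_eq_self] at h2
  exact h2

end Pool.Agent.H20.S2
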