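import Pool.Agent.H20.S2.Fam
import Pool.Agent.H20.S2.Let
import Pool.Agent.H20.S2.Sub
import Pool.Agent.H39.OP.HLBase

/-!
# Job S2-10 : the new hitting lemma (one bivector pays for two slots)

`HLH (polyPD r e)`, at least `e + 3` rows, at least three rows of length one, and
`|Act| + 1 ≤ 2 |Om| + #rows`.  Then `F = 0`.

PROOF.  Strong induction on `|Act|`.  `Om` is nonempty (`|Act| ≥ #rows`); let `l ∈ Om`.
Let `F₂ v a X Z = F a (update X l (v 0)) (update Z l (v 1))`, `v : Fin 2 → Sd r 1` (`Fbiv`).
`∀ v, HLH P row t Act (Om.erase l) (Fbiv F l v)` (`HLH_Fbiv`: fields of `h`; `update`s at `l' ≠ l`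
commute).  `hv`: multilinear in `v 0` (`h.mulX`) and in `v 1` (`h.alt` and `h.mulX`).
`GoodV P F₂ i` for a slot `i` good in the sense `Good P F i l` (`Fbiv_good`): the Jacobi identity
`F(w; x,z) + F(x; z,w) + F(z; w,x) = 0` with `h.alt` reads `F(w; x,z) = F(x; w,z) + F(z; x,w)`; and
conversely (`Fbiv_good'`).
CLAIM: every `y ∈ Act` is `Good P F y l`; then `HL_base` (needs `(e+1) + 2 ≤ #rows`).
* `y = t`: `h.jac`.  `y` single: `good_single`.
* `y ≠ t` not single.  We show `DfV P F₂ y b v a X Z = 0` for all `b : Sd r e`, `v : Option (Fin 2) → _`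
  (then `DfV_eq_zero`).  Fix `X Z`; apply `RL_slots_b` (with `C = Option (Fin 2)`,
  `Act' = Act.erase y`) to `G b v a = DfV P F₂ y b v a X Z`:
  - `hb`: linear in `b`: slot `y` of `F` is `mu b _`, `mu` linear, `h.mulA`.
  - `hv`: `DfV_lin`.  `ha`: `HLH_DfV`'s `mulA`.
  - `hgood` for `i ∈ Act.erase y`: single `i` (w.r.t. `Act.erase y`, this includes `i = t`): `t` is
    `GoodV` for `F₂`, so for `DfV` (`DfV_good`), then `good_singleV` with `HLH_DfV`.
    `i` not single in `Act.erase y`: `DfV P (DfV P F₂ y b) i b' v' = 0` by the induction hypothesis: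
    by `HLH_DfV` twice it is `HLH` with `Act' = (Act.erase y).erase i`, `Om' = Om.erase l`,
    `|Act'| = |Act| - 2`, `|Om'| = |Om| - 1`, the same rows (`image row` unchanged since `y` and
    then `i` are not alone in their rows), the single slots of `Act` remain single.
    (`t` is good for `DfV P F₂ y b` by `DfV_good`.)
  - `hgoodb`: `b = b'' u`: with `φ p q x z = F (a[y ↦ b'' p q]) .. x .. z` (`b'' p q ∈ Sd r (e+1)`
    symmetric in `p, q`) the identity is
    `Ψ(b''u; w,v) = Ψ(b''w; u,v) + ∑_c Ψ(b'' v_c; w, v[c ↦ u])`,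
    `Ψ(b;w,v) = F(bw; v) - ∑_c F(b v_c; v[c ↦ w])`, `v = (v 0, v 1)`: expand all sums over `Fin 2`
    (and `Option (Fin 2)`), use the symmetry `b'' p q = b'' q p` and `alt`:
    `φ v0 v1 (u, w) + φ v0 v1 (w, u) = 0`.
  - `hbase`: `b` and all `a i` products of the `v c`, `c : Option (Fin 2)`.  Each of the three values
    of `F` in `DfV` has all slots of `Act` in the image of `sub3` and the bivector `l` consists of two
    of the `v c`; `P2_apply` (apply it with `v' = ![v none, v (some 0), v (some 1)]`, `sub3_pr`,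
    `sub3_X`; `muP b (v none)` is again a product of `e + 1` of the `v c`).
-/

open MvPolynomial Function

namespace Pool.Agent.H20.S2

open Pool.Agent.H39.OP Pool.Agent.H27.OP

variable {U A A' : Type*} [AddCommGroup U] [Module ℂ U] [AddCommGroup A] [Module ℂ A]
    [AddCommGroup A'] [Module ℂ A'] {D : ℕ} {P : PD U A A' D}
    {I Ω ρ : Type*} [DecidableEq I] [DecidableEq Ω] [DecidableEq ρ]

/-- the bivector `l` as vector argument -/
def Fbiv (F : (I → A) → (Ω → U) → (Ω → U) → ℂ) (l : Ω) :
    (Fin 2 → U) → (I → A) → (Ω → U) → (Ω → U) → ℂ := fun v a X Z =>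
  F a (update X l (v 0)) (update Z l (v 1))

private theorem HLT_alt {row : I → ρ} {t : I} {Act : Finset I} {Om : Finset Ω}
    {F : (I → A) → (Ω → U) → (Ω → U) → ℂ} (h : HLH P row t Act Om F) {l : Ω} (hl : l ∈ Om)
    (a : I → A) (X Z : Ω → U) (x z : U) :
    F a (update X l z) (update Z l x) = - F a (update X l x) (update Z l z) := by
  have h1 := h.alt l hl a (update X l x) (update Z l z)
  rw [update_idem, update_idem, update_self, update_self] at h1
  exact h1

theorem HLH_Fbiv {row : I → ρ} {t : I} {Act : Finset I} {Om : Finset Ω}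
    {F : (I → A) → (Ω → U) → (Ω → U) → ℂ} (h : HLH P row t Act Om F) {l : Ω} (hl : l ∈ Om)
    (v : Fin 2 → U) : HLH P row t Act (Om.erase l) (Fbiv F l v) := by
  refine ⟨h.tAct, h.trow, ?_, ?_, ?_, ?_, ?_, ?_⟩
  · intro X Z
    exact h.mulA (update X l (v 0)) (update Z l (v 1))
  · intro a Z
    constructor
    · intro m hm q u w
      have hne : m ≠ l := Finset.ne_of_mem_erase hm
      simp only [Fbiv, update_comm hne]
      exact (h.mulX a (update Z l (v 1))).add m (Finset.mem_of_mem_erase hm) (update q l (v 0)) u w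
    · intro m hm q c u
      have hne : m ≠ l := Finset.ne_of_mem_erase hm
      simp only [Fbiv, update_comm hne]
      exact (h.mulX a (update Z l (v 1))).smul m (Finset.mem_of_mem_erase hm)
        (update q l (v 0)) c u
  · intro l' hl' a X Z
    have hne : l' ≠ l := Finset.ne_of_mem_erase hl'
    have h1 := h.alt l' (Finset.mem_of_mem_erase hl') a (update X l (v 0)) (update Z l (v 1))
    rw [update_of_ne hne, update_of_ne hne] at h1
    simp only [Fbiv]
    rw [update_comm hne, update_comm hne]
    exact h1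
  · intro i hi j hj hr a X Z
    exact h.sym i hi j hj hr a (update X l (v 0)) (update Z l (v 1))
  · intro y hy hrt a X Z
    exact h.gar y hy hrt a (update X l (v 0)) (update Z l (v 1))
  · intro l' hl' a X Z a' w x z
    have hne : l' ≠ l := Finset.ne_of_mem_erase hl'
    simp only [Fbiv, update_comm hne]
    exact h.jac l' (Finset.mem_of_mem_erase hl') a (update X l (v 0)) (update Z l (v 1)) a' w x z

theorem Fbiv_lin {row : I → ρ} {t : I} {Act : Finset I} {Om : Finset Ω}
    {F : (I → A) → (Ω → U) → (Ω → U) → ℂ} (h : HLH P row t Act Om F) {l : Ω} (hl : l ∈ Om)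
    (a : I → A) (X Z : Ω → U) :
    MulAt (Finset.univ : Finset (Fin 2)) (fun v => Fbiv F l v a X Z) := by
  have h01 : (0 : Fin 2) ≠ 1 := by decide
  have h10 : (1 : Fin 2) ≠ 0 := by decide
  constructor
  · intro m _ q u v
    fin_cases m
    · show F a (update X l (update q 0 (u + v) 0)) (update Z l (update q 0 (u + v) 1)) =
        F a (update X l (update q 0 u 0)) (update Z l (update q 0 u 1))
        + F a (update X l (update q 0 v 0)) (update Z l (update q 0 v 1))
      simp only [update_self, update_of_ne h10]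
      exact (h.mulX a (update Z l (q 1))).add l hl X u v
    · show F a (update X l (update q 1 (u + v) 0)) (update Z l (update q 1 (u + v) 1)) =
        F a (update X l (update q 1 u 0)) (update Z l (update q 1 u 1))
        + F a (update X l (update q 1 v 0)) (update Z l (update q 1 v 1))
      simp only [update_self, update_of_ne h01]
      rw [HLT_alt h hl a X Z (u + v) (q 0), HLT_alt h hl a X Z u (q 0), HLT_alt h hl a X Z v (q 0)]
      have h1 := (h.mulX a (update Z l (q 0))).add l hl X u v
      linear_combination -h1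
  · intro m _ q c u
    fin_cases m
    · show F a (update X l (update q 0 (c • u) 0)) (update Z l (update q 0 (c • u) 1)) =
        c * F a (update X l (update q 0 u 0)) (update Z l (update q 0 u 1))
      simp only [update_self, update_of_ne h10]
      exact (h.mulX a (update Z l (q 1))).smul l hl X c u
    · show F a (update X l (update q 1 (c • u) 0)) (update Z l (update q 1 (c • u) 1)) =
        c * F a (update X l (update q 1 u 0)) (update Z l (update q 1 u 1))
      simp only [update_self, update_of_ne h01]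
      rw [HLT_alt h hl a X Z (c • u) (q 0), HLT_alt h hl a X Z u (q 0)]
      have h1 := (h.mulX a (update Z l (q 0))).smul l hl X c u
      linear_combination -h1

omit [AddCommGroup U] [Module ℂ U] [AddCommGroup A] [Module ℂ A] in
private theorem HLT_sum (F : (I → A) → (Ω → U) → (Ω → U) → ℂ) (l : Ω) (i : I) (v : Fin 2 → U)
    (a : I → A) (X Z : Ω → U) (w : U) (g : U → A) :
    ∑ c, Fbiv F l (update v c w) (update a i (g (v c))) X Z
      = F (update a i (g (v 0))) (update X l w) (update Z l (v 1))
        + F (update a i (g (v 1))) (update X l (v 0)) (update Z l w) := by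
  have h01 : (0 : Fin 2) ≠ 1 := by decide
  have h10 : (1 : Fin 2) ≠ 0 := by decide
  rw [Fin.sum_univ_two]
  simp only [Fbiv, update_self, update_of_ne h01, update_of_ne h10]

theorem Fbiv_good_iff {row : I → ρ} {t : I} {Act : Finset I} {Om : Finset Ω}
    {F : (I → A) → (Ω → U) → (Ω → U) → ℂ} (h : HLH P row t Act Om F) {l : Ω} (hl : l ∈ Om)
    (i : I) : GoodV P (Fbiv F l) i ↔ Good P F i l := by
  constructor
  · intro hg a X Z a' w x z
    have h1 := hg ![x, z] a X Z a' w
    rw [HLT_sum F l i ![x, z] a X Z w (fun u => P.mu a' u)] at h1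
    simp only [Fbiv, Matrix.cons_val_zero, Matrix.cons_val_one] at h1
    rw [HLT_alt h hl (update a i (P.mu a' x)) X Z w z,
      HLT_alt h hl (update a i (P.mu a' z)) X Z x w]
    linear_combination h1
  · intro hg v a X Z a' w
    rw [HLT_sum F l i v a X Z w (fun u => P.mu a' u)]
    have h1 := hg a X Z a' w (v 0) (v 1)
    rw [HLT_alt h hl (update a i (P.mu a' (v 0))) X Z w (v 1),
      HLT_alt h hl (update a i (P.mu a' (v 1))) X Z (v 0) w] at h1
    simp only [Fbiv]
    linear_combination h1

private theorem HLT_DfV {r e : ℕ} (F : (I → Sd r (e + 1)) → (Ω → Sd r 1) → (Ω → Sd r 1) → ℂ)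
    (l : Ω) (y : I) (b : Sd r e) (v : Option (Fin 2) → Sd r 1) (a : I → Sd r (e + 1))
    (X Z : Ω → Sd r 1) :
    DfV (polyPD r e) (Fbiv F l) y b v a X Z
      = F (update a y (muP r e b (v none))) (update X l (v (some 0))) (update Z l (v (some 1)))
        - F (update a y (muP r e b (v (some 0)))) (update X l (v none)) (update Z l (v (some 1)))
        - F (update a y (muP r e b (v (some 1)))) (update X l (v (some 0)))
            (update Z l (v none)) := by
  have h1 := HLT_sum F l y (fun c => v (some c)) a X Z (v none) (fun u => (polyPD r e).mu b u)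
  simp only [polyPD_mu] at h1
  simp only [DfV, polyPD_mu]
  rw [h1]
  simp only [Fbiv]
  ring

private theorem HLT_goodb {r e : ℕ} {row : I → ρ} {t : I} {Act : Finset I} {Om : Finset Ω}
    {F : (I → Sd r (e + 1)) → (Ω → Sd r 1) → (Ω → Sd r 1) → ℂ}
    (h : HLH (polyPD r e) row t Act Om F) {l : Ω} (hl : l ∈ Om) (y : I) (X Z : Ω → Sd r 1)
    (b'' : MvPolynomial (Fin r) ℂ) (β : Sd r 1 → Sd r e)
    (hβ : ∀ u : Sd r 1, (β u : MvPolynomial (Fin r) ℂ) = b'' * (u : MvPolynomial (Fin r) ℂ))
    (v : Option (Fin 2) → Sd r 1) (a : I → Sd r (e + 1)) (w : Sd r 1) :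
    DfV (polyPD r e) (Fbiv F l) y (β w) v a X Z
      = ∑ c, DfV (polyPD r e) (Fbiv F l) y (β (v c)) (update v c w) a X Z := by
  have hsym : ∀ p q : Sd r 1, muP r e (β p) q = muP r e (β q) p := by
    intro p q
    apply Subtype.ext
    rw [muP_coe, muP_coe, hβ, hβ]
    ring
  have e1 : ∀ c : Fin 2, update v none w (some c) = v (some c) := fun c =>
    update_of_ne (Option.some_ne_none c) _ _
  have e2 : ∀ c : Fin 2, update v (some c) w none = v none := fun c =>
    update_of_ne (Option.some_ne_none c).symm _ _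
  have e3 : update v (some 0) w (some (1 : Fin 2)) = v (some 1) := update_of_ne (by decide) _ _
  have e4 : update v (some 1) w (some (0 : Fin 2)) = v (some 0) := update_of_ne (by decide) _ _
  rw [Fintype.sum_option, Fin.sum_univ_two]
  simp only [HLT_DfV, update_self, e1, e2, e3, e4]
  rw [hsym w (v none), hsym w (v (some 0)), hsym w (v (some 1)), hsym (v (some 0)) (v none),
    hsym (v (some 1)) (v none), hsym (v (some 1)) (v (some 0)),
    HLT_alt h hl (update a y (muP r e (β (v (some 0))) (v (some 1)))) X Z w (v none)]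
  ring

private theorem HLT_base {r e : ℕ} {row : I → ρ} {t : I} {Act : Finset I} {Om : Finset Ω}
    {F : (I → Sd r (e + 1)) → (Ω → Sd r 1) → (Ω → Sd r 1) → ℂ}
    (h : HLH (polyPD r e) row t Act Om F) {l : Ω} (hl : l ∈ Om)
    (hrows : e + 3 ≤ (Act.image row).card)
    (hs : 3 ≤ (Act.filter (fun i => ∀ j ∈ Act, row j = row i → j = i)).card)
    (y : I) (X Z : Ω → Sd r 1) (b : Sd r e) (v : Option (Fin 2) → Sd r 1)
    (a : I → Sd r (e + 1))
    (hb : ∃ k : Fin e → Option (Fin 2), (b : MvPolynomial (Fin r) ℂ)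
        = ∏ j, (v (k j) : MvPolynomial (Fin r) ℂ))
    (ha : ∀ i ∈ Act.erase y, ∃ k : Fin (e + 1) → Option (Fin 2),
      (a i : MvPolynomial (Fin r) ℂ) = ∏ j, (v (k j) : MvPolynomial (Fin r) ℂ)) :
    DfV (polyPD r e) (Fbiv F l) y b v a X Z = 0 := by
  let v' : Fin 3 → Sd r 1 := ![v none, v (some 0), v (some 1)]
  have hv' : ∀ o : Option (Fin 2), ∃ c : Fin 3, v' c = v o := by
    intro o
    cases o with
    | none => exact ⟨0, rfl⟩
    | some c =>
      fin_cases c
      · exact ⟨1, rfl⟩
      · exact ⟨2, rfl⟩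
  choose g hg using hv'
  have hX : ∀ o : Option (Fin 2), ∃ u : Sd 3 1, sub3 v' 1 u = v o := by
    intro o
    obtain ⟨u, hu⟩ := sub3_X v' (g o)
    exact ⟨u, by rw [hu, hg]⟩
  have hpr : ∀ (j : ℕ) (p : Sd r j), (∃ k : Fin j → Option (Fin 2),
      (p : MvPolynomial (Fin r) ℂ) = ∏ i, (v (k i) : MvPolynomial (Fin r) ℂ)) →
      ∃ q : Sd 3 j, sub3 v' j q = p := by
    rintro j p ⟨k, hk⟩
    refine sub3_pr v' (fun i => g (k i)) p ?_
    rw [hk]
    exact Finset.prod_congr rfl fun i _ => by rw [hg]
  have key : ∀ o₀ o₁ o₂ : Option (Fin 2),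
      F (update a y (muP r e b (v o₀))) (update X l (v o₁)) (update Z l (v o₂)) = 0 := by
    intro o₀ o₁ o₂
    refine P2_apply h hl hrows hs v' _ _ _ ?_ ?_ ?_
    · intro i hi
      by_cases hiy : i = y
      · subst hiy
        rw [update_self]
        obtain ⟨b0, hb0⟩ := hpr e b hb
        obtain ⟨u, hu⟩ := hX o₀
        exact ⟨muP 3 e b0 u, by rw [sub3_mu, hb0, hu]⟩
      · rw [update_of_ne hiy]
        exact hpr (e + 1) (a i) (ha i (Finset.mem_erase.2 ⟨hiy, hi⟩))
    · rw [update_self]
      exact hX o₁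
    · rw [update_self]
      exact hX o₂
  rw [HLT_DfV, key, key, key]
  ring

private theorem HLT_image {row : I → ρ} {Act : Finset I} {y i : I} (hi : i ∈ Act)
    (hiy : row i = row y) (hne : i ≠ y) : (Act.erase y).image row = Act.image row := by
  ext r
  simp only [Finset.mem_image, Finset.mem_erase]
  constructor
  · rintro ⟨j, ⟨_, hj⟩, hr⟩
    exact ⟨j, hj, hr⟩
  · rintro ⟨j, hj, hr⟩
    by_cases hjy : j = y
    · exact ⟨i, ⟨hne, hi⟩, by rw [hiy, ← hjy, hr]⟩
    · exact ⟨j, ⟨hjy, hj⟩, hr⟩

private theorem HLT_filter {row : I → ρ} {Act : Finset I} {y : I}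
    (hrow : ¬ ∀ i ∈ Act, row i = row y → i = y) :
    (Act.filter (fun i => ∀ j ∈ Act, row j = row i → j = i)).card ≤
      ((Act.erase y).filter (fun i => ∀ j ∈ Act.erase y, row j = row i → j = i)).card := by
  refine Finset.card_le_card fun i hi => ?_
  obtain ⟨h1, h2⟩ := Finset.mem_filter.1 hi
  refine Finset.mem_filter.2 ⟨Finset.mem_erase.2 ⟨?_, h1⟩, fun j hj => h2 j
    (Finset.mem_of_mem_erase hj)⟩
  rintro rfl
  exact hrow h2

theorem HLT {r e : ℕ} {row : I → ρ} {t : I} : ∀ (n : ℕ) (Act : Finset I) (Om : Finset Ω)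
    (F : (I → Sd r (e + 1)) → (Ω → Sd r 1) → (Ω → Sd r 1) → ℂ), Act.card = n →
    HLH (polyPD r e) row t Act Om F → e + 3 ≤ (Act.image row).card →
    3 ≤ (Act.filter (fun i => ∀ j ∈ Act, row j = row i → j = i)).card →
    Act.card + 1 ≤ 2 * Om.card + (Act.image row).card →
    ∀ a X Z, F a X Z = 0 := by
  intro n
  induction n using Nat.strong_induction_on with
  | _ n ih =>
    intro Act Om F hn h hc hs hc2
    have himg : (Act.image row).card ≤ Act.card := Finset.card_image_le
    have hne : Om.Nonempty := by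
      rw [← Finset.card_pos]; omega
    obtain ⟨l, hl⟩ := hne
    refine HL_base h hl ?_ hc
    intro y hy
    by_cases hyt : y = t
    · subst hyt
      exact fun a X Z a' w x z => h.jac l hl a X Z a' w x z
    by_cases hrow : ∀ i ∈ Act, row i = row y → i = y
    · exact good_single h hy hyt hrow hl
    -- the defect
    have hrow' := hrow
    push Not at hrow'
    obtain ⟨i₀, hi₀, hi₀y, hne₀⟩ := hrow'
    have htgood : GoodV (polyPD r e) (Fbiv F l) t := by
      rw [Fbiv_good_iff h hl]
      exact fun a X Z a' w x z => h.jac l hl a X Z a' w x z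
    have hH : ∀ v, HLH (polyPD r e) row t Act (Om.erase l) (Fbiv F l v) := HLH_Fbiv h hl
    have hD : ∀ (b : Sd r e) (v : Option (Fin 2) → Sd r 1),
        HLH (polyPD r e) row t (Act.erase y) (Om.erase l) (DfV (polyPD r e) (Fbiv F l) y b v) :=
      fun b v => HLH_DfV hH htgood hy hyt b v
    have htD : ∀ b : Sd r e, GoodV (polyPD r e) (DfV (polyPD r e) (Fbiv F l) y b) t :=
      fun b => DfV_good (Ne.symm hyt) htgood b
    have himg2 : (Act.erase y).image row = Act.image row := HLT_image hi₀ hi₀y hne₀
    have hfil2 := HLT_filter (row := row) hrow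
    have hcy := Finset.card_erase_of_mem hy
    have hcl := Finset.card_erase_of_mem hl
    have hclp : 0 < Om.card := Finset.card_pos.mpr ⟨l, hl⟩
    have hgoodall : ∀ i ∈ Act.erase y, ∀ b : Sd r e,
        GoodV (polyPD r e) (DfV (polyPD r e) (Fbiv F l) y b) i := by
      intro i hi b
      by_cases hit : i = t
      · subst hit
        exact htD b
      by_cases hrowi : ∀ j ∈ Act.erase y, row j = row i → j = i
      · exact good_singleV (hD b) (htD b) hi hit hrowi
      have hrowi' := hrowi
      push Not at hrowi'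
      obtain ⟨i₁, hi₁, hi₁i, hne₁⟩ := hrowi'
      have himg3 : ((Act.erase y).erase i).image row = (Act.erase y).image row :=
        HLT_image hi₁ hi₁i hne₁
      have hfil3 := HLT_filter (row := row) hrowi
      have hci := Finset.card_erase_of_mem hi
      have hcip : 0 < (Act.erase y).card := Finset.card_pos.mpr ⟨i, hi⟩
      refine DfV_eq_zero fun a' v a X Z => ?_
      refine ih ((Act.erase y).erase i).card (by omega) ((Act.erase y).erase i) (Om.erase l)
        (DfV (polyPD r e) (DfV (polyPD r e) (Fbiv F l) y b) i a' v) rfl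
        (HLH_DfV (hD b) (htD b) hi hit a' v) ?_ (by omega) ?_ a X Z
      · rw [himg3, himg2]
        exact hc
      · rw [himg3, himg2]
        omega
    rw [← Fbiv_good_iff h hl]
    refine DfV_eq_zero fun b v a X Z => ?_
    refine RL_slots_b (Act.erase y)
      (fun b v a => DfV (polyPD r e) (Fbiv F l) y b v a X Z) ?_ ?_ ?_ ?_ ?_ ?_ b v a
    · -- linear in b
      intro v a
      refine ⟨fun b b' => ?_, fun c b => ?_⟩
      · simp only [HLT_DfV, map_add, LinearMap.add_apply, (h.mulA _ _).add y hy]
        ring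
      · simp only [HLT_DfV, map_smul, LinearMap.smul_apply, (h.mulA _ _).smul y hy]
        ring
    · intro b a
      exact DfV_lin (Fbiv_lin h hl) (fun v X Z => (hH v).mulA X Z) hy b a X Z
    · intro b v
      exact (hD b v).mulA X Z
    · intro i hi b v a a' w
      have h1 := hgoodall i hi b v a X Z a' w
      simp only [polyPD_mu] at h1
      exact h1
    · intro b'' β hβ v a w
      exact HLT_goodb h hl y X Z b'' β hβ v a w
    · intro b v a hb ha
      exact HLT_base h hl hc hs y X Z b v a hb ha

end Pool.Agent.H20.S2
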