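import Pool.Agent.H20.S2.NV

/-!
# Job S2-17 : the main induction

`count`: for a configuration `l` (rows nonempty, pairwise disjoint) let `q₂` be the number of rows of
length two (`= ((l.map Prod.fst).toFinset.filter (card = 2)).card`, as the rows are different),
`q₃` the number of rows of length `≥ 3` and `σ₃` the sum of their lengths: `l.length = sing l + q₂ + q₃`,
`wt l = sing l + 2 q₂ + σ₃`, `σ₃ ≥ 3 q₃` (induction on `l`).

`claim_stepS`: the step of the induction, with `HLB` instead of `HL`.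

`claim_all2`: induction on `s ≤ w` (`claim_small` if `e + 2 ≤ K - s`); for `s + 1` with
`K - (s+1) < e + 2`: `ClaimS (s+1) m` for all `m` by downward induction from `m = s + 2` (vacuous because
`sing l ≤ l.length = s + 1`); `Claim = ClaimS … 0`.
-/

open MvPolynomial Function

namespace Pool.Agent.H20.S2

open Pool.Agent.H39.OP Pool.Agent.H27.OP

theorem count {P : Type*} {l : List (Finset ℕ × List P)} (hne : ∀ q ∈ l, q.1.Nonempty)
    (hd : l.Pairwise (fun q q' => Disjoint q.1 q'.1)) :
    ∃ q₃ σ₃ : ℕ,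
      l.length = sing l + ((l.map Prod.fst).toFinset.filter (fun R => R.card = 2)).card + q₃ ∧
      wt l = sing l + 2 * ((l.map Prod.fst).toFinset.filter (fun R => R.card = 2)).card + σ₃ ∧
      3 * q₃ ≤ σ₃ := by
  classical
  induction l with
  | nil => exact ⟨0, 0, by simp [sing], by simp [sing, wt], by simp⟩
  | cons q l ih =>
    rw [List.pairwise_cons] at hd
    obtain ⟨q₃, σ₃, h1, h2, h3⟩ := ih (fun q' hq' => hne q' (List.mem_cons_of_mem _ hq')) hd.2
    have hq := hne q List.mem_cons_self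
    have hnm : q.1 ∉ (l.map Prod.fst).toFinset := by
      intro h
      rw [List.mem_toFinset, List.mem_map] at h
      obtain ⟨q', hq', h5⟩ := h
      obtain ⟨i, hi⟩ := hq
      exact Finset.disjoint_left.mp (hd.1 q' hq') hi (by rw [h5]; exact hi)
    have hpos := Finset.card_pos.mpr hq
    have hfil : (((q :: l).map Prod.fst).toFinset.filter (fun R => R.card = 2)).card
        = (if q.1.card = 2 then 1 else 0)
          + ((l.map Prod.fst).toFinset.filter (fun R => R.card = 2)).card := by
      rw [List.map_cons, List.toFinset_cons, Finset.filter_insert]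
      split_ifs with h
      · rw [Finset.card_insert_of_notMem (fun hh => hnm (Finset.mem_filter.mp hh).1), add_comm]
      · rw [zero_add]
    rw [hfil, List.length_cons, wt_cons, sing_cons]
    by_cases hc1 : q.1.card = 1
    · refine ⟨q₃, σ₃, ?_, ?_, h3⟩
      · rw [if_pos hc1, if_neg (by omega)]; omega
      · rw [if_pos hc1, if_neg (by omega)]; omega
    · by_cases hc2 : q.1.card = 2
      · refine ⟨q₃, σ₃, ?_, ?_, h3⟩
        · rw [if_neg hc1, if_pos hc2]; omega
        · rw [if_neg hc1, if_pos hc2]; omega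
      · refine ⟨q₃ + 1, σ₃ + q.1.card, ?_, ?_, by omega⟩
        · rw [if_neg hc1, if_neg hc2]; omega
        · rw [if_neg hc1, if_neg hc2]; omega

lemma sing_le_length {P : Type*} (l : List (Finset ℕ × List P)) : sing l ≤ l.length := by
  induction l with
  | nil => simp [sing]
  | cons q l ih =>
    rw [sing_cons, List.length_cons]
    split_ifs <;> omega

variable {r e : ℕ} {E : Type*} [AddCommGroup E] [Module ℂ E]
  (S : Fk (Fin r) ℂ (Module.End ℂ E) (e + 2))

theorem claim_stepS {κ₀ : E} (hκ₀ : S.del κ₀ = 0) {w K s m : ℕ} (hC : Claim S κ₀ w K s)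
    (hCS : ClaimS S κ₀ w K (s + 1) (m + 1)) (hK : s + 1 ≤ K)
    (hnum : (K - (s + 1) = e + 1 ∧ e + 3 ≤ s + 2 ∧ w + 2 ≤ 2 * (s + 1)) ∨
      (e + 3 ≤ s + 1 ∧ w + 4 ≤ 2 * (s + 1))) : ClaimS S κ₀ w K (s + 1) m := by
  intro l y g hlen hcfg hwt hm hg
  by_cases hms : m + 1 ≤ sing l
  · exact hCS l y g hlen hcfg hwt hms hg
  have hsm : sing l = m := by omega
  clear hms
  obtain ⟨q₃', σ₃', hc1', hc2', hc3'⟩ := count hcfg.ne hcfg.disj
  obtain ⟨q, hq, hq1⟩ : ∃ q ∈ l, q.1.card = 1 := exists_single (by omega)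
  clear hc1' hc2' hc3'
  obtain ⟨t, ht⟩ := Finset.card_eq_one.mp hq1
  obtain ⟨l₁, l₂, rfl⟩ := List.append_of_mem hq
  apply move_range
  have hperm : (l₁ ++ q :: l₂).Perm (q :: (l₁ ++ l₂)) := List.perm_middle
  have hcfg' := hcfg.perm hperm
  have hwt' : wt (q :: (l₁ ++ l₂)) = w := by rw [← wt_perm hperm, hwt]
  have hlen' : (q :: (l₁ ++ l₂)).length = s + 1 := by rw [← hperm.length_eq, hlen]
  have hsing' : sing (q :: (l₁ ++ l₂)) = m := by
    rw [← hsm]; exact ((hperm.map _).sum_eq).symm
  clear hcfg hwt hlen hperm hq hm hsm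
  obtain ⟨R, T₀⟩ := q
  simp only at ht
  subst ht
  generalize l₁ ++ l₂ = l' at *
  by_contra hcon
  obtain ⟨Φ, hΦ0, hΦ⟩ := Submodule.exists_le_ker_of_notMem hcon
  apply hΦ0
  have hΦ' : ∀ x, Φ (S.del x) = 0 := fun x => hΦ ⟨x, rfl⟩
  obtain ⟨row, hrow, hrow'⟩ := exists_row hcfg'.disj
  have hxz : ∀ i : ℕ, ∃ xz : Sd r 1 × Sd r 1, ∀ q ∈ ((({t} : Finset ℕ), T₀) :: l'), q.1 = {i} →
      q.2 = [((xz.2 : Sd r 1) : MvPolynomial (Fin r) ℂ), (xz.1 : MvPolynomial (Fin r) ℂ)] := by
    intro i
    by_cases h : ∃ q ∈ ((({t} : Finset ℕ), T₀) :: l'), q.1 = {i}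
    · obtain ⟨q, hq, hqi⟩ := h
      have h1 := hcfg'.len q hq
      rw [hqi, Finset.card_singleton] at h1
      obtain ⟨u, v, huv⟩ := List.length_eq_two.mp h1
      have h2 := hcfg'.hom q hq
      rw [huv] at h2
      refine ⟨(⟨v, (mem_homogeneousSubmodule _ _).mpr (h2 v (by simp))⟩,
        ⟨u, (mem_homogeneousSubmodule _ _).mpr (h2 u (by simp))⟩), ?_⟩
      intro q' hq' hqi'
      have h3 : q' = q := mem_unique hcfg'.disj hq' hq (i := i)
        (by rw [hqi']; exact Finset.mem_singleton_self i)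
        (by rw [hqi]; exact Finset.mem_singleton_self i)
      rw [h3, huv]
    · refine ⟨(0, 0), fun q hq hqi => absurd ⟨q, hq, hqi⟩ h⟩
  choose xz hxz using hxz
  have hTT : ∀ R : Finset ℕ, ∃ T : Fin 3 → Sd r 1, ∀ q ∈ ((({t} : Finset ℕ), T₀) :: l'),
      q.1 = R → R.card = 2 → q.2 = [((T 0 : Sd r 1) : MvPolynomial (Fin r) ℂ),
        ((T 1 : Sd r 1) : MvPolynomial (Fin r) ℂ), ((T 2 : Sd r 1) : MvPolynomial (Fin r) ℂ)] := by
    intro R
    by_cases h : ∃ q ∈ ((({t} : Finset ℕ), T₀) :: l'), q.1 = R ∧ R.card = 2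
    · obtain ⟨q, hq, hqR, hR2⟩ := h
      have h1 := hcfg'.len q hq
      rw [hqR, hR2] at h1
      obtain ⟨u, v, z, huv⟩ := List.length_eq_three.mp h1
      have h2 := hcfg'.hom q hq
      rw [huv] at h2
      refine ⟨![⟨u, (mem_homogeneousSubmodule _ _).mpr (h2 u (by simp))⟩,
        ⟨v, (mem_homogeneousSubmodule _ _).mpr (h2 v (by simp))⟩,
        ⟨z, (mem_homogeneousSubmodule _ _).mpr (h2 z (by simp))⟩], ?_⟩
      intro q' hq' hqR' _
      obtain ⟨i, hi⟩ := Finset.card_pos.mp (show 0 < R.card by omega)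
      have h3 : q' = q := mem_unique hcfg'.disj hq' hq (i := i)
        (by rw [hqR']; exact hi) (by rw [hqR]; exact hi)
      rw [h3, huv]
      simp
    · refine ⟨0, fun q hq hqR hR2 => absurd ⟨q, hq, hqR, hR2⟩ h⟩
  choose T hT using hTT
  have hmapT : ((({t} : Finset ℕ), T₀) :: l').map (thT T) = ((({t} : Finset ℕ), T₀) :: l') := by
    conv_rhs => rw [← List.map_id ((({t} : Finset ℕ), T₀) :: l')]
    apply List.map_congr_left
    intro q hq
    unfold thT
    split_ifs with h
    · rw [← hT q.1 q hq rfl h]; rfl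
    · rfl
  have hmap : ((({t} : Finset ℕ), T₀) :: l').map (rw' (fun i => (xz i).1) (fun i => (xz i).2))
      = ((({t} : Finset ℕ), T₀) :: l') := by
    conv_rhs => rw [← List.map_id ((({t} : Finset ℕ), T₀) :: l')]
    apply List.map_congr_left
    intro q hq
    unfold rw'
    split_ifs with h
    · obtain ⟨i, hi⟩ := Finset.card_eq_one.mp h
      have h4 := hxz i q hq hi
      rw [hi, Finset.sum_singleton, Finset.sum_singleton, ← h4, ← hi]
      rfl
    · rfl
  obtain ⟨q₃, σ₃, hc1, hc2, hc3⟩ := count hcfg'.ne hcfg'.disj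
  rw [hlen', hsing'] at hc1
  rw [hwt', hsing'] at hc2
  obtain ⟨hi1, hi2⟩ := card_image_row hcfg'.ne hcfg'.disj hrow
  have hom := card_om hcfg'.disj hrow
  rw [hsing'] at hom
  have hsl := card_slots hcfg'.disj
  have hlen2 : l'.length = s := by
    rw [List.length_cons] at hlen'; omega
  have hself : ∀ i ∈ slots ((({t} : Finset ℕ), T₀) :: l'), i ∈ row i := by
    intro i hi
    obtain ⟨q, hq, hiq⟩ := mem_slots.mp hi
    rw [hrow q hq i hiq]; exact hiq
  have hOm : ((slots ((({t} : Finset ℕ), T₀) :: l')).filter (fun i => row i = {i})).Nonempty := by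
    rw [← Finset.card_pos]; omega
  rcases hnum with ⟨hKe, hes, hw⟩ | ⟨hes, hw⟩
  · obtain ⟨f, hf⟩ := Infinite.exists_notMem_finset (slots ((({t} : Finset ℕ), T₀) :: l'))
    have hrf := hrow' f hf
    have hH := HLN_beta S Φ hΦ' hκ₀ hC hCS hK hKe hlen2 hcfg' hwt' hsing'.ge hrow hf hrf
    rw [hKe] at hg
    have himg : ((insert f (slots ((({t} : Finset ℕ), T₀) :: l'))).image row).card = s + 2 := by
      rw [Finset.image_insert, Finset.card_insert_of_notMem, hi1, hlen']
      intro h
      obtain ⟨q, hq, h5⟩ := hi2 _ h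
      rw [hrf] at h5
      apply hf
      refine mem_slots.mpr ⟨q, hq, ?_⟩
      rw [← h5]; exact Finset.mem_singleton_self f
    have hsub : insert f ((slots ((({t} : Finset ℕ), T₀) :: l')).filter (fun i => row i = {i}))
        ⊆ (insert f (slots ((({t} : Finset ℕ), T₀) :: l'))).filter
          (fun i => ∀ j ∈ insert f (slots ((({t} : Finset ℕ), T₀) :: l')), row j = row i → j = i) := by
      intro i hi
      have hi' : i ∈ insert f (slots ((({t} : Finset ℕ), T₀) :: l')) ∧ row i = {i} := by
        rw [Finset.mem_insert, Finset.mem_filter] at hi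
        rcases hi with rfl | hi
        · exact ⟨Finset.mem_insert_self _ _, hrf⟩
        · exact ⟨Finset.mem_insert_of_mem hi.1, hi.2⟩
      rw [Finset.mem_filter]
      refine ⟨hi'.1, fun j hj hji => ?_⟩
      have hj' : j ∈ row j := by
        rw [Finset.mem_insert] at hj
        rcases hj with rfl | hj
        · rw [hrf]; exact Finset.mem_singleton_self _
        · exact hself j hj
      rw [hji, hi'.2] at hj'
      exact Finset.mem_singleton.mp hj'
    have hfn : f ∉ (slots ((({t} : Finset ℕ), T₀) :: l')).filter (fun i => row i = {i}) :=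
      fun h => hf (Finset.mem_filter.mp h).1
    have hcs := Finset.card_le_card hsub
    rw [Finset.card_insert_of_notMem hfn] at hcs
    have := HLB _ _ _ _ rfl hH hOm (by rw [himg]; omega) (by omega)
      (Or.inr (by rw [himg, Finset.card_insert_of_notMem hf, hsl]; omega)) T
      (update y f ⟨g, (mem_homogeneousSubmodule _ _).mpr hg⟩)
      (fun i => (xz i).1) (fun i => (xz i).2)
    unfold FT FF at this
    rw [hmapT, hmap] at this
    dsimp only at this
    rw [update_self] at this
    have h6 : Pr S (fun i => ((update y f ⟨g, (mem_homogeneousSubmodule _ _).mpr hg⟩ i :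
        Sd r (e + 1)) : MvPolynomial (Fin r) ℂ)) ((({t} : Finset ℕ), T₀) :: l')
        = Pr S (fun i => (y i : MvPolynomial (Fin r) ℂ)) ((({t} : Finset ℕ), T₀) :: l') := by
      apply Pr_congr
      intro q hq i hi
      rw [update_of_ne]
      rintro rfl
      exact hf (mem_slots.mpr ⟨q, hq, hi⟩)
    rw [h6] at this
    exact this
  · have hH := HLN_alpha S Φ hΦ' hC hCS hK hlen2 hcfg' hwt' hsing'.ge hrow hg
    have hsub : (slots ((({t} : Finset ℕ), T₀) :: l')).filter (fun i => row i = {i})
        ⊆ (slots ((({t} : Finset ℕ), T₀) :: l')).filter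
          (fun i => ∀ j ∈ slots ((({t} : Finset ℕ), T₀) :: l'), row j = row i → j = i) := by
      intro i hi
      rw [Finset.mem_filter] at hi ⊢
      refine ⟨hi.1, fun j hj hji => ?_⟩
      have hj' := hself j hj
      rw [hji, hi.2] at hj'
      exact Finset.mem_singleton.mp hj'
    have hcs := Finset.card_le_card hsub
    have := HLB _ _ _ _ rfl hH hOm (by rw [hi1, hlen']; omega) (by omega)
      (Or.inr (by rw [hi1, hsl]; omega)) T y
      (fun i => (xz i).1) (fun i => (xz i).2)
    unfold FT FF at this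
    rw [hmapT, hmap] at this
    exact this

theorem claim_all2 {κ₀ : E} (hκ₀ : S.del κ₀ = 0) {w K : ℕ} (hwK : w ≤ K)
    (h2 : 2 * (e + 2) ≤ K + 1) (h3 : w + 2 * (e + 2) ≤ 2 * K) :
    ∀ s ≤ w, Claim S κ₀ w K s := by
  intro s
  induction s with
  | zero => intro _; exact claim_small S hκ₀ (by omega)
  | succ s ih =>
    intro hs
    by_cases h : e + 2 ≤ K - (s + 1)
    · exact claim_small S hκ₀ h
    · have hstep : ∀ m, ClaimS S κ₀ w K (s + 1) (m + 1) → ClaimS S κ₀ w K (s + 1) m := by
        intro m hm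
        refine claim_stepS S hκ₀ (ih (by omega)) hm (by omega) ?_
        by_cases h4 : K - (s + 1) = e + 1
        · left; exact ⟨h4, by omega, by omega⟩
        · right; exact ⟨by omega, by omega⟩
      have hall : ∀ k m, m + k = s + 2 → ClaimS S κ₀ w K (s + 1) m := by
        intro k
        induction k with
        | zero =>
          intro m hm l y g hlen _ _ hms _
          have := sing_le_length l
          omega
        | succ k ihk =>
          intro m hm
          exact hstep m (ihk (m + 1) (by omega))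
      intro l y g h5 h6 h7 h8
      exact hall (s + 2) 0 (by omega) l y g h5 h6 h7 (Nat.zero_le _) h8

end Pool.Agent.H20.S2
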