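import Pool.Agent.H20.S2.FX
import Pool.Agent.H20.S2.FO

/-!
# Job S2-16 : the functions `FT` satisfy the hypotheses `HLN`

`good_of_gar`: if `i ∉ R`, all `y ∈ R` are good and
`F v a X Z + ∑_{y ∈ R} F v (a ∘ swap i y) X Z = 0` for all arguments, then `i` is good:
`F v (update a i p) = - ∑_y F v ((update a i p) ∘ swap i y)` and
`(update a i p) ∘ swap i y = update (a ∘ swap i y) y p` (`HLGood_swap`); use goodness of `y` at
`a ∘ swap i y` and go back.

`HLN_alpha`, `HLN_beta`: fields of `HLN`: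
* `hl`: `HLH_alpha` / `HLH_beta` of `H39/OP/FHLH.lean` for the configuration `l.map (thT T)`
  (`thT T ({t}, T₀) = ({t}, T₀)`; `Cfg_thT`, `wt_thT`, `slots_thT`; `row` is the same function, `hrow`
  for `l.map (thT T)` from `thT_fst`).
* `mulT`: `FT_mulT`.  `tN`: `(row t).card = 1`.  `hN`: clear.
* `goodN` for `j = R`, `R.card = 2`, and `i ∈ Act` with `(row i).card ≤ 2`:
  - `row i = R` (so `i ∈ R`): `FT_own`.
  - `i = t`: `good_of_gar` with `R`: the exchange relation is `gar` of `HLH` for any `y ∈ R`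
    (`Act.filter (row · = row y) = R`, see `row_filter`).
  - `row i` of cardinality one, `i ≠ t` (this includes the extra slot `f`): `good_singleV`.
  - `row i` of cardinality two, `row i ≠ R`: `good_of_gar` with `FT_gar2`.
* `omX`: `FT_omX` (`l ∈ Om` means `row l = {l}`).
(The index type `Θ` is `Finset ℕ`, `Th` = the rows of cardinality two.)
-/

open MvPolynomial Function

namespace Pool.Agent.H20.S2

open Pool.Agent.H39.OP Pool.Agent.H27.OP

theorem good_of_gar {U A A' : Type*} [AddCommGroup U] [Module ℂ U] [AddCommGroup A] [Module ℂ A]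
    [AddCommGroup A'] [Module ℂ A'] {D : ℕ} {P : PD U A A' D}
    {I Ω C : Type*} [DecidableEq I] [DecidableEq Ω] [Fintype C] [DecidableEq C]
    {F : (C → U) → (I → A) → (Ω → U) → (Ω → U) → ℂ} {R : Finset I} {i : I} (hi : i ∉ R)
    (hR : ∀ y ∈ R, GoodV P F y)
    (hg : ∀ v a X Z, F v a X Z + ∑ y ∈ R, F v (a ∘ Equiv.swap i y) X Z = 0) : GoodV P F i := by
  intro v a X Z a' w
  have hF : ∀ (v : C → U) (a : I → A) (X Z : Ω → U),
      F v a X Z = - ∑ y ∈ R, F v (a ∘ Equiv.swap i y) X Z := fun v a X Z =>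
    eq_neg_of_add_eq_zero_left (hg v a X Z)
  have hupd : ∀ y ∈ R, ∀ p : A, (update a i p) ∘ Equiv.swap i y
      = update (a ∘ Equiv.swap i y) y p := by
    intro y hy p
    have hne : i ≠ y := fun h => hi (h ▸ hy)
    rw [Equiv.swap_comm i y]
    exact HLGood_swap a hne p
  have h1 : ∀ (v : C → U) (p : A), F v (update a i p) X Z
      = - ∑ y ∈ R, F v (update (a ∘ Equiv.swap i y) y p) X Z := by
    intro v p
    rw [hF]
    congr 1
    exact Finset.sum_congr rfl fun y hy => by rw [hupd y hy p]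
  rw [h1]
  simp only [h1]
  rw [Finset.sum_neg_distrib]
  congr 1
  rw [Finset.sum_comm]
  exact Finset.sum_congr rfl fun y hy => hR y hy v (a ∘ Equiv.swap i y) X Z a' w

variable {r e : ℕ} {E : Type*} [AddCommGroup E] [Module ℂ E]
  (S : Fk (Fin r) ℂ (Module.End ℂ E) (e + 2)) (Φ : E →ₗ[ℂ] ℂ)

private theorem NV_cons (T : Finset ℕ → Fin 3 → Sd r 1) (t : ℕ)
    (T₀ : List (MvPolynomial (Fin r) ℂ))
    (l' : List (Finset ℕ × List (MvPolynomial (Fin r) ℂ))) :
    ((({t} : Finset ℕ), T₀) :: l').map (thT T) = (({t} : Finset ℕ), T₀) :: l'.map (thT T) := by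
  rw [List.map_cons]
  congr 1

private theorem NV_row (T : Finset ℕ → Fin 3 → Sd r 1)
    {l : List (Finset ℕ × List (MvPolynomial (Fin r) ℂ))}
    {row : ℕ → Finset ℕ} (hrow : ∀ q ∈ l, ∀ i ∈ q.1, row i = q.1) :
    ∀ q ∈ l.map (thT T), ∀ i ∈ q.1, row i = q.1 := by
  intro q hq i hi
  obtain ⟨q', hq', rfl⟩ := List.mem_map.mp hq
  rw [thT_fst] at hi ⊢
  exact hrow q' hq' i hi

private theorem NV_mk (hΦ : ∀ x, Φ (S.del x) = 0) {κ₀ : E} {w K s m : ℕ}
    (hC : Claim S κ₀ w K s) (hCS : ClaimS S κ₀ w K (s + 1) (m + 1)) (hK : s + 1 ≤ K) {t : ℕ}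
    {l : List (Finset ℕ × List (MvPolynomial (Fin r) ℂ))} (hlen : l.length = s + 1)
    (hcfg : Cfg l) (hwt : wt l = w) (hm : m ≤ sing l)
    {row : ℕ → Finset ℕ} (hrow : ∀ q ∈ l, ∀ i ∈ q.1, row i = q.1)
    (κ : (ℕ → Sd r (e + 1)) → E) (g : (ℕ → Sd r (e + 1)) → MvPolynomial (Fin r) ℂ)
    (hκ : ∀ a, κ a = S.m (g a) κ₀) (hg : ∀ a, (g a).IsHomogeneous (K - (s + 1)))
    (hκi : ∀ i ∈ slots l, ∀ a u, κ (update a i u) = κ a)
    (hgs : ∀ i ∈ slots l, ∀ j ∈ slots l, ∀ a, g (a ∘ Equiv.swap i j) = g a)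
    {Act : Finset ℕ} (hA : slots l ⊆ Act) (hA' : ∀ i ∈ Act, i ∉ slots l → row i = {i})
    (ht : t ∈ slots l) (hrt : row t = {t})
    (hl : ∀ T, HLH (polyPD r e) row t Act ((slots l).filter (fun i => row i = {i}))
      (FT S Φ l κ T)) :
    HLN (polyPD r e) row t Act ((slots l).filter (fun i => row i = {i}))
      ((l.map Prod.fst).toFinset.filter (fun R => R.card = 2))
      (Act.filter (fun i => (row i).card ≤ 2)) (FT S Φ l κ) := by
  have hself : ∀ i ∈ Act, i ∈ row i := by
    intro i hi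
    by_cases h : i ∈ slots l
    · obtain ⟨q, hq, hiq⟩ := mem_slots.mp h
      rw [hrow q hq i hiq]; exact hiq
    · rw [hA' i hi h]; exact Finset.mem_singleton_self i
  have hsub : ∀ R ∈ l.map Prod.fst, ∀ y ∈ R, row y = R ∧ y ∈ slots l := by
    intro R hR y hy
    obtain ⟨q, hq, rfl⟩ := List.mem_map.mp hR
    exact ⟨hrow q hq y hy, mem_slots.mpr ⟨q, hq, hy⟩⟩
  have hfil : ∀ R ∈ l.map Prod.fst, ∀ y ∈ R, Act.filter (fun y' => row y' = row y) = R := by
    intro R hR y hy
    rw [(hsub R hR y hy).1]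
    ext i
    rw [Finset.mem_filter]
    constructor
    · rintro ⟨h1, h2⟩
      rw [← h2]; exact hself i h1
    · intro hi
      exact ⟨hA (hsub R hR i hi).2, (hsub R hR i hi).1⟩
  refine ⟨hl, ?_, ?_, ?_, ?_, ?_⟩
  · intro j hj T a X Z
    rw [Finset.mem_filter, List.mem_toFinset] at hj
    exact FT_mulT S Φ hcfg κ hj.1 hj.2 T a X Z
  · rw [Finset.mem_filter]
    refine ⟨hA ht, ?_⟩
    rw [hrt, Finset.card_singleton]
    decide
  · intro i _ i' hi' hii' hiN
    rw [Finset.mem_filter] at hiN ⊢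
    exact ⟨hi', by rw [← hii']; exact hiN.2⟩
  · intro R hR T i hi hiN
    rw [Finset.mem_filter, List.mem_toFinset] at hR
    obtain ⟨hR1, hR2⟩ := hR
    rw [Finset.mem_filter] at hiN
    have hown : ∀ y ∈ R, GoodV (polyPD r e) (fun v => FT S Φ l κ (update T R v)) y := fun y hy =>
      FT_own S Φ hcfg κ hκi hR1 hR2 T hy
    by_cases hiR : i ∈ R
    · exact hown i hiR
    -- the slot `t`
    have htR : t ∉ R := by
      intro h
      have h1 := (hsub R hR1 t h).1
      rw [hrt] at h1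
      rw [← h1, Finset.card_singleton] at hR2
      exact absurd hR2 (by decide)
    have hgt : GoodV (polyPD r e) (fun v => FT S Φ l κ (update T R v)) t := by
      refine good_of_gar htR hown ?_
      intro v a X Z
      obtain ⟨y, hy⟩ : R.Nonempty := by
        rw [← Finset.card_pos, hR2]; decide
      have hne : row y ≠ row t := by
        rw [(hsub R hR1 y hy).1, hrt]
        intro h
        apply htR
        rw [h]
        exact Finset.mem_singleton_self t
      have h1 := (hl (update T R v)).gar y (hA (hsub R hR1 y hy).2) hne a X Z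
      rw [hfil R hR1 y hy] at h1
      exact h1
    by_cases hit : i = t
    · rw [hit]; exact hgt
    have hpos : 0 < (row i).card := Finset.card_pos.mpr ⟨i, hself i hi⟩
    rcases Nat.lt_or_ge (row i).card 2 with hc | hc
    · -- a row of length one
      have hc1 : (row i).card = 1 := by omega
      have hri : row i = {i} := by
        obtain ⟨k, hk⟩ := Finset.card_eq_one.mp hc1
        have h2 := hself i hi
        rw [hk, Finset.mem_singleton] at h2
        rw [hk, h2]
      refine good_singleV (fun v => hl (update T R v)) hgt hi hit ?_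
      intro i' hi' h2
      have h3 := hself i' hi'
      rw [h2, hri, Finset.mem_singleton] at h3
      exact h3
    · -- a row of length two
      have hc2 : (row i).card = 2 := le_antisymm hiN.2 hc
      have his : i ∈ slots l := by
        by_contra h
        rw [hA' i hi h, Finset.card_singleton] at hc2
        exact absurd hc2 (by decide)
      obtain ⟨q, hq, hiq⟩ := mem_slots.mp his
      have hrq : row i = q.1 := hrow q hq i hiq
      have hq1 : q.1 ∈ l.map Prod.fst := List.mem_map_of_mem hq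
      refine good_of_gar hiR hown ?_
      intro v a X Z
      refine FT_gar2 S Φ hΦ hCS hlen hcfg hwt hm κ g hκ hg hgs hR1 hq1 hR2 ?_ ?_ hiq _ a X Z
      · rw [← hrq]; exact hc2
      · intro h
        apply hiR
        rw [h]; exact hiq
  · intro R hR n hn T a X Z v w'
    rw [Finset.mem_filter, List.mem_toFinset] at hR
    rw [Finset.mem_filter] at hn
    exact FT_omX S Φ hΦ hC hK hlen hcfg hwt hrow κ g hκ hg hR.1 hR.2 hn.1 hn.2 T a X Z v w'

theorem HLN_alpha (hΦ : ∀ x, Φ (S.del x) = 0) {κ₀ : E} {w K s m : ℕ}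
    (hC : Claim S κ₀ w K s) (hCS : ClaimS S κ₀ w K (s + 1) (m + 1)) (hK : s + 1 ≤ K) {t : ℕ}
    {T₀ : List (MvPolynomial (Fin r) ℂ)}
    {l' : List (Finset ℕ × List (MvPolynomial (Fin r) ℂ))} (hlen : l'.length = s)
    (hcfg : Cfg (({t}, T₀) :: l')) (hwt : wt ((({t} : Finset ℕ), T₀) :: l') = w)
    (hm : m ≤ sing ((({t} : Finset ℕ), T₀) :: l'))
    {row : ℕ → Finset ℕ} (hrow : ∀ q ∈ (({t} : Finset ℕ), T₀) :: l', ∀ i ∈ q.1, row i = q.1)
    {g : MvPolynomial (Fin r) ℂ} (hg : g.IsHomogeneous (K - (s + 1))) :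
    HLN (polyPD r e) row t (slots (({t}, T₀) :: l'))
      ((slots (({t}, T₀) :: l')).filter (fun i => row i = {i}))
      ((((({t} : Finset ℕ), T₀) :: l').map Prod.fst).toFinset.filter (fun R => R.card = 2))
      ((slots (({t}, T₀) :: l')).filter (fun i => (row i).card ≤ 2))
      (FT S Φ (({t}, T₀) :: l') (fun _ => S.m g κ₀)) := by
  have ht : t ∈ slots ((({t} : Finset ℕ), T₀) :: l') :=
    mem_slots.mpr ⟨_, List.mem_cons_self, Finset.mem_singleton_self t⟩
  have hrt : row t = {t} := hrow _ List.mem_cons_self t (Finset.mem_singleton_self t)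
  refine NV_mk S Φ hΦ hC hCS hK (by rw [List.length_cons, hlen]) hcfg hwt hm hrow
    (fun _ => S.m g κ₀) (fun _ => g) (fun _ => rfl) (fun _ => hg) (fun _ _ _ _ => rfl)
    (fun _ _ _ _ _ => rfl) (Finset.Subset.refl _) (fun i hi h => absurd hi h) ht hrt ?_
  intro T
  have h1 := HLH_alpha S Φ hΦ hC hK (t := t) (T₀ := T₀) (l' := l'.map (thT T))
    (by rw [List.length_map, hlen]) (by rw [← NV_cons]; exact Cfg_thT hcfg T)
    (by rw [← NV_cons, wt_thT]; exact hwt) (row := row)
    (by rw [← NV_cons]; exact NV_row T hrow) hg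
  rw [← NV_cons, slots_thT] at h1
  exact h1

theorem HLN_beta (hΦ : ∀ x, Φ (S.del x) = 0) {κ₀ : E} (hκ₀ : S.del κ₀ = 0) {w K s m : ℕ}
    (hC : Claim S κ₀ w K s) (hCS : ClaimS S κ₀ w K (s + 1) (m + 1)) (hK : s + 1 ≤ K)
    (hKe : K - (s + 1) = e + 1)
    {t : ℕ} {T₀ : List (MvPolynomial (Fin r) ℂ)}
    {l' : List (Finset ℕ × List (MvPolynomial (Fin r) ℂ))} (hlen : l'.length = s)
    (hcfg : Cfg (({t}, T₀) :: l')) (hwt : wt ((({t} : Finset ℕ), T₀) :: l') = w)
    (hm : m ≤ sing ((({t} : Finset ℕ), T₀) :: l'))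
    {row : ℕ → Finset ℕ} (hrow : ∀ q ∈ (({t} : Finset ℕ), T₀) :: l', ∀ i ∈ q.1, row i = q.1)
    {f : ℕ} (hf : f ∉ slots (({t}, T₀) :: l')) (hrf : row f = {f}) :
    HLN (polyPD r e) row t (insert f (slots (({t}, T₀) :: l')))
      ((slots (({t}, T₀) :: l')).filter (fun i => row i = {i}))
      ((((({t} : Finset ℕ), T₀) :: l').map Prod.fst).toFinset.filter (fun R => R.card = 2))
      ((insert f (slots (({t}, T₀) :: l'))).filter (fun i => (row i).card ≤ 2))
      (FT S Φ (({t}, T₀) :: l') (fun a => S.m (a f : MvPolynomial (Fin r) ℂ) κ₀)) := by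
  have ht : t ∈ slots ((({t} : Finset ℕ), T₀) :: l') :=
    mem_slots.mpr ⟨_, List.mem_cons_self, Finset.mem_singleton_self t⟩
  have hrt : row t = {t} := hrow _ List.mem_cons_self t (Finset.mem_singleton_self t)
  refine NV_mk S Φ hΦ hC hCS hK (by rw [List.length_cons, hlen]) hcfg hwt hm hrow
    (fun a => S.m (a f : MvPolynomial (Fin r) ℂ) κ₀) (fun a => (a f : MvPolynomial (Fin r) ℂ))
    (fun _ => rfl) (fun a => ?_) (fun i hi a u => ?_) (fun i hi j hj a => ?_)
    (Finset.subset_insert _ _) (fun i hi h => ?_) ht hrt ?_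
  · rw [hKe]
    exact (mem_homogeneousSubmodule _ _).mp (a f).2
  · rw [update_of_ne]
    rintro rfl
    exact hf hi
  · rw [comp_apply, Equiv.swap_apply_of_ne_of_ne]
    · rintro rfl; exact hf hi
    · rintro rfl; exact hf hj
  · rcases Finset.mem_insert.mp hi with h1 | h1
    · rw [h1]; exact hrf
    · exact absurd h1 h
  · intro T
    have hs := slots_thT ((({t} : Finset ℕ), T₀) :: l') T
    rw [NV_cons] at hs
    have h1 := HLH_beta S Φ hΦ hκ₀ hC hK hKe (t := t) (T₀ := T₀) (l' := l'.map (thT T))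
      (by rw [List.length_map, hlen]) (by rw [← NV_cons]; exact Cfg_thT hcfg T)
      (by rw [← NV_cons, wt_thT]; exact hwt) (row := row)
      (by rw [← NV_cons]; exact NV_row T hrow) (f := f) (by rw [hs]; exact hf) hrf
    rw [hs, ← NV_cons] at h1
    exact h1

end Pool.Agent.H20.S2
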