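import Pool.Agent.H20.S2.P2Defs

/-!
# Job S2-06 : from special forms to all forms (lowest coefficient)

PROOF.  Choose polynomials `p s x z` with `(p s x z).eval τ = G τ s x z` (`hp`).  They are unique
(`Polynomial.funext`), so every linear identity between values of `G τ` valid for all `τ` holds for
the polynomials and hence for their coefficients: for every `k` the function
`G_k s x z = (p s x z).coeff k` satisfies `P2S` (additivity: `p (update s i (u+v)) x z =
p (update s i u) x z + p (update s i v) x z` because both sides have the same values, etc.).
Show `G_k = 0` by strong induction on `k`.  Suppose `G_{k'} = 0` for `k' < k`.  For all `τ`: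
`0 = G τ (update s i (f0 j + τ • h j)) x z = G τ (update s i (f0 j)) x z
+ τ * G τ (update s i (h j)) x z`, so `p (update s i (f0 j)) x z + X * p (update s i (h j)) x z = 0`;
coefficient `k`: `G_k (update s i (f0 j)) x z = - G_{k-1} (update s i (h j)) x z = 0` (`k ≥ 1`) or
`= 0` (`k = 0`).  By `hf0`, `G_k = 0`.  So all coefficients of all `p s x z` vanish, `G τ = 0`.
-/

open MvPolynomial Function

namespace Pool.Agent.H20.S2

open Pool.Agent.H39.OP Pool.Agent.H27.OP

theorem P2b {e : ℕ} (f0 h : Fin e → Sd 3 (e + 1))
    (hf0 : ∀ G : (Fin 3 → Sd 3 (e + 1)) → Sd 3 1 → Sd 3 1 → ℂ, P2S e G →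
      (∀ j i a x z, G (update a i (f0 j)) x z = 0) → ∀ a x z, G a x z = 0)
    (G : ℂ → (Fin 3 → Sd 3 (e + 1)) → Sd 3 1 → Sd 3 1 → ℂ) (hS : ∀ τ, P2S e (G τ))
    (hp : ∀ s x z, ∃ p : Polynomial ℂ, ∀ τ, p.eval τ = G τ s x z)
    (hk : ∀ τ j i s x z, G τ (update s i (f0 j + τ • h j)) x z = 0) :
    ∀ τ s x z, G τ s x z = 0 := by
  choose P hP using hp
  have hz : ∀ k s x z, (P s x z).coeff k = 0 := by
    intro k
    induction k using Nat.strong_induction_on with
    | _ k ih =>
      have hPS : P2S e (fun s x z => (P s x z).coeff k) := by
        refine ⟨?_, ?_, ?_, ?_, ?_, ?_⟩
        · intro x z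
          refine ⟨?_, ?_⟩
          · intro m hm q u v
            have h1 : P (update q m (u + v)) x z = P (update q m u) x z + P (update q m v) x z := by
              apply Polynomial.funext
              intro τ
              rw [Polynomial.eval_add, hP, hP, hP]
              exact ((hS τ).mul x z).add m hm q u v
            simp only [h1, Polynomial.coeff_add]
          · intro m hm q c u
            have h1 : P (update q m (c • u)) x z = Polynomial.C c * P (update q m u) x z := by
              apply Polynomial.funext
              intro τ
              rw [Polynomial.eval_mul, Polynomial.eval_C, hP, hP]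
              exact ((hS τ).mul x z).smul m hm q c u
            simp only [h1, Polynomial.coeff_C_mul]
        · intro a x x' z
          have h1 : P a (x + x') z = P a x z + P a x' z := by
            apply Polynomial.funext
            intro τ
            rw [Polynomial.eval_add, hP, hP, hP]
            exact (hS τ).addx a x x' z
          simp only [h1, Polynomial.coeff_add]
        · intro a c x z
          have h1 : P a (c • x) z = Polynomial.C c * P a x z := by
            apply Polynomial.funext
            intro τ
            rw [Polynomial.eval_mul, Polynomial.eval_C, hP, hP]
            exact (hS τ).smulx a c x z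
          simp only [h1, Polynomial.coeff_C_mul]
        · intro a x z
          have h1 : P a z x = - P a x z := by
            apply Polynomial.funext
            intro τ
            rw [Polynomial.eval_neg, hP, hP]
            exact (hS τ).alt a x z
          simp only [h1, Polynomial.coeff_neg]
        · intro i j hij a x z
          have h1 : P (a ∘ Equiv.swap i j) x z = - P a x z := by
            apply Polynomial.funext
            intro τ
            rw [Polynomial.eval_neg, hP, hP]
            exact (hS τ).anti i j hij a x z
          simp only [h1, Polynomial.coeff_neg]
        · intro i a b w x z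
          have h1 : P (update a i (muP 3 e b w)) x z + P (update a i (muP 3 e b x)) z w
              + P (update a i (muP 3 e b z)) w x = 0 := by
            apply Polynomial.funext
            intro τ
            rw [Polynomial.eval_add, Polynomial.eval_add, hP, hP, hP, Polynomial.eval_zero]
            exact (hS τ).jac i a b w x z
          simp only [← Polynomial.coeff_add, h1, Polynomial.coeff_zero]
      refine hf0 _ hPS ?_
      intro j i a x z
      have key : P (update a i (f0 j)) x z + Polynomial.X * P (update a i (h j)) x z = 0 := by
        apply Polynomial.funext
        intro τ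
        rw [Polynomial.eval_add, Polynomial.eval_mul, Polynomial.eval_X, hP, hP,
          Polynomial.eval_zero]
        have h1 := hk τ j i a x z
        have h2 := ((hS τ).mul x z).add i (Finset.mem_univ i) a (f0 j) (τ • h j)
        have h3 := ((hS τ).mul x z).smul i (Finset.mem_univ i) a τ (h j)
        rw [h2, h3] at h1
        exact h1
      have h4 := congrArg (fun q : Polynomial ℂ => q.coeff k) key
      simp only [Polynomial.coeff_add, Polynomial.coeff_zero] at h4
      cases k with
      | zero =>
        rw [Polynomial.mul_coeff_zero, Polynomial.coeff_X_zero, zero_mul, add_zero] at h4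
        exact h4
      | succ k =>
        rw [Polynomial.coeff_X_mul, ih k (Nat.lt_succ_self k), add_zero] at h4
        exact h4
  intro τ s x z
  have h0 : P s x z = 0 := by
    ext k
    rw [hz k s x z, Polynomial.coeff_zero]
  rw [← hP, h0, Polynomial.eval_zero]

end Pool.Agent.H20.S2
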