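import Pool.Agent.H20.S2.P2a
import Pool.Agent.H20.S2.P2b
import Pool.Agent.H39.OP.HLGood
import Pool.Agent.H39.OP.Polar
import Pool.Agent.H39.OP.PolyPD

/-!
# Job S2-07 : the `P²`-lemma

`HLH (polyPD 3 e) row t Act univ F` (three variables, one bivector: `Ω = Unit`), at least `e + 3`
rows, at least three rows of length one: `F = 0`.

PROOF.  Let `X₀ Z₀ : Unit → Sd 3 1`.  By `polar` (for `fun a => F a X₀ Z₀`, `h.mulA`, `h.sym`) it is
enough to show `F a X₀ Z₀ = 0` when `a i = w (row i)` for all `i ∈ Act`.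
Let `t₀ = t, t₁, t₂` be three different single slots (`hs`; `t` itself is single by `h.trow`), and
`r : Fin e → ρ` injective with values in `Act.image row` minus the three rows of `t₀, t₁, t₂`
(`#rows - 3 ≥ e`).  Let `f0` be as in `P2a e`, `h j = w (r j) - f0 j`.  For `τ : ℂ` let
`aτ i = f0 j + τ • h j` if `i ∈ Act` and `row i = r j` for some `j`, and `aτ i = a i` otherwise, and
`G τ s x z = F (aτ with t_k ↦ s k, k = 0,1,2) (fun _ => x) (fun _ => z)`
(e.g. `update (update (update aτ t₀ (s 0)) t₁ (s 1)) t₂ (s 2)`).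
* `P2S e (G τ)`: `mul` by `h.mulA`; `addx`, `smulx` by `h.mulX`; `alt` by `h.alt`; `anti`: for a
  single slot `y ≠ t` of `Act`, `gar` gives `F a X Z = - F (a ∘ swap t y) X Z`; so transposing the
  values of `t₀` and `t₁` (or `t₂`) changes the sign, and
  `swap t₁ t₂ = swap t t₁ * swap t t₂ * swap t t₁` gives the sign for `t₁, t₂`; `jac`: slot `t` by
  `h.jac`, slots `t₁, t₂` by `good_single` (`HLGood.lean`).
* `hp`: `coef` for the finset of the `i ∈ Act` with `row i ∈ range r` (`q` = the family at `τ = 0`,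
  `w i = h j`).
* `hk`: if `t_k` carries `f0 j + τ • h j`, the same value as all slots of the row `r j`: for `k = 0`
  `gar` gives `(1 + #row) * F = 0`, so `F = 0` (as in `PV_one`); for `k = 1, 2` reduce to `k = 0` by
  `anti`.
`P2b` gives `G 1 s x z = 0`; for `s k = a (t_k)`, `x = X₀ ()`, `z = Z₀ ()` this is `F a X₀ Z₀ = 0`.
-/

open MvPolynomial Function

namespace Pool.Agent.H20.S2

open Pool.Agent.H39.OP Pool.Agent.H27.OP

theorem P2_ext_upd {I B : Type*} [DecidableEq I] {tt : Fin 3 → I} (ht : Injective tt)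
    (s : Fin 3 → B) (b : I → B) (k : Fin 3) (v : B) :
    extend tt (update s k v) b = update (extend tt s b) (tt k) v := by
  funext i
  by_cases hi : ∃ m, tt m = i
  · obtain ⟨m, rfl⟩ := hi
    rw [ht.extend_apply]
    by_cases hm : m = k
    · subst hm
      rw [update_self, update_self]
    · rw [update_of_ne hm, update_of_ne (fun h => hm (ht h)), ht.extend_apply]
  · rw [extend_apply' _ _ _ hi, update_of_ne, extend_apply' _ _ _ hi]
    rintro rfl
    exact hi ⟨k, rfl⟩

theorem P2_ext_swap {I B : Type*} [DecidableEq I] {tt : Fin 3 → I} (ht : Injective tt)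
    (s : Fin 3 → B) (b : I → B) (i j : Fin 3) :
    extend tt (s ∘ Equiv.swap i j) b = (extend tt s b) ∘ Equiv.swap (tt i) (tt j) := by
  funext m
  rw [comp_apply]
  by_cases hm : ∃ k, tt k = m
  · obtain ⟨k, rfl⟩ := hm
    rw [ht.extend_apply, comp_apply, ← ht.map_swap, ht.extend_apply]
  · have h1 : ∀ k, m ≠ tt k := fun k hk => hm ⟨k, hk.symm⟩
    rw [Equiv.swap_apply_of_ne_of_ne (h1 i) (h1 j), extend_apply' _ _ _ hm,
      extend_apply' _ _ _ hm]

section

variable {e : ℕ} {I ρ : Type*} [DecidableEq I] [DecidableEq ρ] {row : I → ρ} {t : I}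
    {Act : Finset I} {F : (I → Sd 3 (e + 1)) → (Unit → Sd 3 1) → (Unit → Sd 3 1) → ℂ}

theorem P2_swap_t (h : HLH (polyPD 3 e) row t Act Finset.univ F) {y : I} (hy : y ∈ Act)
    (hyt : y ≠ t) (hrow : ∀ i ∈ Act, row i = row y → i = y) (a : I → Sd 3 (e + 1))
    (X Z : Unit → Sd 3 1) : F (a ∘ Equiv.swap t y) X Z = - F a X Z := by
  have hrt : row y ≠ row t := fun h1 => hyt (h.trow y hy h1)
  have hfil : Act.filter (fun y' => row y' = row y) = {y} := by
    ext i
    simp only [Finset.mem_filter, Finset.mem_singleton]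
    constructor
    · rintro ⟨h1, h2⟩
      exact hrow i h1 h2
    · rintro rfl
      exact ⟨hy, rfl⟩
  have h1 := h.gar y hy hrt a X Z
  rw [hfil, Finset.sum_singleton] at h1
  linear_combination h1

theorem P2_swap (h : HLH (polyPD 3 e) row t Act Finset.univ F) {y z : I} (hy : y ∈ Act)
    (hyt : y ≠ t) (hrow : ∀ i ∈ Act, row i = row y → i = y) (hz : z ∈ Act) (hzt : z ≠ t)
    (hrowz : ∀ i ∈ Act, row i = row z → i = z) (hyz : y ≠ z) (a : I → Sd 3 (e + 1))
    (X Z : Unit → Sd 3 1) : F (a ∘ Equiv.swap y z) X Z = - F a X Z := by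
  have h1 : Equiv.swap y z = Equiv.swap t y * Equiv.swap t z * Equiv.swap t y := by
    rw [Equiv.swap_comm t z]
    exact (Equiv.swap_mul_swap_mul_swap hzt hyz.symm).symm
  rw [h1]
  have h2 : a ∘ (Equiv.swap t y * Equiv.swap t z * Equiv.swap t y : Equiv.Perm I) =
      ((a ∘ Equiv.swap t y) ∘ Equiv.swap t z) ∘ Equiv.swap t y := rfl
  rw [h2, P2_swap_t h hy hyt hrow, P2_swap_t h hz hzt hrowz, P2_swap_t h hy hyt hrow]
  ring

/-- equal values at `t` and in a whole row: `F = 0` -/
theorem P2_kill (h : HLH (polyPD 3 e) row t Act Finset.univ F) {y : I} (hy : y ∈ Act)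
    (hyt : row y ≠ row t) (b : I → Sd 3 (e + 1))
    (hb : ∀ y' ∈ Act, row y' = row y → b y' = b t) (X Z : Unit → Sd 3 1) : F b X Z = 0 := by
  have h3 := h.gar y hy hyt b X Z
  have h4 : ∀ y' ∈ Act.filter (fun y' => row y' = row y),
      F (b ∘ Equiv.swap t y') X Z = F b X Z := by
    intro y' hy'
    rw [Finset.mem_filter] at hy'
    have h5 : b ∘ Equiv.swap t y' = b := by
      funext k
      rw [comp_apply]
      by_cases hk : k = t
      · subst hk
        rw [Equiv.swap_apply_left, hb y' hy'.1 hy'.2]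
      · by_cases hk' : k = y'
        · subst hk'
          rw [Equiv.swap_apply_right, hb k hy'.1 hy'.2]
        · rw [Equiv.swap_apply_of_ne_of_ne hk hk']
    rw [h5]
  rw [Finset.sum_congr rfl h4, Finset.sum_const, nsmul_eq_mul] at h3
  have h5 : (1 + ((Act.filter (fun y' => row y' = row y)).card : ℂ)) * F b X Z = 0 := by
    rw [add_mul, one_mul]; exact h3
  rcases mul_eq_zero.mp h5 with h6 | h6
  · exfalso
    have h7 : ((1 + (Act.filter (fun y' => row y' = row y)).card : ℕ) : ℂ) = 0 := by
      push_cast; exact h6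
    have h8 : 1 + (Act.filter (fun y' => row y' = row y)).card = 0 := by exact_mod_cast h7
    omega
  · exact h6

theorem P2_unit (X : Unit → Sd 3 1) (x : Sd 3 1) : update X () x = fun _ => x := by
  funext u
  cases u
  rw [update_self]

/-- the functional of three single slots -/
theorem P2_struct (h : HLH (polyPD 3 e) row t Act Finset.univ F) (tt : Fin 3 → I)
    (htt : Injective tt) (ht0 : tt 0 = t) (hA : ∀ k, tt k ∈ Act)
    (hsing : ∀ k, ∀ i ∈ Act, row i = row (tt k) → i = tt k) (b : I → Sd 3 (e + 1)) :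
    P2S e (fun s x z => F (extend tt s b) (fun _ => x) (fun _ => z)) where
  mul x z := by
    constructor
    · intro k _ q u v
      rw [P2_ext_upd htt, P2_ext_upd htt, P2_ext_upd htt]
      exact (h.mulA _ _).add (tt k) (hA k) _ u v
    · intro k _ q c u
      rw [P2_ext_upd htt, P2_ext_upd htt]
      exact (h.mulA _ _).smul (tt k) (hA k) _ c u
  addx a x x' z := by
    have h1 := (h.mulX (extend tt a b) (fun _ => z)).add () (Finset.mem_univ _) (fun _ => x) x x'
    simp only [P2_unit] at h1
    exact h1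
  smulx a c x z := by
    have h1 := (h.mulX (extend tt a b) (fun _ => z)).smul () (Finset.mem_univ _) (fun _ => x) c x
    simp only [P2_unit] at h1
    exact h1
  alt a x z := by
    have h1 := h.alt () (Finset.mem_univ _) (extend tt a b) (fun _ => x) (fun _ => z)
    simp only [P2_unit] at h1
    exact h1
  anti i j hij a x z := by
    rw [P2_ext_swap htt]
    by_cases hi : i = 0
    · have hj : j ≠ 0 := fun hj => hij (hi.trans hj.symm)
      rw [hi, ht0]
      exact P2_swap_t h (hA j) (fun hc => hj (htt (hc.trans ht0.symm))) (hsing j) _ _ _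
    · by_cases hj : j = 0
      · rw [hj, ht0, Equiv.swap_comm]
        exact P2_swap_t h (hA i) (fun hc => hi (htt (hc.trans ht0.symm))) (hsing i) _ _ _
      · exact P2_swap h (hA i) (fun hc => hi (htt (hc.trans ht0.symm))) (hsing i) (hA j)
          (fun hc => hj (htt (hc.trans ht0.symm))) (hsing j) (fun hc => hij (htt hc)) _ _ _
  jac i a b' w x z := by
    rw [P2_ext_upd htt, P2_ext_upd htt, P2_ext_upd htt]
    by_cases hi : i = 0
    · have h1 := h.jac () (Finset.mem_univ _) (extend tt a b) (fun _ => x) (fun _ => z) b' w x z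
      simp only [P2_unit, polyPD_mu] at h1
      rw [hi, ht0]
      exact h1
    · have h1 := good_single h (hA i) (fun hc => hi (htt (hc.trans ht0.symm))) (hsing i)
        (Finset.mem_univ ()) (extend tt a b) (fun _ => x) (fun _ => z) b' w x z
      simp only [P2_unit, polyPD_mu] at h1
      exact h1

/-- the value of one of the three slots occurs in a whole row: `F = 0` -/
theorem P2_hk (h : HLH (polyPD 3 e) row t Act Finset.univ F) (tt : Fin 3 → I)
    (htt : Injective tt) (ht0 : tt 0 = t) (hA : ∀ k, tt k ∈ Act)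
    (hsing : ∀ k, ∀ i ∈ Act, row i = row (tt k) → i = tt k) (b : I → Sd 3 (e + 1))
    {y : I} (hy : y ∈ Act) (hyt : ∀ k, row y ≠ row (tt k)) (v : Sd 3 (e + 1))
    (hb : ∀ y' ∈ Act, row y' = row y → b y' = v) (i : Fin 3) (s : Fin 3 → Sd 3 (e + 1))
    (X Z : Unit → Sd 3 1) : F (extend tt (update s i v) b) X Z = 0 := by
  have hval : ∀ y' ∈ Act, row y' = row y → ∀ s', extend tt s' b y' = v := by
    intro y' hy' hr s'
    rw [extend_apply', hb y' hy' hr]
    rintro ⟨k, rfl⟩
    exact hyt k hr.symm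
  have hyt0 : row y ≠ row t := by
    rw [← ht0]
    exact hyt 0
  by_cases hi : i = 0
  · apply P2_kill h hy hyt0
    intro y' hy' hr
    rw [hval y' hy' hr, ← ht0, htt.extend_apply, hi, update_self]
  · have h1 := P2_swap_t h (hA i) (fun hc => hi (htt (hc.trans ht0.symm))) (hsing i)
      (extend tt (update s i v) b) X Z
    have h2 : F (extend tt (update s i v) b ∘ Equiv.swap t (tt i)) X Z = 0 := by
      apply P2_kill h hy hyt0
      intro y' hy' hr
      have h3 : y' ≠ t := by
        rintro rfl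
        exact hyt0 hr.symm
      have h4 : y' ≠ tt i := by
        rintro rfl
        exact hyt i hr.symm
      rw [comp_apply, comp_apply, Equiv.swap_apply_of_ne_of_ne h3 h4, Equiv.swap_apply_left,
        hval y' hy' hr, htt.extend_apply, update_self]
    rw [h2] at h1
    exact (neg_eq_zero.1 h1.symm)

end

theorem P2 {e : ℕ} {I ρ : Type*} [DecidableEq I] [DecidableEq ρ] {row : I → ρ} {t : I}
    {Act : Finset I} {F : (I → Sd 3 (e + 1)) → (Unit → Sd 3 1) → (Unit → Sd 3 1) → ℂ}
    (h : HLH (polyPD 3 e) row t Act Finset.univ F)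
    (hrows : e + 3 ≤ (Act.image row).card)
    (hs : 3 ≤ (Act.filter (fun i => ∀ j ∈ Act, row j = row i → j = i)).card) :
    ∀ a X Z, F a X Z = 0 := by
  intro a₀ X₀ Z₀
  refine polar Act row (fun a => F a X₀ Z₀) (h.mulA X₀ Z₀)
    (fun i hi j hj hij a => h.sym i hi j hj hij a X₀ Z₀) ?_ a₀
  intro w a ha
  -- three single slots
  have htS : t ∈ Act.filter (fun i => ∀ j ∈ Act, row j = row i → j = i) := by
    rw [Finset.mem_filter]
    exact ⟨h.tAct, fun j hj hr => h.trow j hj hr⟩
  have hcard2 : 1 < ((Act.filter (fun i => ∀ j ∈ Act, row j = row i → j = i)).erase t).card := by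
    rw [Finset.card_erase_of_mem htS]
    omega
  obtain ⟨t₁, ht₁, t₂, ht₂, h12⟩ := Finset.one_lt_card.1 hcard2
  rw [Finset.mem_erase, Finset.mem_filter] at ht₁ ht₂
  obtain ⟨tt, htt, ht0, hA, hsing⟩ : ∃ tt : Fin 3 → I, Injective tt ∧ tt 0 = t ∧
      (∀ k, tt k ∈ Act) ∧ ∀ k, ∀ i ∈ Act, row i = row (tt k) → i = tt k := by
    refine ⟨![t, t₁, t₂], ?_, rfl, ?_, ?_⟩
    · have e1 : t ≠ t₁ := ht₁.1.symm
      have e2 : t ≠ t₂ := ht₂.1.symm
      have e3 : t₁ ≠ t₂ := h12
      intro i j hij
      fin_cases i <;> fin_cases j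
      · rfl
      · exact absurd hij e1
      · exact absurd hij e2
      · exact absurd hij.symm e1
      · rfl
      · exact absurd hij e3
      · exact absurd hij.symm e2
      · exact absurd hij.symm e3
      · rfl
    · intro k
      fin_cases k
      · exact h.tAct
      · exact ht₁.2.1
      · exact ht₂.2.1
    · intro k
      fin_cases k
      · exact fun i hi hr => h.trow i hi hr
      · exact ht₁.2.2
      · exact ht₂.2.2
  -- the other rows
  have hcard3 : e ≤ ((Act.image row) \ (Finset.univ.image fun k => row (tt k))).card := by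
    have h1 := Finset.le_card_sdiff (Finset.univ.image fun k => row (tt k)) (Act.image row)
    have h2 : (Finset.univ.image fun k => row (tt k)).card ≤ 3 := by
      refine Finset.card_image_le.trans ?_
      simp
    omega
  obtain ⟨R, hR⟩ : ∃ R : Finset ρ,
      R = (Act.image row) \ (Finset.univ.image fun k => row (tt k)) := ⟨_, rfl⟩
  rw [← hR] at hcard3
  obtain ⟨em⟩ : Nonempty (Fin e ↪ {x // x ∈ R}) :=
    Function.Embedding.nonempty_of_card_le (by simpa using hcard3)
  obtain ⟨r, hrinj, hr, hrt⟩ : ∃ r : Fin e → ρ, Injective r ∧ (∀ j, ∃ y ∈ Act, row y = r j) ∧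
      ∀ j k, r j ≠ row (tt k) := by
    refine ⟨fun j => (em j).1, fun i j hij => em.injective (Subtype.ext hij), ?_, ?_⟩
    · intro j
      have h1 := (Finset.ext_iff.1 hR _).1 (em j).2
      rw [Finset.mem_sdiff, Finset.mem_image] at h1
      exact h1.1
    · intro j k hc
      have h1 := (Finset.ext_iff.1 hR _).1 (em j).2
      rw [Finset.mem_sdiff] at h1
      exact h1.2 (Finset.mem_image.2 ⟨k, Finset.mem_univ k, hc.symm⟩)
  obtain ⟨f0, hf0⟩ := P2a e
  set hh : Fin e → Sd 3 (e + 1) := fun j => w (r j) - f0 j with hhh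
  set fl : ρ → Sd 3 (e + 1) := fun x => ∑ j, if r j = x then f0 j else 0 with hfl
  set hl : ρ → Sd 3 (e + 1) := fun x => ∑ j, if r j = x then hh j else 0 with hhl
  have hsum : ∀ (g : Fin e → Sd 3 (e + 1)) (j : Fin e),
      (∑ i, if r i = r j then g i else 0) = g j := by
    intro g j
    rw [Finset.sum_eq_single j]
    · rw [if_pos rfl]
    · intro k _ hk
      rw [if_neg fun hc => hk (hrinj hc)]
    · intro hj
      exact absurd (Finset.mem_univ j) hj
  have hflr : ∀ j, fl (r j) = f0 j := hsum f0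
  have hhlr : ∀ j, hl (r j) = hh j := hsum hh
  set T : Finset I := Act.filter (fun i => ∃ j, row i = r j) with hT
  set q : I → Sd 3 (e + 1) := fun i => if i ∈ T then fl (row i) else a i with hq
  set at' : ℂ → I → Sd 3 (e + 1) := fun τ i =>
    if i ∈ T then q i + τ • hl (row i) else q i with hat
  have httT : ∀ k, tt k ∉ T := by
    intro k hk
    rw [hT, Finset.mem_filter] at hk
    obtain ⟨_, j, hj⟩ := hk
    exact hrt j k hj.symm
  have hTval : ∀ τ j, ∀ y' ∈ Act, row y' = r j → at' τ y' = f0 j + τ • hh j := by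
    intro τ j y' hy' hr'
    have h1 : y' ∈ T := Finset.mem_filter.2 ⟨hy', j, hr'⟩
    simp only [hat, hq, if_pos h1, hr', hflr, hhlr]
  have hext : ∀ τ (s : Fin 3 → Sd 3 (e + 1)),
      (fun m => if m ∈ T then extend tt s q m + τ • hl (row m) else extend tt s q m) =
        extend tt s (at' τ) := by
    intro τ s
    funext m
    by_cases hm : ∃ k, tt k = m
    · obtain ⟨k, rfl⟩ := hm
      rw [if_neg (httT k), htt.extend_apply, htt.extend_apply]
    · rw [extend_apply' _ _ _ hm, extend_apply' _ _ _ hm]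
  have hP := P2b f0 hh hf0
    (fun τ s x z => F (extend tt s (at' τ)) (fun _ => x) (fun _ => z))
    (fun τ => P2_struct h tt htt ht0 hA hsing (at' τ))
    (by
      intro s x z
      obtain ⟨p, hp, -, -⟩ := coef T (fun a => F a (fun _ => x) (fun _ => z))
        ((h.mulA _ _).mono (Finset.filter_subset _ _)) (extend tt s q) (fun m => hl (row m))
      refine ⟨p, fun τ => ?_⟩
      rw [hp τ, hext])
    (by
      intro τ j i s x z
      obtain ⟨y, hy, hyr⟩ := hr j
      refine P2_hk h tt htt ht0 hA hsing (at' τ) hy (fun k => by rw [hyr]; exact hrt j k) _ ?_ i s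
        _ _
      intro y' hy' hr'
      exact hTval τ j y' hy' (hr'.trans hyr))
  have h1 := hP 1 (fun k => a (tt k)) (X₀ ()) (Z₀ ())
  have h2 : extend tt (fun k => a (tt k)) (at' 1) = a := by
    funext m
    by_cases hm : ∃ k, tt k = m
    · obtain ⟨k, rfl⟩ := hm
      rw [htt.extend_apply]
    · rw [extend_apply' _ _ _ hm]
      by_cases hmT : m ∈ T
      · obtain ⟨hmA, j, hj⟩ := Finset.mem_filter.1 hmT
        rw [hTval 1 j m hmA hj, ha m hmA, hj, hhh, one_smul, add_sub_cancel]
      · simp only [hat, hq, if_neg hmT]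
  have h3 : (fun _ => X₀ ()) = X₀ := by
    funext u
    cases u
    rfl
  have h4 : (fun _ => Z₀ ()) = Z₀ := by
    funext u
    cases u
    rfl
  simp only [h2] at h1
  rw [h3, h4] at h1
  exact h1

end Pool.Agent.H20.S2
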