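import Pool.Agent.H39.OP.FDefs

/-!
# The functionals of the `P²`-lemma (definition)
-/

open MvPolynomial Function

namespace Pool.Agent.H20.S2

open Pool.Agent.H39.OP Pool.Agent.H27.OP

/-- three alternating slots of degree `e + 1` in three variables and one bivector `(x, z)`,
all slots good with the bivector -/
structure P2S (e : ℕ) (G : (Fin 3 → Sd 3 (e + 1)) → Sd 3 1 → Sd 3 1 → ℂ) : Prop where
  mul : ∀ x z, MulAt (Finset.univ : Finset (Fin 3)) (fun a => G a x z)
  addx : ∀ a x x' z, G a (x + x') z = G a x z + G a x' z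
  smulx : ∀ a (c : ℂ) x z, G a (c • x) z = c * G a x z
  alt : ∀ a x z, G a z x = - G a x z
  anti : ∀ i j, i ≠ j → ∀ a x z, G (a ∘ Equiv.swap i j) x z = - G a x z
  jac : ∀ i a (b : Sd 3 e) w x z, G (update a i (muP 3 e b w)) x z
    + G (update a i (muP 3 e b x)) z w + G (update a i (muP 3 e b z)) w x = 0

end Pool.Agent.H20.S2
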