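import Pool.Agent.H20.S2.Pts
import Pool.Agent.H20.S2.P2Defs

/-!
# Job S2-05 : the `P²`-lemma for the forms vanishing at general points

Let `N_j = dim Sd 3 j`, `n = N_e + 2 = N_{e+1} - e` (`finrank_Sd3`), `p 0, …, p (n-1)` points from
`exists_pts` for the three spaces `Sd 3 1`, `Sd 3 e`, `Sd 3 (e+1)`.
(1) For `k < n` let `δ k ∈ Sd 3 (e+1)` be `1` at `p k` and `0` at the other points
(`n ≤ N_{e+1}`, `S = range n`).  The forms in `Sd 3 (e+1)` vanishing at all `p k`, `k < n`, are the
kernel of a surjective map onto `ℂ^n`, so they have dimension `N_{e+1} - n = e`; let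
`f : Fin e → Sd 3 (e+1)` be a basis (or any spanning family) of this kernel.
(2) Let `G` be as in the statement.  Every `t ∈ Sd 3 (e+1)` is `∑_k t(p k) • δ k` plus a combination
of the `f j`; so by `mul` and `hf`, `G a x z = ∑ G (…)` over `a i = δ (k i)`, and it is enough to show
`G ![δ k₀, δ k₁, δ k₂] x z = 0`; if two of the `k`'s are equal this follows from `anti`
(`2 G = 0`).
(3) Let `k₀, k₁, k₂` be distinct and `φ x z = G ![δ k₀, δ k₁, δ k₂] x z`.
Claim: `w(p k_i) φ x z + x(p k_i) φ z w + z(p k_i) φ w x = 0` for `i = 0, 1, 2` and all `w, x, z`.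
For `i = 0`: take `b ∈ Sd 3 e` with `b(p k₀) = 1` and `b(p k) = 0` for the `n - 3` other points
`k ≠ k₀, k₁, k₂` (`S = range n \ {k₁, k₂}` has `n - 2 = N_e` elements).  In `jac` for slot `0`,
`a = ![_, δ k₁, δ k₂]`: `muP b w = ∑_k b(p k) w(p k) • δ k + (combination of the f j)`; the terms with
`k ≠ k₀, k₁, k₂` vanish as `b(p k) = 0`, those with `k = k₁, k₂` vanish by `anti` (two equal
slots), the `f j` by `hf`; so `G (update a 0 (muP b w)) x z = w(p k₀) φ x z`.
(4) Choose `u₀, u₁, u₂ ∈ Sd 3 1` with `u_i (p k_j) = δ_{ij}` (`exists_pts` for `Sd 3 1`,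
`N_1 = 3`); they are a basis of `Sd 3 1` (3 linearly independent vectors, `finrank_Sd3_one`).  By (3)
for `i = 0` and `(w, x, z) = (u₀, u₁, u₂)`: `φ u₁ u₂ = 0`, similarly `φ u₂ u₀ = 0`, `φ u₀ u₁ = 0`; and
`φ u u = 0` by `alt`.  So `φ = 0` by bilinearity.
-/

open MvPolynomial Function

namespace Pool.Agent.H20.S2

open Pool.Agent.H39.OP Pool.Agent.H27.OP

/-- evaluation of forms at the first `n` points -/
noncomputable def evL (j n : ℕ) (p : ℕ → Fin 3 → ℂ) : Sd 3 j →ₗ[ℂ] (Fin n → ℂ) where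
  toFun f k := eval (p k) (f : MvPolynomial (Fin 3) ℂ)
  map_add' f g := by funext k; simp
  map_smul' c f := by funext k; simp [smul_eval]

lemma evL_apply {j n : ℕ} {p : ℕ → Fin 3 → ℂ} (f : Sd 3 j) (k : Fin n) :
    evL j n p f k = eval (p k) (f : MvPolynomial (Fin 3) ℂ) := rfl

/-- a basis of the kernel of a linear map -/
lemma exists_ker_basis {V W : Type*} [AddCommGroup V] [Module ℂ V] [FiniteDimensional ℂ V]
    [AddCommGroup W] [Module ℂ W] (L : V →ₗ[ℂ] W) (e : ℕ)
    (h : Module.finrank ℂ (LinearMap.ker L) = e) :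
    ∃ f : Fin e → V, ∀ ψ : V →ₗ[ℂ] ℂ, (∀ j, ψ (f j) = 0) → ∀ t, L t = 0 → ψ t = 0 := by
  let B : Module.Basis (Fin e) ℂ (LinearMap.ker L) := Module.finBasisOfFinrankEq ℂ _ h
  refine ⟨fun j => (B j : V), fun ψ hψ t ht => ?_⟩
  have h1 : ψ.comp (LinearMap.ker L).subtype = 0 := B.ext fun j => hψ j
  exact LinearMap.congr_fun h1 ⟨t, ht⟩

/-- the slot function as a linear map -/
noncomputable def slotL {e : ℕ} {G : (Fin 3 → Sd 3 (e + 1)) → Sd 3 1 → Sd 3 1 → ℂ} (hG : P2S e G)
    (a : Fin 3 → Sd 3 (e + 1)) (i : Fin 3) (x z : Sd 3 1) : Sd 3 (e + 1) →ₗ[ℂ] ℂ where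
  toFun t := G (update a i t) x z
  map_add' s t := (hG.mul x z).add i (Finset.mem_univ i) a s t
  map_smul' c t := (hG.mul x z).smul i (Finset.mem_univ i) a c t

lemma P2S.anti_eq {e : ℕ} {G : (Fin 3 → Sd 3 (e + 1)) → Sd 3 1 → Sd 3 1 → ℂ} (hG : P2S e G)
    {i j : Fin 3} (hij : i ≠ j) (a : Fin 3 → Sd 3 (e + 1)) (h : a i = a j) (x z : Sd 3 1) :
    G a x z = 0 := by
  have h1 := hG.anti i j hij a x z
  have h2 : a ∘ Equiv.swap i j = a := by
    funext k
    simp only [comp_apply]
    by_cases hk : k = i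
    · rw [hk, Equiv.swap_apply_left, h]
    · by_cases hk' : k = j
      · rw [hk', Equiv.swap_apply_right, h]
      · rw [Equiv.swap_apply_of_ne_of_ne hk hk']
  rw [h2] at h1
  have h3 : (2 : ℂ) * G a x z = 0 := by linear_combination h1
  simpa using h3

/-- bilinear form of the bivector -/
noncomputable def bivL {e : ℕ} {G : (Fin 3 → Sd 3 (e + 1)) → Sd 3 1 → Sd 3 1 → ℂ} (hG : P2S e G)
    (a : Fin 3 → Sd 3 (e + 1)) : Sd 3 1 →ₗ[ℂ] Sd 3 1 →ₗ[ℂ] ℂ :=
  LinearMap.mk₂ ℂ (fun x z => G a x z) (fun x x' z => hG.addx a x x' z)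
    (fun c x z => hG.smulx a c x z)
    (fun x z z' => by
      rw [hG.alt a (z + z') x, hG.addx, hG.alt a z x, hG.alt a z' x]; ring)
    (fun c x z => by
      rw [hG.alt a (c • z) x, hG.smulx, hG.alt a z x]
      simp only [smul_eq_mul]; ring)

/-- Expansion at the points: a linear form which vanishes on the kernel of the evaluation. -/
lemma evL_expand {j n : ℕ} {p : ℕ → Fin 3 → ℂ} (δ : ℕ → Sd 3 j)
    (hδ : ∀ k < n, ∀ l < n, eval (p l) (δ k : MvPolynomial (Fin 3) ℂ) = if l = k then 1 else 0)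
    (ψ : Sd 3 j →ₗ[ℂ] ℂ) (hψ : ∀ t, evL j n p t = 0 → ψ t = 0) (t : Sd 3 j) :
    ψ t = ∑ k ∈ Finset.range n, eval (p k) (t : MvPolynomial (Fin 3) ℂ) * ψ (δ k) := by
  have h := hψ (t - ∑ k ∈ Finset.range n, eval (p k) (t : MvPolynomial (Fin 3) ℂ) • δ k) (by
    funext l
    rw [map_sub, map_sum]
    simp only [Pi.sub_apply, Finset.sum_apply, map_smul, Pi.smul_apply, evL_apply, smul_eq_mul,
      Pi.zero_apply]
    rw [Finset.sum_eq_single l.1]
    · rw [hδ l.1 l.2 l.1 l.2]; simp
    · intro k hk hkl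
      rw [hδ k (Finset.mem_range.mp hk) l.1 l.2, if_neg (Ne.symm hkl), mul_zero]
    · intro hl
      exact absurd (Finset.mem_range.mpr l.2) hl)
  rw [map_sub, map_sum, sub_eq_zero] at h
  rw [h]
  simp

theorem P2a (e : ℕ) : ∃ f : Fin e → Sd 3 (e + 1),
    ∀ G : (Fin 3 → Sd 3 (e + 1)) → Sd 3 1 → Sd 3 1 → ℂ, P2S e G →
    (∀ j i a x z, G (update a i (f j)) x z = 0) → ∀ a x z, G a x z = 0 := by
  classical
  set N : ℕ := Module.finrank ℂ (homogeneousSubmodule (Fin 3) ℂ e) with hN
  have hN1 : Module.finrank ℂ (homogeneousSubmodule (Fin 3) ℂ (e + 1)) = N + (e + 2) :=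
    finrank_Sd3 e
  have hfin : ∀ j, FiniteDimensional ℂ (homogeneousSubmodule (Fin 3) ℂ j) := Sd_finite 3
  have hfin1 : FiniteDimensional ℂ (Sd 3 (e + 1)) := hfin (e + 1)
  obtain ⟨p, hp⟩ := exists_pts (fun i : Fin 3 => homogeneousSubmodule (Fin 3) ℂ (![1, e, e + 1] i))
    (fun i => hfin _) (N + 2)
  have hp1 : ∀ S : Finset ℕ, S ⊆ Finset.range (N + 2) → S.card ≤ 3 → ∀ k ∈ S,
      ∃ f : Sd 3 1, eval (p k) (f : MvPolynomial (Fin 3) ℂ) = 1 ∧
        ∀ k' ∈ S, k' ≠ k → eval (p k') (f : MvPolynomial (Fin 3) ℂ) = 0 := by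
    intro S hS hc k hk
    obtain ⟨f, hf, h1, h2⟩ := hp 0 S hS (by
      show S.card ≤ Module.finrank ℂ (homogeneousSubmodule (Fin 3) ℂ 1)
      rw [finrank_Sd3_one]; exact hc) k hk
    exact ⟨⟨f, hf⟩, h1, h2⟩
  have hp2 : ∀ S : Finset ℕ, S ⊆ Finset.range (N + 2) → S.card ≤ N → ∀ k ∈ S,
      ∃ f : Sd 3 e, eval (p k) (f : MvPolynomial (Fin 3) ℂ) = 1 ∧
        ∀ k' ∈ S, k' ≠ k → eval (p k') (f : MvPolynomial (Fin 3) ℂ) = 0 := by
    intro S hS hc k hk
    obtain ⟨f, hf, h1, h2⟩ := hp 1 S hS hc k hk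
    exact ⟨⟨f, hf⟩, h1, h2⟩
  have hp3 : ∀ S : Finset ℕ, S ⊆ Finset.range (N + 2) → ∀ k ∈ S,
      ∃ f : Sd 3 (e + 1), eval (p k) (f : MvPolynomial (Fin 3) ℂ) = 1 ∧
        ∀ k' ∈ S, k' ≠ k → eval (p k') (f : MvPolynomial (Fin 3) ℂ) = 0 := by
    intro S hS k hk
    obtain ⟨f, hf, h1, h2⟩ := hp 2 S hS (by
      show S.card ≤ Module.finrank ℂ (homogeneousSubmodule (Fin 3) ℂ (e + 1))
      have := Finset.card_le_card hS
      rw [Finset.card_range] at this
      omega) k hk
    exact ⟨⟨f, hf⟩, h1, h2⟩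
  -- the dual forms of degree `e + 1`
  have hδ' : ∀ k : ℕ, ∃ f : Sd 3 (e + 1), k < N + 2 → ∀ l < N + 2,
      eval (p l) (f : MvPolynomial (Fin 3) ℂ) = if l = k then 1 else 0 := by
    intro k
    by_cases hk : k < N + 2
    · obtain ⟨f, h1, h2⟩ := hp3 (Finset.range (N + 2)) (Finset.Subset.refl _) k
        (Finset.mem_range.mpr hk)
      refine ⟨f, fun _ l hl => ?_⟩
      by_cases hlk : l = k
      · rw [if_pos hlk, hlk, h1]
      · rw [if_neg hlk, h2 l (Finset.mem_range.mpr hl) hlk]
    · exact ⟨0, fun h => absurd h hk⟩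
  choose δ hδ using hδ'
  -- the kernel of the evaluation
  have hsurj : LinearMap.range (evL (e + 1) (N + 2) p) = ⊤ := by
    rw [LinearMap.range_eq_top]
    intro v
    refine ⟨∑ k : Fin (N + 2), v k • δ k.1, ?_⟩
    funext l
    rw [map_sum]
    simp only [Finset.sum_apply, map_smul, Pi.smul_apply, evL_apply, smul_eq_mul]
    rw [Finset.sum_eq_single l]
    · rw [hδ l.1 l.2 l.1 l.2]; simp
    · intro k _ hkl
      rw [hδ k.1 k.2 l.1 l.2, if_neg (fun h => hkl (Fin.ext h.symm)), mul_zero]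
    · intro h; exact absurd (Finset.mem_univ l) h
  have hker : Module.finrank ℂ (LinearMap.ker (evL (e + 1) (N + 2) p)) = e := by
    have h1 := LinearMap.finrank_range_add_finrank_ker (evL (e + 1) (N + 2) p)
    rw [hsurj, finrank_top, Module.finrank_fin_fun] at h1
    have h2 : Module.finrank ℂ (Sd 3 (e + 1)) = N + (e + 2) := hN1
    omega
  obtain ⟨f, hfk⟩ := exists_ker_basis (evL (e + 1) (N + 2) p) e hker
  refine ⟨f, fun G hG hf => ?_⟩
  -- the slot functions vanish on the kernel
  have hvan : ∀ (a : Fin 3 → Sd 3 (e + 1)) (i : Fin 3) (x z : Sd 3 1) (t : Sd 3 (e + 1)),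
      evL (e + 1) (N + 2) p t = 0 → slotL hG a i x z t = 0 := fun a i x z t ht =>
    hfk (slotL hG a i x z) (fun j => hf j i a x z) t ht
  have hexp : ∀ (a : Fin 3 → Sd 3 (e + 1)) (i : Fin 3) (x z : Sd 3 1) (t : Sd 3 (e + 1)),
      G (update a i t) x z = ∑ k ∈ Finset.range (N + 2),
        eval (p k) (t : MvPolynomial (Fin 3) ℂ) * G (update a i (δ k)) x z := by
    intro a i x z t
    exact evL_expand δ hδ (slotL hG a i x z) (hvan a i x z) t
  -- distinct points
  have hdist : ∀ κ : Fin 3 → ℕ, Injective κ → (∀ i, κ i < N + 2) → ∀ x z,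
      G (fun i => δ (κ i)) x z = 0 := by
    intro κ hκ hκn
    set D : Fin 3 → Sd 3 (e + 1) := fun i => δ (κ i) with hD
    -- the key identity
    have hkey : ∀ (i : Fin 3) (w x z : Sd 3 1),
        eval (p (κ i)) (w : MvPolynomial (Fin 3) ℂ) * G D x z
        + eval (p (κ i)) (x : MvPolynomial (Fin 3) ℂ) * G D z w
        + eval (p (κ i)) (z : MvPolynomial (Fin 3) ℂ) * G D w x = 0 := by
      intro i w x z
      set S : Finset ℕ := Finset.range (N + 2) \ (Finset.univ.erase i).image κ with hS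
      have hScard : S.card ≤ N := by
        rw [hS, Finset.card_sdiff_of_subset, Finset.card_range,
          Finset.card_image_of_injective _ hκ, Finset.card_erase_of_mem (Finset.mem_univ i)]
        · simp
        · intro k hk
          obtain ⟨j, _, rfl⟩ := Finset.mem_image.mp hk
          exact Finset.mem_range.mpr (hκn j)
      have hiS : κ i ∈ S := by
        rw [hS, Finset.mem_sdiff]
        refine ⟨Finset.mem_range.mpr (hκn i), fun h => ?_⟩
        obtain ⟨j, hj, hji⟩ := Finset.mem_image.mp h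
        exact (Finset.ne_of_mem_erase hj) (hκ hji)
      obtain ⟨b, hb1, hb2⟩ := hp2 S Finset.sdiff_subset hScard (κ i) hiS
      have hmu : ∀ w x z : Sd 3 1, G (update D i (muP 3 e b w)) x z
          = eval (p (κ i)) (w : MvPolynomial (Fin 3) ℂ) * G D x z := by
        intro w x z
        rw [hexp D i x z (muP 3 e b w)]
        rw [Finset.sum_eq_single (κ i)]
        · rw [muP_coe, map_mul, hb1, one_mul]
          have : update D i (δ (κ i)) = D := update_eq_self i D
          rw [this]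
        · intro k hk hki
          by_cases hkS : k ∈ S
          · rw [muP_coe, map_mul, hb2 k hkS hki]; ring
          · have hkI : k ∈ (Finset.univ.erase i).image κ := by
              by_contra hcon
              exact hkS (Finset.mem_sdiff.mpr ⟨hk, hcon⟩)
            obtain ⟨j, hj, rfl⟩ := Finset.mem_image.mp hkI
            have hji : j ≠ i := Finset.ne_of_mem_erase hj
            rw [hG.anti_eq hji (update D i (δ (κ j)))
              (by rw [update_self, update_of_ne hji]), mul_zero]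
        · intro h
          exact absurd (Finset.mem_range.mpr (hκn i)) h
      have h := hG.jac i D b w x z
      rw [hmu, hmu, hmu] at h
      exact h
    -- dual linear forms
    have hu' : ∀ i : Fin 3, ∃ u : Sd 3 1, ∀ j : Fin 3,
        eval (p (κ j)) (u : MvPolynomial (Fin 3) ℂ) = if j = i then 1 else 0 := by
      intro i
      obtain ⟨f, h1, h2⟩ := hp1 (Finset.univ.image κ) (by
        intro k hk
        obtain ⟨j, _, rfl⟩ := Finset.mem_image.mp hk
        exact Finset.mem_range.mpr (hκn j)) (by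
        rw [Finset.card_image_of_injective _ hκ]; simp) (κ i)
        (Finset.mem_image_of_mem κ (Finset.mem_univ i))
      refine ⟨f, fun j => ?_⟩
      by_cases hji : j = i
      · rw [if_pos hji, hji, h1]
      · rw [if_neg hji, h2 (κ j) (Finset.mem_image_of_mem κ (Finset.mem_univ j))
          (fun h => hji (hκ h))]
    choose u hu using hu'
    -- evaluation at the three points is injective on linear forms
    let L : Sd 3 1 →ₗ[ℂ] (Fin 3 → ℂ) :=
      { toFun := fun f j => eval (p (κ j)) (f : MvPolynomial (Fin 3) ℂ)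
        map_add' := fun f g => by funext k; simp
        map_smul' := fun c f => by funext k; simp [smul_eval] }
    have hLs : Surjective L := by
      intro v
      refine ⟨∑ i : Fin 3, v i • u i, ?_⟩
      funext j
      rw [map_sum]
      simp only [Finset.sum_apply, map_smul, Pi.smul_apply, smul_eq_mul]
      rw [Finset.sum_eq_single j]
      · show v j * eval (p (κ j)) (u j : MvPolynomial (Fin 3) ℂ) = v j
        rw [hu j j]; simp
      · intro i _ hij
        show v i * eval (p (κ j)) (u i : MvPolynomial (Fin 3) ℂ) = 0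
        rw [hu i j, if_neg (Ne.symm hij), mul_zero]
      · intro h; exact absurd (Finset.mem_univ j) h
    have hLi : Injective L := by
      have : FiniteDimensional ℂ (Sd 3 1) := hfin 1
      exact (LinearMap.injective_iff_surjective_of_finrank_eq_finrank (by
        rw [Module.finrank_fin_fun]; exact finrank_Sd3_one)).mpr hLs
    have hxe : ∀ x : Sd 3 1, x = ∑ i : Fin 3, eval (p (κ i)) (x : MvPolynomial (Fin 3) ℂ) • u i := by
      intro x
      apply hLi
      funext j
      rw [map_sum]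
      simp only [Finset.sum_apply, map_smul, Pi.smul_apply, smul_eq_mul]
      rw [Finset.sum_eq_single j]
      · show eval (p (κ j)) (x : MvPolynomial (Fin 3) ℂ) = eval (p (κ j)) (x : MvPolynomial (Fin 3) ℂ)
          * eval (p (κ j)) (u j : MvPolynomial (Fin 3) ℂ)
        rw [hu j j]; simp
      · intro i _ hij
        show eval (p (κ i)) (x : MvPolynomial (Fin 3) ℂ)
          * eval (p (κ j)) (u i : MvPolynomial (Fin 3) ℂ) = 0
        rw [hu i j, if_neg (Ne.symm hij), mul_zero]
      · intro h; exact absurd (Finset.mem_univ j) h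
    have huu : ∀ j l : Fin 3, G D (u j) (u l) = 0 := by
      intro j l
      by_cases hjl : j = l
      · subst hjl
        have h1 := hG.alt D (u j) (u j)
        have h2 : (2 : ℂ) * G D (u j) (u j) = 0 := by linear_combination h1
        simpa using h2
      · obtain ⟨i, hij, hil⟩ : ∃ i : Fin 3, i ≠ j ∧ i ≠ l := by
          revert hjl; revert j l; decide
        have h1 := hkey i (u i) (u j) (u l)
        rw [hu i i, hu j i, hu l i, if_pos rfl, if_neg hij, if_neg hil] at h1
        linear_combination h1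
    intro x z
    have h1 : bivL hG D = 0 := by
      refine LinearMap.ext fun x => LinearMap.ext fun z => ?_
      rw [hxe x, hxe z]
      simp only [map_sum, LinearMap.sum_apply, map_smul, LinearMap.smul_apply, smul_eq_mul]
      rw [show ((0 : Sd 3 1 →ₗ[ℂ] Sd 3 1 →ₗ[ℂ] ℂ)) = 0 from rfl]
      have h0 : ∀ j i : Fin 3, bivL hG D (u j) (u i) = 0 := fun j i => huu j i
      simp [h0]
    exact LinearMap.congr_fun (LinearMap.congr_fun h1 x) z
  -- all slots equal to some `δ k`
  have hall : ∀ κ : Fin 3 → ℕ, (∀ i, κ i < N + 2) → ∀ x z, G (fun i => δ (κ i)) x z = 0 := by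
    intro κ hκn x z
    by_cases hκ : Injective κ
    · exact hdist κ hκ hκn x z
    · simp only [Injective] at hκ
      push Not at hκ
      obtain ⟨i, j, hij, hne⟩ := hκ
      exact hG.anti_eq hne _ (by show δ (κ i) = δ (κ j); rw [hij]) x z
  have hind : ∀ s : Finset (Fin 3), ∀ a : Fin 3 → Sd 3 (e + 1),
      (∀ i, i ∉ s → ∃ k < N + 2, a i = δ k) → ∀ x z, G a x z = 0 := by
    intro s
    induction s using Finset.induction_on with
    | empty =>
      intro a ha x z
      choose κ hκ1 hκ2 using fun i => ha i (Finset.notMem_empty i)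
      have h1 : a = fun i => δ (κ i) := funext hκ2
      rw [h1]
      exact hall κ hκ1 x z
    | insert i s his ih =>
      intro a ha x z
      have h1 : G a x z = G (update a i (a i)) x z := by rw [update_eq_self]
      rw [h1, hexp a i x z (a i)]
      refine Finset.sum_eq_zero fun k hk => ?_
      rw [ih (update a i (δ k)) ?_ x z, mul_zero]
      intro j hj
      by_cases hji : j = i
      · exact ⟨k, Finset.mem_range.mp hk, by rw [hji, update_self]⟩
      · rw [update_of_ne hji]
        exact ha j (by rw [Finset.mem_insert]; tauto)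
  intro a x z
  exact hind Finset.univ a (fun i hi => absurd (Finset.mem_univ i) hi) x z

end Pool.Agent.H20.S2
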