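import Mathlib

/-!
# Job S2-01 : the positivity lemma for words over an arbitrary finite alphabet

Generalisation of `Pool/Agent/H39/OP/Pos.lean` (`pos_lemma`, alphabet `Bool`) to a finite alphabet
`C`.  `G m b` (`m` a position, `b : M → C` a word) does not depend on the letter of `b` at `m` and
`G m b = - ∑_c h c (b[m ↦ c])` where `h c b = ∑_{k : b k = c} G k b`.  Then `G = 0`.

PROOF.  As in `Pos.lean`.  `N = ∑_b ∑_c |h c b|² = ∑_b ∑_k G k b * conj (h (b k) b)`
(`step1`).  For every `k` and every `F : (M → C) → ℂ`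
`∑_b ∑_c F (update b k c) = |C| * ∑_b F b`
(for fixed `k` the map `(b, c) ↦ (update b k c, b k)` is an involution of `(M → C) × C`;
so `∑_{(b,c)} F (update b k c) = ∑_{(b,c)} F b`).  Apply it to
`F b = G k b * conj (h (b k) b)`: `F (update b k c) = G k b * conj (h c (update b k c))` (`hG`), so
`|C| * ∑_b F b = ∑_b G k b * conj (∑_c h c (update b k c)) = - ∑_b |G k b|²`.
Hence `|C| * N = - ∑_k ∑_b |G k b|²`, so every `G k b = 0`
(if `C` is empty and there is a position `m`, then there is no word `b`; nothing to prove, the same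
inequality `0 ≤ |C| * N = - ∑ |G|²` covers it).
-/

open Function Finset

namespace Pool.Agent.H20.S2

/-- Summing over all values of one letter counts every word `|C|` times. -/
theorem PosC_sum {M C : Type*} [Fintype M] [DecidableEq M] [Fintype C] [DecidableEq C]
    (k : M) (F : (M → C) → ℂ) :
    ∑ b, ∑ c, F (update b k c) = (Fintype.card C : ℂ) * ∑ b, F b := by
  have hinv : Involutive (fun p : (M → C) × C => (update p.1 k p.2, p.1 k)) := by
    rintro ⟨b, c⟩
    simp
  have h1 : ∑ p : (M → C) × C, F (update p.1 k p.2) = ∑ p : (M → C) × C, F p.1 :=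
    Equiv.sum_comp (hinv.toPerm) (fun p : (M → C) × C => F p.1)
  rw [Fintype.sum_prod_type, Fintype.sum_prod_type] at h1
  have h2 : ∑ b : M → C, ∑ _c : C, F b = (Fintype.card C : ℂ) * ∑ b, F b := by
    rw [Finset.mul_sum]
    refine Finset.sum_congr rfl fun b _ => ?_
    rw [Finset.sum_const, nsmul_eq_mul]
    rfl
  exact h1.trans h2

theorem pos_lemmaC {M C : Type*} [Fintype M] [DecidableEq M] [Fintype C] [DecidableEq C]
    (G : M → (M → C) → ℂ)
    (hG : ∀ m b c, G m (update b m c) = G m b)
    (hr : ∀ m b, G m b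
      = - ∑ c, ∑ k ∈ univ.filter (fun k => update b m c k = c), G k (update b m c)) :
    ∀ m b, G m b = 0 := by
  set h : C → (M → C) → ℂ := fun c b => ∑ k ∈ univ.filter (fun k => b k = c), G k b with hh
  -- step 1: the double sum
  have step1 : ∀ b : M → C, ∑ c : C, h c b * (starRingEnd ℂ) (h c b)
      = ∑ k, G k b * (starRingEnd ℂ) (h (b k) b) := by
    intro b
    have : ∀ c : C, h c b * (starRingEnd ℂ) (h c b)
        = ∑ k, (if b k = c then G k b * (starRingEnd ℂ) (h (b k) b) else 0) := by
      intro c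
      rw [← Finset.sum_filter]
      have e : h c b * (starRingEnd ℂ) (h c b)
          = (∑ k ∈ univ.filter (fun k => b k = c), G k b) * (starRingEnd ℂ) (h c b) := rfl
      rw [e, Finset.sum_mul]
      refine Finset.sum_congr rfl fun k hk => ?_
      rw [(Finset.mem_filter.mp hk).2]
    rw [Finset.sum_congr rfl (fun c _ => this c), Finset.sum_comm]
    refine Finset.sum_congr rfl fun k _ => ?_
    simp
  -- step 2
  have step2 : ∀ k, (Fintype.card C : ℂ) * ∑ b, G k b * (starRingEnd ℂ) (h (b k) b)
      = - ∑ b, G k b * (starRingEnd ℂ) (G k b) := by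
    intro k
    rw [← PosC_sum k (fun b => G k b * (starRingEnd ℂ) (h (b k) b)), ← Finset.sum_neg_distrib]
    refine Finset.sum_congr rfl fun b _ => ?_
    simp only [hG, update_self]
    rw [← Finset.mul_sum, ← map_sum]
    have e2 : ∑ c, h c (update b k c) = - G k b := by
      have e : G k b = - ∑ c, h c (update b k c) := hr k b
      rw [e, neg_neg]
    rw [e2, map_neg]; ring
  have step3 : (Fintype.card C : ℂ) * ∑ b, ∑ c : C, h c b * (starRingEnd ℂ) (h c b)
      = - ∑ k, ∑ b, G k b * (starRingEnd ℂ) (G k b) := by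
    rw [Finset.sum_congr rfl (fun b _ => step1 b), Finset.sum_comm, Finset.mul_sum,
      ← Finset.sum_neg_distrib]
    exact Finset.sum_congr rfl fun k _ => step2 k
  have step4 : (Fintype.card C : ℝ) * ∑ b, ∑ c : C, Complex.normSq (h c b)
      = - ∑ k, ∑ b, Complex.normSq (G k b) := by
    have : (((Fintype.card C : ℝ) * ∑ b, ∑ c : C, Complex.normSq (h c b) : ℝ) : ℂ)
        = ((- ∑ k, ∑ b, Complex.normSq (G k b) : ℝ) : ℂ) := by
      push_cast
      simp only [Complex.mul_conj] at step3
      exact step3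
    exact_mod_cast this
  have pos : 0 ≤ (Fintype.card C : ℝ) * ∑ b, ∑ c : C, Complex.normSq (h c b) :=
    mul_nonneg (Nat.cast_nonneg _)
      (Finset.sum_nonneg fun b _ => Finset.sum_nonneg fun c _ => Complex.normSq_nonneg _)
  have nn : ∀ k ∈ (univ : Finset M), 0 ≤ ∑ b, Complex.normSq (G k b) := fun k _ =>
    Finset.sum_nonneg fun b _ => Complex.normSq_nonneg _
  have z : ∑ k, ∑ b, Complex.normSq (G k b) = 0 := by
    have := Finset.sum_nonneg nn
    linarith
  intro m b
  have zm := (Finset.sum_eq_zero_iff_of_nonneg nn).mp z m (Finset.mem_univ m)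
  have zb := (Finset.sum_eq_zero_iff_of_nonneg
    (fun b _ => Complex.normSq_nonneg (G m b))).mp zm b (Finset.mem_univ b)
  exact Complex.normSq_eq_zero.mp zb

end Pool.Agent.H20.S2
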