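import Pool.Agent.H39.OP.FDefs

/-!
# Job S2-04 : points in general position for several spaces of polynomials

PROOF of `exists_pts`.  Induction on `n` (points `p 0, …, p (n-1)`, the others arbitrary): suppose
`p` has the property for all `S ⊆ Finset.range n`.  For every `i` and every `S ⊆ range n` with
`S.card < finrank (V i)` the evaluation map `V i → (S → ℂ)` is not injective (dimension), so there
is `f_{i,S} ∈ V i`, `f_{i,S} ≠ 0`, vanishing at all `p k`, `k ∈ S`.  The product of these finitely
many nonzero polynomials is nonzero, so (`MvPolynomial.funext`, `ℂ` infinite) there is a point `x`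
at which no `f_{i,S}` vanishes.  Put `p' = update p n x`.  Let `S ⊆ range (n+1)`,
`S.card ≤ finrank (V i)`, `k ∈ S`.  If `n ∉ S` use the induction hypothesis.  If `n ∈ S`, let
`S' = S.erase n`, `S'.card < finrank (V i)`, `g = f_{i,S'}` (vanishes on `S'`, not at `x`).  For
`k = n` take `g`.  For `k ≠ n` take `f` from the induction hypothesis for `S'`, `k` and
`f - (f(x) / g(x)) • g`.
(The statement with `ℕ`-indexed points and `S ⊆ range n` for a fixed `n` is enough.)

PROOF of `finrank_Sd3`.  `homogeneousSubmodule (Fin 3) ℂ j` has the basis of the monomials of degree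
`j`, whose number is `Nat.choose (j + 2) 2` (e.g. `(Finset.univ : Finset (Fin 3)).finsuppAntidiag j`,
or `Sym (Fin 3) j`, `Sym.card_sym_fin_eq_choose`-type lemma); we only need the
difference formula.  Alternative: `Sd 3 (j+1) = X 0 • Sd 3 j ⊕ (forms of degree j+1 in X 1, X 2)`, the
second summand has the `j + 2` monomials `X 1 ^ i * X 2 ^ (j + 1 - i)`.
-/

open MvPolynomial Function

namespace Pool.Agent.H20.S2

open Pool.Agent.H39.OP Pool.Agent.H27.OP

lemma exists_vanish {σ : Type*} (W : Submodule ℂ (MvPolynomial σ ℂ))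
    (hW : FiniteDimensional ℂ W) (p : ℕ → (σ → ℂ)) (S : Finset ℕ)
    (hS : S.card < Module.finrank ℂ W) :
    ∃ g : MvPolynomial σ ℂ, g ≠ 0 ∧ g ∈ W ∧ ∀ k ∈ S, eval (p k) g = 0 := by
  classical
  let L : W →ₗ[ℂ] (S → ℂ) :=
    { toFun := fun f k => eval (p k.1) (f : MvPolynomial σ ℂ)
      map_add' := fun f g => by
        funext k
        simp
      map_smul' := fun c f => by
        funext k
        simp [smul_eval] }
  have hlt : Module.finrank ℂ (S → ℂ) < Module.finrank ℂ W := by
    rw [Module.finrank_fintype_fun_eq_card, Fintype.card_coe]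
    exact hS
  have hker : LinearMap.ker L ≠ ⊥ := LinearMap.ker_ne_bot_of_finrank_lt hlt
  obtain ⟨f, hf, hf0⟩ := Submodule.exists_mem_ne_zero_of_ne_bot hker
  refine ⟨f.1, fun h => hf0 (Subtype.ext h), f.2, fun k hk => ?_⟩
  have h1 : L f = 0 := hf
  exact congrFun h1 ⟨k, hk⟩

theorem exists_pts {σ ι : Type*} [Fintype σ] [Fintype ι] (V : ι → Submodule ℂ (MvPolynomial σ ℂ))
    (hV : ∀ i, FiniteDimensional ℂ (V i)) (n : ℕ) :
    ∃ p : ℕ → (σ → ℂ), ∀ (i : ι) (S : Finset ℕ), S ⊆ Finset.range n →
      S.card ≤ Module.finrank ℂ (V i) → ∀ k ∈ S,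
      ∃ f ∈ V i, eval (p k) f = 1 ∧ ∀ k' ∈ S, k' ≠ k → eval (p k') f = 0 := by
  classical
  induction n with
  | zero =>
    refine ⟨fun _ _ => 0, fun i S hS _ k hk => ?_⟩
    have := hS hk
    simp at this
  | succ n ih =>
    obtain ⟨p, hp⟩ := ih
    have hg : ∀ (i : ι) (S : Finset ℕ), ∃ g : MvPolynomial σ ℂ, g ≠ 0 ∧
        (S.card < Module.finrank ℂ (V i) → g ∈ V i ∧ ∀ k ∈ S, eval (p k) g = 0) := by
      intro i S
      by_cases h : S.card < Module.finrank ℂ (V i)
      · obtain ⟨g, hg0, hg1, hg2⟩ := exists_vanish (V i) (hV i) p S h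
        exact ⟨g, hg0, fun _ => ⟨hg1, hg2⟩⟩
      · exact ⟨1, one_ne_zero, fun h' => absurd h' h⟩
    choose g hg0 hg1 using hg
    have hprod : (∏ i : ι, ∏ S ∈ (Finset.range n).powerset, g i S) ≠ 0 :=
      Finset.prod_ne_zero_iff.mpr fun i _ => Finset.prod_ne_zero_iff.mpr fun S _ => hg0 i S
    obtain ⟨x, hx⟩ : ∃ x : σ → ℂ,
        eval x (∏ i : ι, ∏ S ∈ (Finset.range n).powerset, g i S) ≠ 0 := by
      by_contra hcon
      push Not at hcon
      exact hprod (MvPolynomial.funext fun x => by rw [hcon x, map_zero])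
    have hx' : ∀ (i : ι) (S : Finset ℕ), S ⊆ Finset.range n → eval x (g i S) ≠ 0 := by
      intro i S hS h0
      apply hx
      rw [map_prod]
      refine Finset.prod_eq_zero (Finset.mem_univ i) ?_
      rw [map_prod]
      exact Finset.prod_eq_zero (Finset.mem_powerset.mpr hS) h0
    have hpn : ∀ k, k < n → Function.update p n x k = p k := by
      intro k hk
      rw [Function.update_of_ne (by omega)]
    refine ⟨Function.update p n x, fun i S hS hcard k hk => ?_⟩
    by_cases hn : n ∈ S
    · have hS' : S.erase n ⊆ Finset.range n := by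
        intro j hj
        have h1 := hS (Finset.mem_of_mem_erase hj)
        have h2 := Finset.ne_of_mem_erase hj
        simp only [Finset.mem_range] at h1 ⊢
        omega
      have hc' : (S.erase n).card < Module.finrank ℂ (V i) := by
        have := Finset.card_erase_lt_of_mem hn
        omega
      obtain ⟨hgV, hgz⟩ := hg1 i (S.erase n) hc'
      have hgx := hx' i (S.erase n) hS'
      have hgz' : ∀ k' ∈ S, k' ≠ n → eval (Function.update p n x k') (g i (S.erase n)) = 0 := by
        intro k' hk' hne
        have hmem : k' ∈ S.erase n := Finset.mem_erase.mpr ⟨hne, hk'⟩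
        rw [hpn k' (by simpa using hS' hmem)]
        exact hgz k' hmem
      by_cases hkn : k = n
      · subst hkn
        refine ⟨(eval x (g i (S.erase k)))⁻¹ • g i (S.erase k), (V i).smul_mem _ hgV, ?_, ?_⟩
        · rw [Function.update_self, smul_eval]
          exact inv_mul_cancel₀ hgx
        · intro k' hk' hne
          rw [smul_eval, hgz' k' hk' hne, mul_zero]
      · have hmem : k ∈ S.erase n := Finset.mem_erase.mpr ⟨hkn, hk⟩
        obtain ⟨f, hfV, hf1, hf0⟩ := hp i (S.erase n) hS' hc'.le k hmem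
        refine ⟨f - (eval x f / eval x (g i (S.erase n))) • g i (S.erase n),
          (V i).sub_mem hfV ((V i).smul_mem _ hgV), ?_, ?_⟩
        · rw [map_sub, smul_eval, hgz' k hk hkn, mul_zero, sub_zero,
            hpn k (by simpa using hS' hmem)]
          exact hf1
        · intro k' hk' hne
          by_cases hk'n : k' = n
          · subst hk'n
            rw [map_sub, smul_eval, Function.update_self, div_mul_cancel₀ _ hgx, sub_self]
          · have hmem' : k' ∈ S.erase n := Finset.mem_erase.mpr ⟨hk'n, hk'⟩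
            rw [map_sub, smul_eval, hgz' k' hk' hk'n, mul_zero, sub_zero,
              hpn k' (by simpa using hS' hmem')]
            exact hf0 k' hmem' hne
    · have hS' : S ⊆ Finset.range n := by
        intro j hj
        have h1 := hS hj
        have h2 : j ≠ n := fun h => hn (h ▸ hj)
        simp only [Finset.mem_range] at h1 ⊢
        omega
      obtain ⟨f, hfV, hf1, hf0⟩ := hp i S hS' hcard k hk
      refine ⟨f, hfV, ?_, ?_⟩
      · rw [hpn k (by simpa using hS' hk)]
        exact hf1
      · intro k' hk' hne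
        rw [hpn k' (by simpa using hS' hk')]
        exact hf0 k' hk' hne

theorem Sd_finite (r j : ℕ) : FiniteDimensional ℂ (homogeneousSubmodule (Fin r) ℂ j) :=
  Module.Finite.of_fg (homogeneousSubmodule_fg (Fin r) ℂ j)

lemma finrank_Sd3_choose (j : ℕ) :
    Module.finrank ℂ (homogeneousSubmodule (Fin 3) ℂ j) = (j + 2).choose j := by
  classical
  rw [homogeneousSubmodule_eq_finsupp_supported]
  have hset : {d : Fin 3 →₀ ℕ | d.degree = j}
      = ((Finset.univ : Finset (Fin 3)).finsuppAntidiag j : Set (Fin 3 →₀ ℕ)) := by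
    ext d
    simp [Finset.mem_finsuppAntidiag, Finsupp.degree_eq_sum]
  rw [hset]
  have h1 := (AddMonoidAlgebra.supportedEquivFinsupp (R := ℂ) (S := ℂ)
    (((Finset.univ : Finset (Fin 3)).finsuppAntidiag j : Finset (Fin 3 →₀ ℕ)) :
      Set (Fin 3 →₀ ℕ))).finrank_eq
  refine h1.trans ?_
  rw [Module.finrank_finsupp_self]
  simp only [Finset.coe_sort_coe, Fintype.card_coe]
  rw [Finset.card_finsuppAntidiag_nat_eq_choose]
  simp only [Finset.card_univ, Fintype.card_fin]
  congr 1
  omega

theorem finrank_Sd3 (j : ℕ) : Module.finrank ℂ (homogeneousSubmodule (Fin 3) ℂ (j + 1))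
    = Module.finrank ℂ (homogeneousSubmodule (Fin 3) ℂ j) + (j + 2) := by
  rw [finrank_Sd3_choose, finrank_Sd3_choose]
  have h1 : (j + 1 + 2).choose (j + 1) = (j + 3).choose 2 := by
    rw [← Nat.choose_symm_of_eq_add (show j + 3 = (j + 1) + 2 by omega)]
  have h2 : (j + 2).choose j = (j + 2).choose 2 := by
    rw [← Nat.choose_symm_of_eq_add (show j + 2 = j + 2 by rfl)]
  rw [h1, h2, Nat.choose_succ_succ' (j + 2) 1, Nat.choose_one_right]
  norm_num
  omega

theorem finrank_Sd3_one : Module.finrank ℂ (homogeneousSubmodule (Fin 3) ℂ 1) = 3 := by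
  rw [finrank_Sd3_choose]; rfl

end Pool.Agent.H20.S2
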