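import Pool.Agent.H20.S2.PosC
import Pool.Agent.H39.OP.Coef

/-!
# Job S2-02 : the restriction lemma for `C`-vectors

Generalisation of `Pool/Agent/H39/OP/RL.lean` (`RL`, `C = {x, z}`) to a finite set `C`:
`F q v` is additive and homogeneous in the letters `q m` (`m ∈ Act`) and in every `v c`, and is good
at every active position in the form
`F (q[m ↦ w]) v = ∑_c F (q[m ↦ v c]) (v[c ↦ w])`.
If `F q v = 0` whenever all active letters are among the `v c`, then `F = 0`.
(No alternation in `v` is needed.)

PROOF.  Copy `RL.lean`.  Induction on `T ⊆ Act`: `P(T)`: `F q v = 0` if `q m ∈ range v` for all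
`m ∈ Act \ T`.  Step: `S = Act \ T`, `m₀ ∈ S`, `q`, `v` with `q m ∈ range v` for `m ∈ S`, `m ≠ m₀`;
`w = q m₀`; for `b : {m // m ∈ S} → C` let `Q b m = v (b m)` for `m ∈ S` and `q m` otherwise;
`G m b = F (update (Q b) m w) v` (independent of `b m`).
(1) For all `c`, `b`: `F (Q b) (update v c w) = - ∑_{k : b k = c} G k b`: apply `P(T)` to the vector
`update v c (v c + τ • w)` and the word which is `v c + τ • w` at the `m ∈ S` with `b m = c` and
`Q b` elsewhere; additivity in `v c` and `coef` (as in `RL_lin`): coefficient of `τ` is zero.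
(`update (update v c x) c y = update v c y`, `update v c (v c) = v`.)
(2) goodness at `m` for the word `Q b`: `G m b = ∑_c F (update (Q b) m (v c)) (update v c w)
= ∑_c F (Q (update b m c)) (update v c w)`, which by (1) is
`- ∑_c ∑_{k : update b m c k = c} G k (update b m c)`.
`pos_lemmaC` gives `G = 0`; `q = update (Q b) m₀ w` for a suitable `b` (choose `b m` with
`v (b m) = q m` for `m ∈ S`, `m ≠ m₀`, and `b m₀` arbitrary: `C` is nonempty unless `Act = ∅`; if `C`
is empty goodness at `m₀` says directly that `F (update q m₀ w) v = 0`).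
-/

open Function Polynomial Finset

namespace Pool.Agent.H20.S2

open Pool.Agent.H39.OP

private theorem RLC_lin {M U C : Type*} [DecidableEq M] [AddCommGroup U] [Module ℂ U] [Fintype C]
    [DecidableEq C] (Act : Finset M) (F : (M → U) → (C → U) → ℂ)
    (hm : ∀ v, MulAt Act (fun q => F q v))
    (hv : ∀ q, MulAt (univ : Finset C) (fun v => F q v))
    (S : Finset M) (hS : S ⊆ Act)
    (hP : ∀ q v, (∀ m ∈ S, ∃ c, q m = v c) → F q v = 0)
    (T : Finset M) (hT : T ⊆ S) (q : M → U) (v : C → U) (c : C) (w : U)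
    (h1 : ∀ m ∈ T, q m = v c)
    (h2 : ∀ m ∈ S, m ∉ T → ∃ d, d ≠ c ∧ q m = v d) :
    F q (update v c w) = - ∑ m ∈ T, F (update q m w) v := by
  obtain ⟨p1, hp1, -, hp1c⟩ := coef T (fun q => F q v) ((hm v).mono (hT.trans hS)) q
    (fun _ => w)
  obtain ⟨p2, hp2, hp2c, -⟩ := coef T (fun q => F q (update v c w))
    ((hm (update v c w)).mono (hT.trans hS)) q (fun _ => w)
  have h0 : p1 + X * p2 = 0 := by
    apply Polynomial.funext
    intro τ
    rw [eval_add, eval_mul, eval_X, eval_zero, hp1, hp2]
    have h3 := hP (fun m => if m ∈ T then q m + τ • w else q m) (update v c (v c + τ • w)) (by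
      intro m hmS
      by_cases hmT : m ∈ T
      · refine ⟨c, ?_⟩
        rw [if_pos hmT, h1 m hmT, update_self]
      · obtain ⟨d, hd, hd2⟩ := h2 m hmS hmT
        refine ⟨d, ?_⟩
        rw [if_neg hmT, hd2, update_of_ne hd])
    have h4 := (hv (fun m => if m ∈ T then q m + τ • w else q m)).add c (mem_univ c) v (v c)
      (τ • w)
    have h5 := (hv (fun m => if m ∈ T then q m + τ • w else q m)).smul c (mem_univ c) v τ w
    have h6 : F (fun m => if m ∈ T then q m + τ • w else q m) (update v c (v c + τ • w)) =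
        F (fun m => if m ∈ T then q m + τ • w else q m) (update v c (v c)) +
        F (fun m => if m ∈ T then q m + τ • w else q m) (update v c (τ • w)) := h4
    have h7 : F (fun m => if m ∈ T then q m + τ • w else q m) (update v c (τ • w)) =
        τ * F (fun m => if m ∈ T then q m + τ • w else q m) (update v c w) := h5
    rw [h6, h7, update_eq_self] at h3
    exact h3
  have h4 := congrArg (fun p : ℂ[X] => p.coeff 1) h0
  simp only [coeff_add, coeff_zero] at h4
  rw [show (1 : ℕ) = 0 + 1 from rfl, coeff_X_mul, hp2c] at h4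
  simp only [zero_add] at h4
  rw [hp1c] at h4
  linear_combination h4

private theorem RLC_step {M U C : Type*} [DecidableEq M] [AddCommGroup U] [Module ℂ U] [Fintype C]
    [DecidableEq C] (Act : Finset M) (F : (M → U) → (C → U) → ℂ)
    (hm : ∀ v, MulAt Act (fun q => F q v))
    (hv : ∀ q, MulAt (univ : Finset C) (fun v => F q v))
    (hgood : ∀ m ∈ Act, ∀ q (v : C → U) w,
      F (update q m w) v = ∑ c, F (update q m (v c)) (update v c w))
    (S : Finset M) (hS : S ⊆ Act)
    (hP : ∀ q v, (∀ m ∈ S, ∃ c, q m = v c) → F q v = 0)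
    (m₀ : M) (hm₀ : m₀ ∈ S) (q : M → U) (v : C → U)
    (hq : ∀ m ∈ S, m ≠ m₀ → ∃ c, q m = v c) : F q v = 0 := by
  classical
  rcases isEmpty_or_nonempty C with hC | hC
  · have h := hgood m₀ (hS hm₀) q v (q m₀)
    rw [update_eq_self] at h
    rw [h]
    simp
  let Q : ({m // m ∈ S} → C) → M → U := fun b m =>
    if h : m ∈ S then v (b ⟨m, h⟩) else q m
  have hQin : ∀ (b : {m // m ∈ S} → C) (m : {m // m ∈ S}), Q b m = v (b m) := by
    intro b m
    simp only [Q]
    rw [dif_pos m.2]
  have hQout : ∀ (b : {m // m ∈ S} → C) (m : M), m ∉ S → Q b m = q m := by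
    intro b m h
    simp only [Q]
    rw [dif_neg h]
  set w := q m₀ with hw
  have hupd : ∀ (b : {m // m ∈ S} → C) (m : {m // m ∈ S}) (c : C),
      update (Q b) (m : M) (v c) = Q (update b m c) := by
    intro b m c
    funext k
    by_cases hk : k = (m : M)
    · subst hk
      rw [update_self, hQin, update_self]
    · rw [update_of_ne hk]
      by_cases hkS : k ∈ S
      · have h1 := hQin b ⟨k, hkS⟩
        have h2 := hQin (update b m c) ⟨k, hkS⟩
        have h3 : (⟨k, hkS⟩ : {m // m ∈ S}) ≠ m := fun h => hk (congrArg Subtype.val h)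
        rw [update_of_ne h3] at h2
        exact h1.trans h2.symm
      · rw [hQout _ _ hkS, hQout _ _ hkS]
  have hupd2 : ∀ (b : {m // m ∈ S} → C) (m : {m // m ∈ S}) (c : C),
      update (Q (update b m c)) (m : M) w = update (Q b) (m : M) w := by
    intro b m c
    rw [← hupd, update_idem]
  have key : ∀ (b : {m // m ∈ S} → C) (c : C),
      F (Q b) (update v c w) =
        - ∑ k ∈ univ.filter (fun k => b k = c), F (update (Q b) (k : M) w) v := by
    intro b c
    have h1 := RLC_lin Act F hm hv S hS hP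
      ((univ.filter (fun k : {m // m ∈ S} => b k = c)).map (Function.Embedding.subtype _))
      (by
        intro m hmm
        obtain ⟨k, -, rfl⟩ := Finset.mem_map.1 hmm
        exact k.2) (Q b) v c w
      (by
        intro m hmm
        obtain ⟨k, hk, rfl⟩ := Finset.mem_map.1 hmm
        have h2 := (Finset.mem_filter.1 hk).2
        show Q b (k : M) = v c
        rw [hQin, h2])
      (by
        intro m hmS hmm
        refine ⟨b ⟨m, hmS⟩, ?_, hQin b ⟨m, hmS⟩⟩
        intro h3
        exact hmm (Finset.mem_map.2 ⟨⟨m, hmS⟩, Finset.mem_filter.2 ⟨Finset.mem_univ _, h3⟩, rfl⟩))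
    rw [h1, Finset.sum_map]
    rfl
  have hG := pos_lemmaC (fun (m : {m // m ∈ S}) (b : {m // m ∈ S} → C) =>
      F (update (Q b) (m : M) w) v)
    (by
      intro m b c
      show F (update (Q (update b m c)) (m : M) w) v = F (update (Q b) (m : M) w) v
      rw [hupd2])
    (by
      intro m b
      have hj := hgood m (hS m.2) (Q b) v w
      show F (update (Q b) (m : M) w) v = - ∑ c, ∑ k ∈ univ.filter (fun k => update b m c k = c),
        F (update (Q (update b m c)) (k : M) w) v
      rw [hj, ← Finset.sum_neg_distrib]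
      refine Finset.sum_congr rfl fun c _ => ?_
      rw [hupd, key])
  have hb : ∃ b : {m // m ∈ S} → C, ∀ k : {m // m ∈ S}, (k : M) ≠ m₀ → q k = v (b k) := by
    have h : ∀ k : {m // m ∈ S}, ∃ c : C, (k : M) ≠ m₀ → q k = v c := by
      intro k
      by_cases hk : (k : M) = m₀
      · exact ⟨Classical.arbitrary C, fun h => absurd hk h⟩
      · obtain ⟨c, hc⟩ := hq k k.2 hk
        exact ⟨c, fun _ => hc⟩
    choose b hb using h
    exact ⟨b, hb⟩
  obtain ⟨b, hb⟩ := hb
  have h1 := hG ⟨m₀, hm₀⟩ b
  have h2 : update (Q b) m₀ w = q := by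
    funext k
    by_cases hk : k = m₀
    · subst hk
      rw [update_self]
    · rw [update_of_ne hk]
      by_cases hkS : k ∈ S
      · have h3 := hQin b ⟨k, hkS⟩
        have h4 : Q b k = v (b ⟨k, hkS⟩) := h3
        rw [h4, ← hb ⟨k, hkS⟩ hk]
      · exact hQout b k hkS
  have h3 : F (update (Q b) m₀ w) v = 0 := h1
  rw [h2] at h3
  exact h3

theorem RLC {M U C : Type*} [DecidableEq M] [AddCommGroup U] [Module ℂ U] [Fintype C]
    [DecidableEq C] (Act : Finset M) (F : (M → U) → (C → U) → ℂ)
    (hm : ∀ v, MulAt Act (fun q => F q v))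
    (hv : ∀ q, MulAt (univ : Finset C) (fun v => F q v))
    (hgood : ∀ m ∈ Act, ∀ q (v : C → U) w,
      F (update q m w) v = ∑ c, F (update q m (v c)) (update v c w))
    (hbase : ∀ q v, (∀ m ∈ Act, ∃ c, q m = v c) → F q v = 0) :
    ∀ q v, F q v = 0 := by
  have main : ∀ T : Finset M, T ⊆ Act →
      ∀ q (v : C → U), (∀ m ∈ Act \ T, ∃ c, q m = v c) → F q v = 0 := by
    intro T
    induction T using Finset.induction_on with
    | empty =>
      intro _ q v h
      exact hbase q v (fun m hmA => h m (by simpa using hmA))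
    | insert m₀ T hm₀ ih =>
      intro hT q v h
      have hmA : m₀ ∈ Act := hT (Finset.mem_insert_self _ _)
      have hTA : T ⊆ Act := fun k hk => hT (Finset.mem_insert_of_mem hk)
      refine RLC_step Act F hm hv hgood (Act \ T) Finset.sdiff_subset (ih hTA) m₀
        (Finset.mem_sdiff.2 ⟨hmA, hm₀⟩) q v ?_
      intro m hmS hne
      refine h m (Finset.mem_sdiff.2 ⟨(Finset.mem_sdiff.1 hmS).1, ?_⟩)
      intro h5
      rcases Finset.mem_insert.1 h5 with h6 | h6
      · exact hne h6
      · exact (Finset.mem_sdiff.1 hmS).2 h6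
  intro q v
  exact main Act (Finset.Subset.refl _) q v (by simp)

end Pool.Agent.H20.S2
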